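import Mathlib
import Pool.Agent.Lib.MP_2a83f9_an.H.Dep
import Pool.Agent.Lib.MP_2a83f9_an.H.Space

set_option autoImplicit false

open Filter Topology

noncomputable section

namespace Pool.Agent.Lib.MP_2a83f9_an.H.J

universe u v w

/-- The sets with at most two points. -/
def G2 : ℕ → Fam := fun _ => {G | G.card ≤ 2}

theorem null_G2 (j : ℕ) : Null (G2 j) := by
  classical
  refine Null.glue null_small (fun _ => null_small) fun G hG => ?_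
  rcases G.eq_empty_or_nonempty with rfl | ⟨a, ha⟩
  · exact ⟨∅, by simp, fun s t _ => ⟨∅, by simp, fun g hg _ _ => hg⟩⟩
  · refine ⟨{a}, by simp, fun s t h => ⟨G.erase a, ?_, fun g hg h1 h2 =>
      Finset.mem_erase.2 ⟨fun e => h a (by simp) ⟨e ▸ h1, e ▸ h2⟩, hg⟩⟩⟩
    have h1 : G.card ≤ 2 := hG
    change (G.erase a).card ≤ 1
    rw [Finset.card_erase_of_mem ha]
    omega

theorem pair_mem_UU (j a b : ℕ) : ({a, b} : Finset ℕ) ∈ UU G2 j :=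
  Or.inl (Or.inr Finset.card_le_two)

abbrev Tr := Tree G2 {0}

/-- The first node of the chain of `η` from `n` on. -/
def cut (t : Tr) (η n : ℕ) : ℕ := max n (sInf {ζ | ζ ∈ t.D η ∧ n ≤ ζ})

theorem le_cut (t : Tr) (η n : ℕ) : n ≤ cut t η n := le_max_left _ _

theorem cut_mem (t : Tr) {η n : ℕ} (h : n ≤ η) : cut t η n ∈ t.D η := by
  have h1 := Nat.sInf_mem (s := {ζ | ζ ∈ t.D η ∧ n ≤ ζ}) ⟨η, t.self_mem η, h⟩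
  rw [cut, max_eq_right h1.2]
  exact h1.1

theorem cut_le (t : Tr) {η n ζ : ℕ} (h : ζ ∈ t.D η) (h' : n ≤ ζ) : cut t η n ≤ ζ :=
  max_le h' (Nat.sInf_le ⟨h, h'⟩)

/-- The space of values with its levels. -/
structure Val (E : Type w) [NormedAddCommGroup E] [NormedSpace ℂ E] where
  θ : ℕ → ℕ → E →L[ℂ] E
  Λ : ℕ → E →L[ℂ] E
  ε : E →L[ℂ] ℂ
  κ : ℝ
  κ_pos : 0 < κ
  θ_le : ∀ a r x, ‖θ a r x‖ ≤ ‖x‖
  ε_le : ∀ x, ‖ε x‖ ≤ ‖x‖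
  ε_θ : ∀ a x, ε (θ a 0 x) = κ * ε x
  Λ_θ : ∀ a g r x, a ≤ g → Λ g (θ a r x) = θ a r x
  Λ_Λ : ∀ a g x, a ≤ g → Λ g (Λ a x) = Λ a x
  cpt : ∀ g, IsCompactOperator (Λ g)

section
variable {E : Type w} [NormedAddCommGroup E] [NormedSpace ℂ E]
  {Y : Type u} [NormedAddCommGroup Y] [NormedSpace ℂ Y]

/-- The part of a coordinate that starts at the cut. -/
def fc (t : Tr) (e : ℕ → Y →L[ℂ] E) (P : ℕ → Y →L[ℂ] Y) (η n : ℕ) : Y →L[ℂ] E :=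
  (3⁻¹ : ℂ) • (e η).comp (1 - P (cut t η n))

/-- The map coded by a combination at a child of `ξ`. -/
def bc (σ : Val E) (f : ℕ → Y →L[ℂ] E) (ξ : ℕ) (c : Cmb) : Y →L[ℂ] E :=
  bf (σ.θ ξ) (Sum.elim (fun _ => 0) f) c

structure BD (σ : Val E) (Y : Type u) [NormedAddCommGroup Y] [NormedSpace ℂ Y] where
  t : Tr
  e : ℕ → Y →L[ℂ] E
  P : ℕ → Y →L[ℂ] Y
  U : ℕ → E →L[ℂ] Y
  e_le : ∀ γ y, ‖e γ y‖ ≤ ‖y‖
  norming : ∀ (y : Y) (c : ℝ), 0 ≤ c → (∀ γ, ‖e γ y‖ ≤ c) → ‖y‖ ≤ c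
  P_le : ∀ n y, ‖P n y‖ ≤ 2 * ‖y‖
  P_comp : ∀ n m y, P n (P m y) = P (min n m) y
  P_tendsto : ∀ y, Tendsto (fun n => P n y) atTop (𝓝 y)
  coord : ∀ γ n y, γ < n → e γ (P n y) = e γ y
  P_zero : ∀ n y, (∀ γ < n, e γ y = 0) → P n y = 0
  rec_root : ∀ γ y, t.par γ = none → e γ (P γ y) = 0
  rec_child : ∀ γ ξ y, t.par γ = some ξ → e γ (P γ y) =
    e ξ y + (dl (t.w γ) : ℂ) • bc σ (fun η => fc t e P η (ξ + 1)) ξ (t.b γ) (P γ y)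
  lab : ∀ γ y, σ.Λ γ (e γ y) = e γ y
  multi : ∀ (n : ℕ) (v : ℕ → E) (c : ℝ), 0 ≤ c → (∀ γ, ‖v γ‖ ≤ c) → (∀ γ, σ.Λ γ (v γ) = v γ) →
    ∃ y : Y, P n y = y ∧ ‖y‖ ≤ 2 * c ∧ ∀ γ < n, e γ y = v γ
  U_low : ∀ γ x, P γ (U γ x) = 0
  U_high : ∀ γ x, P (γ + 1) (U γ x) = U γ x
  e_U : ∀ γ x, e γ (U γ x) = σ.Λ γ x

variable {σ : Val E}

def BD.f (s : BD σ Y) (η n : ℕ) : Y →L[ℂ] E := fc s.t s.e s.P η n

def BD.bf (s : BD σ Y) (ξ : ℕ) (c : Cmb) : Y →L[ℂ] E := bc σ (fun η => s.f η (ξ + 1)) ξ c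

structure BFam (s : BD σ Y) (D J : Finset ℕ) (x : ℕ → Y) (C : ℝ) : Prop where
  sub : J ⊆ D
  low : ∀ p ∈ J, ∀ q ∈ D, q < p → s.P (q + 1) (x p) = 0
  high : ∀ p ∈ J, s.P (p + 1) (x p) = x p
  norm : ∀ p ∈ J, ‖x p‖ ≤ C

/-- Bounded sequences with finite ranges that go to infinity. -/
structure Blk (s : BD σ Y) (x : ℕ → Y) : Prop where
  fin : ∀ k, ∃ n, s.P n (x k) = x k
  far : ∀ n, ∀ᶠ k in atTop, s.P n (x k) = 0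
  bdd : ∃ C : ℝ, ∀ k, ‖x k‖ ≤ C

/-- Rapidly increasing sequences with a given constant. -/
structure QRIS (s : BD σ Y) (C : ℝ) (x : ℕ → Y) : Prop where
  fin : ∀ k, ∃ n, s.P n (x k) = x k
  far : ∀ n, ∀ᶠ k in atTop, s.P n (x k) = 0
  bdd : ∀ k, ‖x k‖ ≤ C
  est : ∀ h, ∀ᶠ k in atTop, ∀ γ, s.t.w γ = h → ‖s.e γ (x k)‖ ≤ C * dl h

/-- Rapidly increasing sequences, strong form. -/
structure SRIS (s : BD σ Y) (C : ℝ) (x : ℕ → Y) : Prop where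
  fin : ∀ k, ∃ n, s.P n (x k) = x k
  far : ∀ n, ∀ᶠ k in atTop, s.P n (x k) = 0
  bdd : ∀ k, ‖x k‖ ≤ C
  exc : ∀ γ, ∃ k₀, ∀ k, k ≠ k₀ → ‖s.e γ (x k)‖ ≤ C * dl (s.t.w γ)

end

end Pool.Agent.Lib.MP_2a83f9_an.H.J
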