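import Mathlib
import Pool.Agent.Lib.MP_2a83f9_an.J.Defs

set_option autoImplicit false

open Filter Topology

noncomputable section

namespace Pool.Agent.Lib.MP_2a83f9_an.H.J

universe u v w

variable {E : Type w} [NormedAddCommGroup E] [NormedSpace ℂ E] {σ : Val E}
  {Y : Type u} [NormedAddCommGroup Y] [NormedSpace ℂ Y]

theorem norm_third (x : E) : ‖(3⁻¹ : ℂ) • x‖ = ‖x‖ / 3 := by
  rw [norm_smul, norm_inv, Complex.norm_ofNat, inv_mul_eq_div]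

theorem bc_le_of (f : ℕ → Y →L[ℂ] E) (ξ : ℕ) {c : Cmb} (hc : bsum c ≤ 1) (y : Y) {m : ℝ}
    (hm : 0 ≤ m) (h : ∀ η r, (Sum.inr η, r) ∈ c.support → ‖f η y‖ ≤ m) : ‖bc σ f ξ c y‖ ≤ m := by
  refine gf_le_of _ hc y hm ?_
  rintro ⟨i | η, r⟩ hq
  · simpa using hm
  · exact (σ.θ_le ξ r _).trans (h η r hq)

theorem bc_map {W : Type u} [NormedAddCommGroup W] [NormedSpace ℂ W] (ξ : ℕ) (ρ : E →L[ℂ] E)
    (hρ : ∀ r x, ρ (σ.θ ξ r x) = σ.θ ξ r (ρ x)) {f : ℕ → Y →L[ℂ] E} {f' : ℕ → W →L[ℂ] E}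
    {c : Cmb} {y : Y} {y' : W} (h : ∀ η r, (Sum.inr η, r) ∈ c.support → f η y = ρ (f' η y')) :
    bc σ f ξ c y = ρ (bc σ f' ξ c y') := by
  refine bf_map _ ρ hρ ?_
  rintro ⟨i | η, r⟩ hq
  · simp
  · exact h η r hq

theorem bc_congr {W : Type u} [NormedAddCommGroup W] [NormedSpace ℂ W] (ξ : ℕ)
    {f : ℕ → Y →L[ℂ] E} {f' : ℕ → W →L[ℂ] E} {c : Cmb} {y : Y} {y' : W}
    (h : ∀ η r, (Sum.inr η, r) ∈ c.support → f η y = f' η y') :
    bc σ f ξ c y = bc σ f' ξ c y' :=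
  bc_map ξ (ContinuousLinearMap.id ℂ E) (fun _ _ => rfl) h

theorem bc_lab (f : ℕ → Y →L[ℂ] E) {ξ g : ℕ} (h : ξ ≤ g) (c : Cmb) (y : Y) :
    σ.Λ g (bc σ f ξ c y) = bc σ f ξ c y := by
  unfold bc bf gf
  rw [_root_.sum_apply, map_sum]
  exact Finset.sum_congr rfl fun ω _ => by
    simp only [_root_.smul_apply, ContinuousLinearMap.comp_apply, map_smul, σ.Λ_θ _ _ _ _ h]

namespace BD

variable (s : BD σ Y)

theorem f_apply (η n : ℕ) (y : Y) :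
    s.f η n y = (3⁻¹ : ℂ) • s.e η (y - s.P (cut s.t η n) y) := rfl

theorem rec_child' {γ ξ : ℕ} (h : s.t.par γ = some ξ) (y : Y) : s.e γ (s.P γ y) =
    s.e ξ y + (dl (s.t.w γ) : ℂ) • s.bf ξ (s.t.b γ) (s.P γ y) := s.rec_child γ ξ y h

theorem Q_le (n : ℕ) (y : Y) : ‖y - s.P n y‖ ≤ 3 * ‖y‖ := by
  have h1 := norm_sub_le y (s.P n y)
  have h2 := s.P_le n y
  linarith

theorem f_le (η n : ℕ) (y : Y) : ‖s.f η n y‖ ≤ ‖y‖ := by
  rw [f_apply, norm_third]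
  have h1 := s.e_le η (y - s.P (cut s.t η n) y)
  have h2 := s.Q_le (cut s.t η n) y
  linarith

theorem bf_le (ξ : ℕ) {c : Cmb} (hc : bsum c ≤ 1) (y : Y) : ‖s.bf ξ c y‖ ≤ ‖y‖ :=
  bc_le_of _ ξ hc y (norm_nonneg y) fun η _ _ => s.f_le η _ y

theorem bf_max (ξ : ℕ) {c : Cmb} (hc : bsum c ≤ 1) (y : Y) :
    ∃ η, ‖s.bf ξ c y‖ ≤ ‖s.f η (ξ + 1) y‖ := by
  obtain ⟨η, -, hη⟩ := (insert 0 (c.support.image fun q => Sum.elim id id q.1)).exists_max_image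
    (fun η => ‖s.f η (ξ + 1) y‖) (Finset.insert_nonempty _ _)
  exact ⟨η, bc_le_of _ ξ hc y (norm_nonneg _) fun η' r h =>
    hη η' (Finset.mem_insert_of_mem (Finset.mem_image.2 ⟨_, h, rfl⟩))⟩

theorem bf_sing (ξ η : ℕ) (y : Y) : s.bf ξ (sing η) y = σ.θ ξ 0 (s.f η (ξ + 1) y) := by
  unfold BD.bf bc
  rw [H.bf_sing]
  rfl

theorem P_P (n : ℕ) (y : Y) : s.P n (s.P n y) = s.P n y := by rw [s.P_comp, min_self]

theorem P_of_le {n m : ℕ} {y : Y} (h : n ≤ m) (hy : s.P n y = y) : s.P m y = y := by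
  have h1 := s.P_comp m n y
  rwa [min_eq_right h, hy] at h1

theorem P_zero_of_le {n m : ℕ} {y : Y} (h : n ≤ m) (hy : s.P m y = 0) : s.P n y = 0 := by
  have h1 := s.P_comp n m y
  rw [min_eq_left h, hy, map_zero] at h1
  exact h1.symm

theorem e_zero {γ n : ℕ} {y : Y} (h : γ < n) (hy : s.P n y = 0) : s.e γ y = 0 := by
  rw [← s.coord γ n y h, hy, map_zero]

theorem f_zero (η : ℕ) {n : ℕ} {y : Y} (hy : s.P n y = y) : s.f η n y = 0 := by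
  rw [f_apply, s.P_of_le (le_cut _ _ _) hy, sub_self, map_zero, smul_zero]

theorem f_lt {η n : ℕ} (h : η < n) (y : Y) : s.f η n y = 0 := by
  rw [f_apply, map_sub, s.coord _ _ _ (h.trans_le (le_cut _ _ _)), sub_self, smul_zero]

theorem bf_zero (ξ : ℕ) (c : Cmb) {y : Y} (hy : s.P (ξ + 1) y = y) : s.bf ξ c y = 0 := by
  rw [← map_zero (s.bf ξ c)]
  exact bc_congr ξ fun η _ _ => by rw [s.f_zero η hy, map_zero]

theorem bf_sub (ξ : ℕ) (c : Cmb) (y : Y) : s.bf ξ c (y - s.P (ξ + 1) y) = s.bf ξ c y := by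
  rw [map_sub, s.bf_zero ξ c (s.P_P _ y), sub_zero]

theorem e_step {γ ξ : ℕ} (hγ : s.t.par γ = some ξ) {y : Y} (hy : s.P (ξ + 1) y = y) :
    s.e γ y = s.e ξ y := by
  have hlt := s.t.par_lt γ ξ hγ
  have h2 := s.rec_child' hγ y
  rwa [s.P_of_le (by omega) hy, s.bf_zero ξ _ hy, smul_zero, add_zero] at h2

theorem e_anc {γ ζ : ℕ} (h : ζ ∈ s.t.D γ) {y : Y} (hy : s.P (ζ + 1) y = y) :
    s.e γ y = s.e ζ y := by
  induction γ using s.t.ind with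
  | h0 γ hγ => rw [s.t.root_D γ hγ] at h; simp at h; rw [h]
  | h1 γ ξ hγ ih =>
    rw [s.t.par_D γ ξ hγ, Finset.mem_insert] at h
    rcases h with h | h
    · rw [h]
    · have := s.t.le_of_mem h
      rw [s.e_step hγ (s.P_of_le (by omega) hy), ih h]

theorem e_root {γ n : ℕ} (h : ∀ ζ ∈ s.t.D γ, n ≤ ζ) (y : Y) : s.e γ (s.P n y) = 0 := by
  have hz := s.P_P n y
  induction γ using s.t.ind with
  | h0 γ hγ =>
    have h1 := h γ (s.t.self_mem γ)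
    have h2 := s.rec_root γ (s.P n y) hγ
    rwa [s.P_of_le h1 hz] at h2
  | h1 γ ξ hγ ih =>
    have h1 := h ξ (s.t.par_mem (s.t.self_mem γ) hγ)
    rw [s.e_step hγ (s.P_of_le (by omega) hz)]
    exact ih fun ζ hζ => h ζ (s.t.D_subset (s.t.par_mem (s.t.self_mem γ) hγ) hζ)

theorem f_root {η n : ℕ} (h : ∀ ζ ∈ s.t.D η, n ≤ ζ) (y : Y) :
    s.f η n y = (3⁻¹ : ℂ) • s.e η y := by
  rw [f_apply, map_sub, s.e_root (fun ζ hζ => cut_le _ hζ (h ζ hζ)), sub_zero]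

/-- Local support estimate. -/
theorem loc {n : ℕ} {y : Y} (hy : s.P n y = y) (γ : ℕ)
    (h : ∀ ξ, ξ < n → s.t.w ξ = s.t.w γ → s.e ξ y = 0) : ‖s.e γ y‖ ≤ ‖y‖ * dl (s.t.w γ) := by
  have hnn : ∀ γ, 0 ≤ ‖y‖ * dl (s.t.w γ) := fun γ => mul_nonneg (norm_nonneg y) (dl_pos _).le
  induction γ using s.t.ind with
  | h0 γ hγ =>
    rcases lt_or_ge γ n with h1 | h1
    · rw [h γ h1 rfl, norm_zero]; exact hnn γ
    · have h2 := s.rec_root γ y hγ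
      rw [s.P_of_le h1 hy] at h2
      rw [h2, norm_zero]; exact hnn γ
  | h1 γ ξ hγ ih =>
    have hw := s.t.par_w γ ξ hγ
    rcases lt_or_ge γ n with h1 | h1
    · rw [h γ h1 rfl, norm_zero]; exact hnn γ
    · rcases le_or_gt n (ξ + 1) with h2 | h2
      · rw [s.e_step hγ (s.P_of_le h2 hy), hw]
        exact ih fun ζ hζ hw' => h ζ hζ (hw'.trans hw.symm)
      · have h3 := s.rec_child' hγ y
        rw [s.P_of_le h1 hy, h ξ (by omega) hw.symm, zero_add] at h3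
        rw [h3, norm_smul, norm_dl, mul_comm]
        exact mul_le_mul_of_nonneg_right (s.bf_le _ (s.t.par_bsum γ ξ hγ) _) (dl_pos _).le

/-- Evaluation of the end of a chain on a vector, seen from one link of the chain. -/
theorem eval_link {γ ζ ξ : ℕ} (h : ζ ∈ s.t.D γ) (hp : s.t.par ζ = some ξ) (y : Y) :
    ‖s.e γ y - (dl (s.t.w γ) : ℂ) • s.bf ξ (s.t.b ζ) y‖ ≤
      ‖s.e ξ y‖ + 2 * ‖y - s.P ζ y‖ + 2 * ‖y - s.P (ζ + 1) y‖ := by
  have h1 : s.e γ (s.P (ζ + 1) y) = s.e ζ (s.P (ζ + 1) y) := s.e_anc h (s.P_P _ _)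
  have h2 := s.rec_child' hp y
  rw [s.t.w_of_mem h] at h2
  have h3 : s.e γ y - (dl (s.t.w γ) : ℂ) • s.bf ξ (s.t.b ζ) y =
      s.e ξ y + (s.e ζ (y - s.P ζ y) - (dl (s.t.w γ) : ℂ) • s.bf ξ (s.t.b ζ) (y - s.P ζ y)) +
      (s.e γ (y - s.P (ζ + 1) y) - s.e ζ (y - s.P (ζ + 1) y)) := by
    simp only [map_sub] at h2 ⊢
    rw [h1, h2]; module
  rw [h3]
  have h4 := s.e_le ζ (y - s.P ζ y)
  have h5 := s.bf_le ξ (s.t.par_bsum ζ ξ hp) (y - s.P ζ y)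
  have h6 := s.e_le γ (y - s.P (ζ + 1) y)
  have h7 := s.e_le ζ (y - s.P (ζ + 1) y)
  have h8 : ‖(dl (s.t.w γ) : ℂ) • s.bf ξ (s.t.b ζ) (y - s.P ζ y)‖ ≤ ‖y - s.P ζ y‖ := by
    rw [norm_smul, norm_dl]
    have := dl_le (s.t.w γ)
    have := dl_pos (s.t.w γ)
    have := norm_nonneg (s.bf ξ (s.t.b ζ) (y - s.P ζ y))
    nlinarith
  have h9 := norm_add₃_le (a := s.e ξ y) (b := s.e ζ (y - s.P ζ y) -
        (dl (s.t.w γ) : ℂ) • s.bf ξ (s.t.b ζ) (y - s.P ζ y))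
    (c := s.e γ (y - s.P (ζ + 1) y) - s.e ζ (y - s.P (ζ + 1) y))
  have h10 := norm_sub_le (s.e ζ (y - s.P ζ y))
    ((dl (s.t.w γ) : ℂ) • s.bf ξ (s.t.b ζ) (y - s.P ζ y))
  have h11 := norm_sub_le (s.e γ (y - s.P (ζ + 1) y)) (s.e ζ (y - s.P (ζ + 1) y))
  linarith

/-- The cut coordinates norm the vectors that start after the cut. -/
theorem cut_norming {n : ℕ} {y : Y} (hy : s.P n y = 0) {c : ℝ} (hc : 0 ≤ c)
    (h : ∀ η, n ≤ η → ‖s.f η n y‖ ≤ c) : ‖y‖ ≤ 6 * c := by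
  have n0 := norm_nonneg y
  have key : ‖y‖ ≤ 3 * c + ‖y‖ / 2 := s.norming y _ (by positivity) fun η => by
    rcases lt_or_ge η n with h1 | h1
    · rw [s.e_zero h1 hy, norm_zero]
      positivity
    have h2 := h η h1
    rw [f_apply, norm_third, map_sub] at h2
    have h3 := cut_mem s.t h1
    have h4 : ‖s.e η (s.P (cut s.t η n) y)‖ ≤ ‖y‖ / 2 := by
      rw [s.e_anc h3 (s.P_of_le (Nat.le_succ _) (s.P_P _ _))]
      rcases hp : s.t.par (cut s.t η n) with _ | ξ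
      · rw [s.rec_root _ _ hp, norm_zero]
        positivity
      · have h5 : ξ < n := by
          by_contra h6
          have := cut_le s.t (s.t.par_mem h3 hp) (not_lt.1 h6)
          have := s.t.par_lt _ _ hp
          omega
        rw [s.rec_child' hp, s.e_zero h5 hy, zero_add, norm_smul, norm_dl]
        have h6 := (s.bf_le ξ (s.t.par_bsum _ ξ hp) _).trans (s.P_le (cut s.t η n) y)
        have h7 := mul_le_mul (dl_le (s.t.w (cut s.t η n))) h6 (norm_nonneg _) (by norm_num)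
        linarith
    have h5 := norm_le_norm_sub_add (s.e η y) (s.e η (s.P (cut s.t η n) y))
    linarith
  linarith

theorem split (y : Y) (l n : ℕ) (W : Set ℕ) (hl : s.P l y = 0) :
    ∃ y' : Y, s.P l y' = 0 ∧ s.P n y' = y' ∧ ‖y'‖ ≤ 2 * ‖y‖ ∧
      (∀ γ, γ < n → γ ∈ W → s.e γ y' = s.e γ y) ∧ (∀ γ, γ < n → γ ∉ W → s.e γ y' = 0) := by
  classical
  obtain ⟨y', h1, h2, h3⟩ := s.multi n (fun γ => if γ ∈ W then s.e γ y else 0) ‖y‖ (norm_nonneg y)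
    (fun γ => by
      split_ifs
      · exact s.e_le γ y
      · simp) fun γ => by
      split_ifs
      · exact s.lab γ y
      · exact map_zero _
  refine ⟨y', ?_, h1, h2, fun γ a b => (h3 γ a).trans (if_pos b), fun γ a b =>
    (h3 γ a).trans (if_neg b)⟩
  rw [← h1, s.P_comp]
  refine s.P_zero _ _ fun γ hγ => ?_
  rw [h3 γ (hγ.trans_le (min_le_right _ _)), s.e_zero (hγ.trans_le (min_le_left _ _)) hl, ite_self]

theorem tail_small (y : Y) {ε : ℝ} (hε : 0 < ε) : ∃ n, ∀ m, n ≤ m → ‖y - s.P m y‖ ≤ ε := by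
  obtain ⟨n, hn⟩ := (Metric.tendsto_atTop.1 (s.P_tendsto y)) ε hε
  refine ⟨n, fun m hm => ?_⟩
  have := hn m hm
  rw [dist_comm, dist_eq_norm] at this
  exact this.le

end BD

end Pool.Agent.Lib.MP_2a83f9_an.H.J
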