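import Mathlib
import Pool.Agent.Lib.MP_2a83f9_an.J.Basic

set_option autoImplicit false

open Filter Topology

noncomputable section

namespace Pool.Agent.Lib.MP_2a83f9_an.H.J

universe u v w

variable {E : Type w} [NormedAddCommGroup E] [NormedSpace ℂ E] {σ : Val E}
  {Y : Type u} [NormedAddCommGroup Y] [NormedSpace ℂ Y]

namespace BD

variable (s : BD σ Y)

/-- The free part of a coordinate. -/
def d (γ : ℕ) : Y →L[ℂ] E := (s.e γ).comp (1 - s.P γ)

theorem d_apply (γ : ℕ) (y : Y) : s.d γ y = s.e γ y - s.e γ (s.P γ y) := map_sub (s.e γ) _ _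

theorem d_P (γ n : ℕ) (y : Y) : s.d γ (s.P n y) = if γ < n then s.d γ y else 0 := by
  rw [d_apply, s.P_comp]
  split_ifs with h
  · rw [s.coord _ _ _ h, min_eq_left h.le, d_apply]
  · rw [min_eq_right (not_lt.1 h), sub_self]

theorem d_Q (γ n : ℕ) (y : Y) : s.d γ (y - s.P n y) = if n ≤ γ then s.d γ y else 0 := by
  rw [map_sub, d_P]
  rcases lt_or_ge γ n with h | h
  · rw [if_pos h, if_neg (not_le.2 h), sub_self]
  · rw [if_neg (not_lt.2 h), if_pos h, sub_zero]

theorem d_lab (γ : ℕ) (y : Y) : σ.Λ γ (s.d γ y) = s.d γ y := s.lab γ _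

theorem d_U (γ g : ℕ) (x : E) : s.d γ (s.U g x) = if γ = g then σ.Λ g x else 0 := by
  rcases lt_trichotomy γ g with h | rfl | h
  · rw [if_neg h.ne, d_apply, s.e_zero h (s.U_low g x), s.P_zero_of_le h.le (s.U_low g x), map_zero,
      sub_zero]
  · rw [if_pos rfl, d_apply, s.U_low, map_zero, sub_zero, s.e_U]
  · rw [if_neg h.ne', d_apply, s.P_of_le h (s.U_high g x), sub_self]

theorem P_succ (n : ℕ) (y : Y) : s.P (n + 1) y = s.P n y + s.U n (s.d n y) := by
  have h1 : s.P (n + 1) (s.P (n + 1) y - (s.P n y + s.U n (s.d n y))) = 0 :=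
    s.P_zero _ _ fun γ hγ => by
      rw [map_sub, map_add, s.coord _ _ _ hγ]
      rcases Nat.lt_succ_iff_lt_or_eq.1 hγ with h | rfl
      · rw [s.coord _ _ _ h, s.e_zero h (s.U_low n _), add_zero, sub_self]
      · rw [s.e_U, d_lab, d_apply, add_sub_cancel, sub_self]
  rwa [map_sub, map_add, s.P_P, s.P_comp, min_eq_right (Nat.le_succ n), s.U_high, sub_eq_zero] at h1

theorem P_zero_d {n : ℕ} {y : Y} (h : ∀ γ < n, s.d γ y = 0) : s.P n y = 0 := by
  induction n with
  | zero => exact s.P_zero _ _ fun γ hγ => absurd hγ (Nat.not_lt_zero _)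
  | succ n ih =>
    rw [P_succ, ih fun γ hγ => h γ (by omega), h n (Nat.lt_succ_self n), map_zero, add_zero]

theorem ext_d {y y' : Y} (h : ∀ γ, s.d γ y = s.d γ y') : y = y' :=
  sub_eq_zero.1 (tendsto_nhds_unique (s.P_tendsto _) (tendsto_const_nhds.congr fun n =>
    (s.P_zero_d fun γ _ => by rw [map_sub, h, sub_self]).symm))

theorem cpt_P (n : ℕ) : IsCompactOperator (s.P n) := by
  induction n with
  | zero =>
    rw [show s.P 0 = 0 from ContinuousLinearMap.ext fun y =>
      s.P_zero_d fun γ hγ => absurd hγ (Nat.not_lt_zero _)]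
    exact isCompactOperator_zero
  | succ n ih =>
    refine (congrArg IsCompactOperator (funext fun y => ?_)).mp
      (ih.add (((σ.cpt n).comp_clm (s.d n)).clm_comp (s.U n)))
    change s.P n y + s.U n (σ.Λ n (s.d n y)) = _
    rw [d_lab, P_succ]

section Rel

variable (R : E →L[ℂ] E)

/-- The free coordinates of `w` are the images of those of `y`. -/
def Rel (w y : Y) : Prop := ∀ γ, s.d γ w = R (s.d γ y)

variable {s R}

theorem Rel.P {w y : Y} (h : s.Rel R w y) (n : ℕ) : s.Rel R (s.P n w) (s.P n y) := fun γ => by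
  rw [d_P, d_P]
  split_ifs
  · exact h γ
  · rw [map_zero]

theorem Rel.sub {w y w' y' : Y} (h : s.Rel R w y) (h' : s.Rel R w' y') :
    s.Rel R (w - w') (y - y') := fun γ => by rw [map_sub, map_sub, map_sub, h γ, h' γ]

variable {k : ℕ} (hθ : ∀ ξ, k ≤ ξ → ∀ r x, R (σ.θ ξ r x) = σ.θ ξ r (R x))

include hθ in
theorem rel_e (η : ℕ) : ∀ w y, s.Rel R w y → ∀ c ∈ s.t.D η, k ≤ c → s.P c w = 0 → s.P c y = 0 →
    s.e η w = R (s.e η y) := by
  induction η using Nat.strong_induction_on with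
  | _ η ih =>
    intro w y h c hc hk hw hy
    have h1 := h η
    rw [d_apply, d_apply, map_sub] at h1
    suffices h2 : s.e η (s.P η w) = R (s.e η (s.P η y)) by rwa [h2, sub_left_inj] at h1
    rcases (s.t.le_of_mem hc).eq_or_lt with rfl | h2
    · rw [hw, hy, map_zero, map_zero]
    rcases hp : s.t.par η with _ | ξ
    · rw [s.rec_root _ _ hp, s.rec_root _ _ hp, map_zero]
    have h3 : c ∈ s.t.D ξ := by
      rw [s.t.par_D η ξ hp, Finset.mem_insert] at hc
      exact hc.resolve_left h2.ne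
    have h4 := hk.trans (s.t.le_of_mem h3)
    rw [s.rec_child' hp, s.rec_child' hp, map_add, map_smul,
      ih ξ (s.t.par_lt η ξ hp) w y h c h3 hk hw hy]
    congr 2
    refine bc_map ξ R (hθ ξ h4) fun ζ r hω => ?_
    rcases lt_or_ge ζ (ξ + 1) with h5 | h5
    · rw [s.f_lt h5, s.f_lt h5, map_zero]
    · rw [f_apply, f_apply, map_smul, ih ζ (s.t.par_supp η ξ hp ζ r hω) _ _
        ((h.P η).sub ((h.P η).P _)) _ (cut_mem s.t h5)
        (h4.trans ((Nat.le_succ ξ).trans (le_cut _ _ _))) (by rw [map_sub, s.P_P, sub_self])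
        (by rw [map_sub, s.P_P, sub_self])]

include hθ in
theorem rel_f {w y : Y} (h : s.Rel R w y) (η : ℕ) {n : ℕ} (hn : k ≤ n) :
    s.f η n w = R (s.f η n y) := by
  rcases lt_or_ge η n with h5 | h5
  · rw [s.f_lt h5, s.f_lt h5, map_zero]
  · rw [f_apply, f_apply, map_smul, rel_e hθ η _ _ (h.sub (h.P _)) _ (cut_mem s.t h5)
      (hn.trans (le_cut _ _ _)) (by rw [map_sub, s.P_P, sub_self])
      (by rw [map_sub, s.P_P, sub_self])]

include hθ in
theorem rel_norm {w y : Y} (h : s.Rel R w y) (hw : s.P k w = 0) : ‖w‖ ≤ 6 * (‖R‖ * ‖y‖) :=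
  s.cut_norming hw (by positivity) fun η _ => by
    rw [rel_f hθ h η le_rfl]
    exact R.le_opNorm_of_le (s.f_le η k y)

include hθ in
theorem exists_rel [CompleteSpace Y] (hΛ : ∀ γ, k ≤ γ → ∀ x, σ.Λ γ x = x → σ.Λ γ (R x) = R x)
    {y : Y} (hy : s.P k y = 0) : ∃ w, s.Rel R w y := by
  have y0 : ∀ γ < k, s.d γ y = 0 := fun γ h => by
    have := s.d_P γ k y
    rwa [if_pos h, hy, map_zero, eq_comm] at this
  have h1 : ∀ n, s.Rel R (∑ g ∈ Finset.range n, s.U g (R (s.d g y))) (s.P n y) := fun n γ => by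
    rw [map_sum, d_P]
    simp only [d_U, Finset.sum_ite_eq, Finset.mem_range]
    split_ifs
    · rcases lt_or_ge γ k with h | h
      · rw [y0 γ h, map_zero, map_zero]
      · exact hΛ γ h _ (s.d_lab γ y)
    · rw [map_zero]
  have h2 : ∀ {w y' : Y}, s.Rel R w y' → s.P k y' = 0 → s.P k w = 0 := fun {w y'} h h' =>
    s.P_zero_d fun γ hγ => by
      have := s.d_P γ k y'
      rw [if_pos hγ, h', map_zero] at this
      rw [h γ, ← this, map_zero]
  have h3 : ∀ n, s.P k (s.P n y) = 0 := fun n => by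
    rw [s.P_comp, min_comm, ← s.P_comp, hy, map_zero]
  have h4 : CauchySeq fun n => ∑ g ∈ Finset.range n, s.U g (R (s.d g y)) := by
    have h5 := cauchySeq_iff_tendsto_dist_atTop_0.1 (s.P_tendsto y).cauchySeq
    have h6 := (h5.const_mul ‖R‖).const_mul 6
    rw [mul_zero, mul_zero] at h6
    refine cauchySeq_iff_tendsto_dist_atTop_0.2 (squeeze_zero (fun _ => dist_nonneg)
      (fun q => ?_) h6)
    rw [dist_eq_norm, dist_eq_norm]
    exact rel_norm hθ ((h1 q.1).sub (h1 q.2))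
      (h2 ((h1 q.1).sub (h1 q.2)) (by rw [map_sub, h3, h3, sub_self]))
  obtain ⟨w, hw⟩ := cauchySeq_tendsto_of_complete h4
  exact ⟨w, fun γ => tendsto_nhds_unique (((s.d γ).continuous.tendsto w).comp hw)
    ((((R.comp (s.d γ)).continuous.tendsto y).comp (s.P_tendsto y)).congr fun n => (h1 n γ).symm)⟩

end Rel

end BD

end Pool.Agent.Lib.MP_2a83f9_an.H.J
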