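import Mathlib
import Pool.Agent.Lib.MP_2a83f9_an.H.Inner
import Pool.Agent.Lib.MP_2a83f9_an.J.Defs

set_option autoImplicit false

open Filter Topology

noncomputable section

namespace Pool.Agent.Lib.MP_2a83f9_an.H.J

universe u v w

/-- A finite family of functionals that norms a finite-dimensional subspace. -/
theorem exists_fin_norming {B : Type u} [NormedAddCommGroup B] [NormedSpace ℂ B]
    (F : Submodule ℂ B) [FiniteDimensional ℂ F] : ∃ (L : ℕ) (φ : Fin L → B →L[ℂ] ℂ),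
      (∀ i, ‖φ i‖ ≤ 1) ∧ ∀ a ∈ F, ∀ c : ℝ, 0 ≤ c → (∀ i, ‖φ i a‖ ≤ c) → ‖a‖ ≤ 2 * c := by
  have := FiniteDimensional.proper ℂ F
  choose G hG hG' using fun x : F => exists_dual_vector'' ℂ (x : B)
  obtain ⟨I, -, hI⟩ := (isCompact_sphere (0 : F) 1).elim_nhds_subcover
    (fun x => {y : F | 1 / 2 < ‖G x y‖}) fun x hx =>
      (isOpen_lt continuous_const (by fun_prop)).mem_nhds (by
        change 1 / 2 < ‖G x x‖
        rw [hG', RCLike.norm_ofReal, abs_norm,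
          show ‖(x : B)‖ = 1 from mem_sphere_zero_iff_norm.1 hx]
        norm_num)
  refine ⟨I.card, fun i => G (I.equivFin.symm i), fun i => hG _, fun a ha c hc h => ?_⟩
  rcases eq_or_ne a 0 with rfl | h0
  · simpa using hc
  have h1 : 0 < ‖a‖ := norm_pos_iff.2 h0
  have h2 : (⟨((‖a‖⁻¹ : ℝ) : ℂ) • a, F.smul_mem _ ha⟩ : F) ∈ Metric.sphere (0 : F) 1 := by
    rw [mem_sphere_zero_iff_norm]
    change ‖((‖a‖⁻¹ : ℝ) : ℂ) • a‖ = 1
    rw [norm_smul, Complex.norm_real, Real.norm_of_nonneg (by positivity), inv_mul_cancel₀ h1.ne']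
  obtain ⟨x, hx, h3⟩ := Set.mem_iUnion₂.1 (hI h2)
  have h4 := h (I.equivFin ⟨x, hx⟩)
  simp only [Equiv.symm_apply_apply] at h4
  change 1 / 2 < ‖G x (((‖a‖⁻¹ : ℝ) : ℂ) • a)‖ at h3
  rw [map_smul, norm_smul, Complex.norm_real, Real.norm_of_nonneg (by positivity),
    lt_inv_mul_iff₀ h1] at h3
  linarith

theorem exists_fin_proj {V : Type u} [NormedAddCommGroup V] [NormedSpace ℂ V] (W : Submodule ℂ V)
    [FiniteDimensional ℂ W] :
    ∃ Λ : V →L[ℂ] V, IsCompactOperator Λ ∧ (∀ x, Λ x ∈ W) ∧ ∀ x ∈ W, Λ x = x := by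
  obtain ⟨f, hf⟩ := Submodule.ClosedComplemented.of_finiteDimensional W
  have := FiniteDimensional.proper ℂ W
  have h3 : IsCompactOperator f := isCompactOperator_of_locallyCompactSpace_dom _
  exact ⟨W.subtypeL.comp f, h3.clm_comp W.subtypeL, fun x => (f x).2,
    fun x h => congrArg Subtype.val (hf ⟨x, h⟩)⟩

variable {B : Type u} [NormedRing B] [NormedAlgebra ℂ B]

theorem fin_ann {T : Type v} [AddCommGroup T] [Module ℂ T] [FiniteDimensional ℂ T]
    (Ψ : B →ₗ[ℂ] T) : FiniteDimensional ℂ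
      ((LinearMap.ker Ψ).dualAnnihilator.comap (ContinuousLinearMap.coeLM (M := B) (N₃ := ℂ) ℂ)) := by
  have : FiniteDimensional ℂ (LinearMap.ker Ψ).dualAnnihilator := by
    rw [← LinearMap.range_dualMap_eq_dualAnnihilator_ker]
    infer_instance
  exact FiniteDimensional.of_injective
    ((ContinuousLinearMap.coeLM (M := B) (N₃ := ℂ) ℂ).restrict
      (q := (LinearMap.ker Ψ).dualAnnihilator) fun _ h => h) fun φ ψ h =>
      Subtype.ext (ContinuousLinearMap.coe_injective (congrArg Subtype.val h))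

/-- An exhaustion by module projections of finite rank. -/
structure Ex (B : Type u) [NormedRing B] [NormedAlgebra ℂ B] where
  E : ℕ → B →L[ℂ] B
  K : ℝ
  fin : ∀ n, FiniteDimensional ℂ (E n).range
  nest : ∀ n m x, n ≤ m → E m (E n x) = E n x
  mod : ∀ n x y, E n (x * E n y) = E n x * E n y
  one : ∀ n, E n 1 = 1
  lim : ∀ x, Tendsto (fun n => E n x) atTop (𝓝 x)
  one_le : 1 ≤ K
  norm_one : ‖(1 : B)‖ ≤ K
  E_le : ∀ n x, ‖E n x‖ ≤ K * ‖x‖

namespace Ex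

variable (X : Ex B)

theorem K0 : 0 < X.K := by linarith [X.one_le]

theorem mod' {n m : ℕ} (h : n ≤ m) (x y : B) : X.E m (x * X.E n y) = X.E m x * X.E n y := by
  rw [← X.nest n m y h, X.mod]

theorem E_mul (n : ℕ) (x y : B) : X.E n (X.E n x * X.E n y) = X.E n x * X.E n y := by
  rw [X.mod, X.nest n n x le_rfl]

include X in
theorem exists_test : ∃ T : ℕ → B, (∀ r, ‖T r‖ ≤ 1) ∧
    ∀ (g : B →L[ℂ] ℂ) (c : ℝ), 0 ≤ c → (∀ r, ‖g (T r)‖ ≤ c) → ‖g‖ ≤ c := by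
  have h0 : TopologicalSpace.IsSeparable (Set.univ : Set B) := by
    refine (TopologicalSpace.IsSeparable.iUnion fun n => ?_ :
      TopologicalSpace.IsSeparable (⋃ n, ((X.E n).range : Set B))).closure.mono fun x _ =>
        mem_closure_of_tendsto (X.lim x)
          (Eventually.of_forall fun n => Set.mem_iUnion.2 ⟨n, x, rfl⟩)
    have := X.fin n
    have := FiniteDimensional.proper ℂ (X.E n).range
    exact TopologicalSpace.IsSeparable.of_subtype _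
  have h := (h0.mono (Set.subset_univ (Metric.closedBall (0 : B) 1))).separableSpace
  have : Nonempty (Metric.closedBall (0 : B) 1) := ⟨⟨0, by simp⟩⟩
  obtain ⟨d, hd⟩ := TopologicalSpace.exists_dense_seq (Metric.closedBall (0 : B) 1)
  refine ⟨fun r => d r, fun r => mem_closedBall_zero_iff.1 (d r).2,
    fun g c c0 hc => g.opNorm_le_bound c0 fun A => ?_⟩
  have h1 : ∀ y : Metric.closedBall (0 : B) 1, ‖g y‖ ≤ c := fun y =>
    hd.induction_on y (isClosed_le (by fun_prop) continuous_const) hc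
  rcases eq_or_ne A 0 with rfl | h0
  · simp
  · have h2 : 0 < ‖A‖ := norm_pos_iff.2 h0
    have h3 := h1 ⟨((‖A‖⁻¹ : ℝ) : ℂ) • A, mem_closedBall_zero_iff.2 (by
      rw [norm_smul, Complex.norm_real, Real.norm_of_nonneg (by positivity),
        inv_mul_cancel₀ h2.ne'])⟩
    change ‖g (((‖A‖⁻¹ : ℝ) : ℂ) • A)‖ ≤ c at h3
    rw [map_smul, norm_smul, Complex.norm_real, Real.norm_of_nonneg (by positivity),
      inv_mul_le_iff₀ h2] at h3
    rwa [mul_comm]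

/-- The functionals of level `g`. -/
def Lev (g : ℕ) (φ : B →L[ℂ] ℂ) : Prop :=
  ∀ x, (∀ ξ ≤ g, ∀ a, X.E ξ (x * X.E g a) = 0) → φ x = 0

theorem exists_proj (g : ℕ) : ∃ Λ : (B →L[ℂ] ℂ) →L[ℂ] (B →L[ℂ] ℂ), IsCompactOperator Λ ∧
    (∀ φ, X.Lev g (Λ φ)) ∧ ∀ φ, X.Lev g φ → Λ φ = φ := by
  have := X.fin g
  let Ψ : B →ₗ[ℂ] (Fin (g + 1) → (X.E g).range →ₗ[ℂ] (X.E g).range) := LinearMap.pi fun ξ =>
    ((LinearMap.mul ℂ B).compl₂ (X.E g).range.subtype).compr₂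
      ((X.E g).rangeRestrict.toLinearMap.comp (X.E ξ).toLinearMap)
  have h1 : ∀ x, Ψ x = 0 ↔ ∀ ξ ≤ g, ∀ a, X.E ξ (x * X.E g a) = 0 := fun x =>
    ⟨fun h ξ hξ a => (X.nest ξ g _ hξ).symm.trans (congrArg Subtype.val
      (LinearMap.congr_fun (congrFun h ⟨ξ, Nat.lt_succ_of_le hξ⟩) ⟨_, a, rfl⟩)),
    fun h => funext fun ξ => LinearMap.ext fun ⟨_, a, ha⟩ => Subtype.ext (by
      subst ha
      exact (congrArg (X.E g) (h ξ (Nat.le_of_lt_succ ξ.2) a)).trans (map_zero _))⟩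
  have := fin_ann Ψ
  set W := (LinearMap.ker Ψ).dualAnnihilator.comap (ContinuousLinearMap.coeLM (M := B) (N₃ := ℂ) ℂ)
  have h2 : ∀ φ, φ ∈ W ↔ X.Lev g φ := fun φ =>
    (Submodule.mem_dualAnnihilator _).trans (forall_congr' fun x => imp_congr_left (h1 x))
  obtain ⟨Λ, h3, h4, h5⟩ := exists_fin_proj W
  exact ⟨Λ, h3, fun φ => (h2 _).1 (h4 φ), fun φ h => h5 φ ((h2 φ).2 h)⟩

theorem lev_mono {ξ g : ℕ} (h : ξ ≤ g) {φ : B →L[ℂ] ℂ} (hφ : X.Lev ξ φ) : X.Lev g φ :=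
  fun x hx => hφ x fun ζ hζ a => by
    rw [← X.nest ξ g a h]
    exact hx ζ (hζ.trans h) _

theorem lev_pre (g : ℕ) (φ : B →L[ℂ] ℂ) : X.Lev g (pre (X.E g) φ) := fun x hx => by
  have h := hx g le_rfl 1
  rw [X.one, mul_one] at h
  change φ (X.E g x) = 0
  rw [h, map_zero]

theorem lev_preR {k g : ℕ} (h : k ≤ g) (a : B) {φ : B →L[ℂ] ℂ} (hφ : X.Lev g φ) :
    X.Lev g (preR (X.E k a) φ) := fun x hx => hφ (x * X.E k a) fun ξ hξ b => by
  rw [mul_assoc, ← X.nest k g a h, ← X.E_mul]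
  exact hx ξ hξ _

end Ex

end Pool.Agent.Lib.MP_2a83f9_an.H.J
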