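import Mathlib
import Pool.Agent.Lib.MP_2a83f9_an.H.Ten
import Pool.Agent.Lib.MP_2a83f9_an.J.Basic

set_option autoImplicit false

open Filter Topology BoundedContinuousFunction

noncomputable section

namespace Pool.Agent.Lib.MP_2a83f9_an.H.J

universe u v w

section
variable {E : Type w} [NormedAddCommGroup E] [NormedSpace ℂ E]

def spG (t : Tr) (F : ℕ → ℕ → (ℕ →ᵇ E) →L[ℂ] E) (n ξ η : ℕ) : (ℕ →ᵇ E) →L[ℂ] E :=
  (3⁻¹ : ℂ) • (F η n - F η (min n (cut t η (ξ + 1))))

def spStep (σ : Val E) (t : Tr) (g : ℕ) (F : ℕ → ℕ → (ℕ →ᵇ E) →L[ℂ] E) (n : ℕ) :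
    (ℕ →ᵇ E) →L[ℂ] E :=
  if g < n then BoundedContinuousFunction.evalCLM ℂ g else
    (t.par g).elim 0 fun ξ => F ξ n + (dl (t.w g) : ℂ) • bc σ (spG t F n ξ) ξ (t.b g)

theorem spStep_congr (σ : Val E) (t : Tr) (g : ℕ) {F F' : ℕ → ℕ → (ℕ →ᵇ E) →L[ℂ] E}
    (h : ∀ η < g, F η = F' η) : spStep σ t g F = spStep σ t g F' := by
  funext n
  unfold spStep
  rcases hp : t.par g with _ | ξ
  · simp only [Option.elim]
  · have hb : bc σ (spG t F n ξ) ξ (t.b g) = bc σ (spG t F' n ξ) ξ (t.b g) :=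
      ContinuousLinearMap.ext fun y => bc_congr ξ fun η r hω => by
        rw [spG, spG, h η (t.par_supp g ξ hp η r hω)]
    simp only [Option.elim]
    rw [hb, h ξ (t.par_lt g ξ hp)]

theorem sp_exists (σ : Val E) (t : Tr) :
    ∃ F : ℕ → ℕ → (ℕ →ᵇ E) →L[ℂ] E, ∀ g n, F g n = spStep σ t g F n := by
  obtain ⟨F, hF⟩ := sp_rec 0 (spStep σ t) fun g _ _ h => spStep_congr σ t g h
  exact ⟨F, fun g n => congrFun (hF g) n⟩

def spF (σ : Val E) (t : Tr) : ℕ → ℕ → (ℕ →ᵇ E) →L[ℂ] E := (sp_exists σ t).choose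

variable (σ : Val E) (t : Tr)

theorem spG_apply (n ξ η : ℕ) (y : ℕ →ᵇ E) : spG t (spF σ t) n ξ η y =
    (3⁻¹ : ℂ) • (spF σ t η n y - spF σ t η (min n (cut t η (ξ + 1))) y) := rfl

theorem spF_lt {g n : ℕ} (h : g < n) (y : ℕ →ᵇ E) : spF σ t g n y = y g := by
  have h1 : spF σ t g n = _ := (sp_exists σ t).choose_spec g n
  rw [h1, spStep, if_pos h]
  rfl

theorem spF_root {g n : ℕ} (h : n ≤ g) (hp : t.par g = none) (y : ℕ →ᵇ E) :
    spF σ t g n y = 0 := by
  have h1 : spF σ t g n = _ := (sp_exists σ t).choose_spec g n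
  rw [h1, spStep, if_neg (by omega), hp]
  rfl

theorem spF_child {g n ξ : ℕ} (h : n ≤ g) (hp : t.par g = some ξ) (y : ℕ →ᵇ E) :
    spF σ t g n y = spF σ t ξ n y +
      (dl (t.w g) : ℂ) • bc σ (spG t (spF σ t) n ξ) ξ (t.b g) y := by
  have h1 : spF σ t g n = _ := (sp_exists σ t).choose_spec g n
  rw [h1, spStep, if_neg (by omega), hp]
  rfl

theorem spF_le (y : ℕ →ᵇ E) (g : ℕ) : ∀ n, ‖spF σ t g n y‖ ≤ 2 * ‖y‖ := by
  have hy := norm_nonneg y
  induction g using Nat.strong_induction_on with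
  | _ g ih =>
    intro n
    rcases lt_or_ge g n with h | h
    · rw [spF_lt σ t h]
      linarith [y.norm_coe_le_norm g]
    · rcases hp : t.par g with _ | ξ
      · rw [spF_root σ t h hp, norm_zero]; positivity
      · have hlt := t.par_lt g ξ hp
        rw [spF_child σ t h hp]
        rcases le_or_gt n (ξ + 1) with h1 | h1
        · have hb : ‖bc σ (spG t (spF σ t) n ξ) ξ (t.b g) y‖ ≤ 0 :=
            bc_le_of _ ξ (t.par_bsum g ξ hp) y le_rfl fun η _ _ => by
              rw [spG_apply, min_eq_left (h1.trans (le_cut _ _ _)), sub_self, smul_zero, norm_zero]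
          rw [norm_le_zero_iff.1 hb, smul_zero, add_zero]
          exact ih ξ hlt n
        · have hb : ‖bc σ (spG t (spF σ t) n ξ) ξ (t.b g) y‖ ≤ 2 * ‖y‖ :=
            bc_le_of _ ξ (t.par_bsum g ξ hp) y (by positivity) fun η r hω => by
              have h2 := ih η (t.par_supp g ξ hp η r hω)
              rw [spG_apply, norm_third]
              linarith [norm_sub_le_of_le (h2 n) (h2 (min n (cut t η (ξ + 1))))]
          rw [spF_lt σ t (by omega : ξ < n)]
          refine (norm_add_le _ _).trans ?_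
          rw [norm_smul, norm_dl]
          have h2 := y.norm_coe_le_norm ξ
          have h3 := mul_le_mul (dl_le (t.w g)) hb (norm_nonneg _) (by norm_num)
          linarith

def spP (n : ℕ) : (ℕ →ᵇ E) →L[ℂ] (ℕ →ᵇ E) :=
  bcf (fun g => spF σ t g n) zero_le_two fun g y => spF_le σ t y g n

theorem spP_apply (n : ℕ) (y : ℕ →ᵇ E) (g : ℕ) : spP σ t n y g = spF σ t g n y := rfl

theorem spP_le (n : ℕ) (y : ℕ →ᵇ E) : ‖spP σ t n y‖ ≤ 2 * ‖y‖ :=
  (BoundedContinuousFunction.norm_le (by positivity)).2 fun g => spF_le σ t y g n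

theorem spF_P (y : ℕ →ᵇ E) (m g : ℕ) :
    ∀ n, spF σ t g n (spP σ t m y) = spF σ t g (min n m) y := by
  induction g using Nat.strong_induction_on with
  | _ g ih =>
    intro n
    rcases lt_or_ge g n with h | h
    · rw [spF_lt σ t h, spP_apply]
      rcases lt_or_ge g m with h1 | h1
      · rw [spF_lt σ t h1, spF_lt σ t (lt_min h h1)]
      · rw [min_eq_right (by omega)]
    · rcases hp : t.par g with _ | ξ
      · rw [spF_root σ t h hp, spF_root σ t ((min_le_left _ _).trans h) hp]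
      · rw [spF_child σ t h hp, spF_child σ t ((min_le_left _ _).trans h) hp,
          ih ξ (t.par_lt g ξ hp)]
        congr 2
        exact bc_congr ξ fun η r hω => by
          rw [spG_apply, spG_apply, ih η (t.par_supp g ξ hp η r hω),
            ih η (t.par_supp g ξ hp η r hω), min_right_comm]

theorem spP_comp (n m : ℕ) (y : ℕ →ᵇ E) : spP σ t n (spP σ t m y) = spP σ t (min n m) y := by
  ext g
  exact spF_P σ t y m g n

theorem spF_zero {m : ℕ} {z : ℕ →ᵇ E} (h2 : ∀ g < m, z g = 0) (g : ℕ) :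
    ∀ n ≤ m, spF σ t g n z = 0 := by
  induction g using Nat.strong_induction_on with
  | _ g ih =>
    intro n hn
    rcases lt_or_ge g n with h | h
    · rw [spF_lt σ t h, h2 g (by omega)]
    · rcases hp : t.par g with _ | ξ
      · exact spF_root σ t h hp z
      · have hb : ‖bc σ (spG t (spF σ t) n ξ) ξ (t.b g) z‖ ≤ 0 :=
          bc_le_of _ ξ (t.par_bsum g ξ hp) z le_rfl fun η r hω => by
            have h3 := ih η (t.par_supp g ξ hp η r hω)
            rw [spG_apply, h3 n hn, h3 _ ((min_le_left _ _).trans hn), sub_self, smul_zero,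
              norm_zero]
        rw [spF_child σ t h hp, ih ξ (t.par_lt g ξ hp) n hn, norm_le_zero_iff.1 hb, smul_zero,
          add_zero]

theorem spP_zero {m : ℕ} {z : ℕ →ᵇ E} (h2 : ∀ g < m, z g = 0) : spP σ t m z = 0 := by
  ext g
  exact spF_zero σ t h2 g m le_rfl

theorem spF_lab {y : ℕ →ᵇ E} (hy : ∀ g, σ.Λ g (y g) = y g) (n g : ℕ) :
    σ.Λ g (spF σ t g n y) = spF σ t g n y := by
  induction g using t.ind with
  | h0 g hp =>
    rcases lt_or_ge g n with h | h
    · rw [spF_lt σ t h, hy]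
    · rw [spF_root σ t h hp, map_zero]
  | h1 g ξ hp ih =>
    have hlt := (t.par_lt g ξ hp).le
    rcases lt_or_ge g n with h | h
    · rw [spF_lt σ t h, hy]
    · rw [spF_child σ t h hp, map_add, map_smul, bc_lab _ hlt, ← ih, σ.Λ_Λ _ _ _ hlt]

def spY : Submodule ℂ (ℕ →ᵇ E) where
  carrier := {y | Tendsto (fun n => spP σ t n y) atTop (𝓝 y) ∧ ∀ g, σ.Λ g (y g) = y g}
  add_mem' := fun {y z} hy hz => ⟨by simpa using Tendsto.add hy.1 hz.1, fun g => by
    change σ.Λ _ (y g + z g) = y g + z g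
    rw [map_add, hy.2, hz.2]⟩
  zero_mem' := ⟨by simp, fun g => map_zero _⟩
  smul_mem' := fun c y hy => ⟨by simpa using Tendsto.const_smul hy.1 c, fun g => by
    change σ.Λ _ (c • y g) = c • y g
    rw [map_smul, hy.2]⟩

theorem spP_mem (n : ℕ) {y : ℕ →ᵇ E} (hy : ∀ g, σ.Λ g (y g) = y g) : spP σ t n y ∈ spY σ t :=
  ⟨tendsto_const_nhds.congr' (eventually_atTop.2 ⟨n, fun m hm => by
    simp only [spP_comp, min_eq_right hm]⟩), fun g => spF_lab σ t hy n g⟩

theorem spY_closed : IsClosed (spY σ t : Set (ℕ →ᵇ E)) := by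
  refine isClosed_of_closure_subset fun y hy => ⟨?_, fun g => ?_⟩
  · rw [Metric.tendsto_atTop]
    intro ε hε
    obtain ⟨z, hz, hyz⟩ := Metric.mem_closure_iff.1 hy (ε / 6) (by positivity)
    obtain ⟨N, hN⟩ := Metric.tendsto_atTop.1 hz.1 (ε / 2) (by positivity)
    refine ⟨N, fun n hn => ?_⟩
    have h1 := hN n hn
    have h2 := dist_triangle4 (spP σ t n y) (spP σ t n z) z y
    have h3 : dist (spP σ t n y) (spP σ t n z) ≤ 2 * dist y z := by
      rw [dist_eq_norm, dist_eq_norm, ← map_sub]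
      exact spP_le σ t n _
    rw [dist_comm z y] at h2
    linarith
  · exact closure_minimal (fun z hz => hz.2 g)
      (isClosed_eq ((σ.Λ g).comp (BoundedContinuousFunction.evalCLM ℂ g)).continuous
        (BoundedContinuousFunction.evalCLM (β := E) ℂ g).continuous) hy

/-- The projections with values in the space. -/
def spQ (n : ℕ) {W : Type v} [NormedAddCommGroup W] [NormedSpace ℂ W] (T : W →L[ℂ] (ℕ →ᵇ E))
    (hT : ∀ x g, σ.Λ g (T x g) = T x g) : W →L[ℂ] spY σ t :=
  ((spP σ t n).comp T).codRestrict _ fun x => spP_mem σ t n (hT x)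

def spBD : BD σ (spY σ t) where
  t := t
  e g := (BoundedContinuousFunction.evalCLM ℂ g).comp (spY σ t).subtypeL
  P n := spQ σ t n (spY σ t).subtypeL fun y => y.2.2
  U g := spQ σ t (g + 1) ((spD g).comp (σ.Λ g)) fun x h => by
    rw [ContinuousLinearMap.comp_apply, spD_apply]
    split_ifs with c
    · rw [c, σ.Λ_Λ _ _ _ le_rfl]
    · exact map_zero _
  e_le g y := (y : ℕ →ᵇ E).norm_coe_le_norm g
  norming y c hc h := (BoundedContinuousFunction.norm_le hc).2 h
  P_le n y := spP_le σ t n y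
  P_comp n m y := Subtype.ext (spP_comp σ t n m y)
  P_tendsto y := tendsto_subtype_rng.2 y.2.1
  coord γ n y h := spF_lt σ t h y
  P_zero n y h := Subtype.ext (spP_zero σ t h)
  rec_root γ y h := spF_root σ t le_rfl h y
  rec_child γ ξ y h := by
    have h1 := spF_child σ t le_rfl h (y : ℕ →ᵇ E)
    rw [spF_lt σ t (t.par_lt γ ξ h)] at h1
    refine h1.trans (congrArg _ (congrArg _ (bc_congr ξ fun η r _ => ?_)))
    change _ = (3⁻¹ : ℂ) • (spF σ t η γ y - spF σ t η (cut t η (ξ + 1)) (spP σ t γ y))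
    rw [spG_apply, spF_P, min_comm]
  lab γ y := y.2.2 γ
  multi n v c hc h1 h2 :=
    ⟨⟨_, spP_mem σ t n (y := ofNormedAddCommGroupDiscrete v c h1) h2⟩,
      Subtype.ext ((spP_comp σ t n n _).trans (by rw [min_self])),
      (spP_le σ t n _).trans (mul_le_mul_of_nonneg_left
        ((BoundedContinuousFunction.norm_le hc).2 h1) zero_le_two), fun γ h => spF_lt σ t h _⟩
  U_low γ x := Subtype.ext ((spP_comp σ t γ (γ + 1) _).trans
    (spP_zero σ t fun g hg => if_neg (by omega)))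
  U_high γ x := Subtype.ext ((spP_comp σ t _ _ _).trans (by rw [min_self]; rfl))
  e_U γ x := (spF_lt σ t (Nat.lt_succ_self γ) _).trans (if_pos rfl)

end

theorem exists_BD {E : Type w} [NormedAddCommGroup E] [NormedSpace ℂ E] [CompleteSpace E]
    (σ : Val E) : ∃ (Y : Type w) (_ : NormedAddCommGroup Y) (_ : NormedSpace ℂ Y)
      (_ : CompleteSpace Y), Nonempty (BD σ Y) := by
  obtain ⟨t⟩ := exists_tree G2 (S := {0}) (a := 0) rfl
  exact ⟨spY σ t, inferInstance, inferInstance, (spY_closed σ t).completeSpace_coe, ⟨spBD σ t⟩⟩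

end Pool.Agent.Lib.MP_2a83f9_an.H.J
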