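import Mathlib
import Pool.Agent.Lib.MP_2a83f9_an.J.Ex
import Pool.Agent.Lib.MP_2a83f9_an.J.Act
import Pool.Agent.Lib.MP_2a83f9_an.J.Space

set_option autoImplicit false

open Filter Topology

noncomputable section

namespace Pool.Agent.Lib.MP_2a83f9_an.H.J

universe u v w

variable {B : Type u} [NormedRing B] [NormedAlgebra ℂ B]

/-- The space of values attached to an exhaustion. -/
structure Fit (X : Ex B) (σ : Val (B →L[ℂ] ℂ)) where
  t : ℕ → B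
  test : ∀ (g : B →L[ℂ] ℂ) (c : ℝ), 0 ≤ c → (∀ r, ‖g (t r)‖ ≤ c) → ‖g‖ ≤ X.K * c
  θ_eq : ∀ ξ r φ x, σ.θ ξ r φ x = ((X.K⁻¹ : ℝ) : ℂ) * φ (t r * X.E ξ x)
  ε_eq : ∀ φ, σ.ε φ = ((X.K⁻¹ : ℝ) : ℂ) * φ 1
  Λ_iff : ∀ g φ, σ.Λ g φ = φ ↔ X.Lev g φ

theorem exists_fit (X : Ex B) : ∃ σ : Val (B →L[ℂ] ℂ), Nonempty (Fit X σ) := by
  have K0 := X.K0
  obtain ⟨T, hT, hT'⟩ := X.exists_test
  choose Λ Λ1 Λ2 Λ3 using X.exists_proj
  set κ : ℂ := ((X.K⁻¹ : ℝ) : ℂ) with hκ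
  have κn : ‖κ‖ = X.K⁻¹ := by rw [hκ, Complex.norm_real, Real.norm_of_nonneg (by positivity)]
  have κ1 : ‖κ • (1 : B)‖ ≤ 1 := by
    rw [norm_smul, κn, inv_mul_le_iff₀ K0, mul_one]
    exact X.norm_one
  obtain ⟨t, t0, t1⟩ : ∃ t : ℕ → B, t 0 = κ • 1 ∧ ∀ r, t (r + 1) = T r :=
    ⟨fun r => Nat.casesOn r (κ • 1) T, rfl, fun _ => rfl⟩
  have tn : ∀ r, ‖t r‖ ≤ 1 := fun r => by
    rcases r with _ | r
    · rwa [t0]
    · rw [t1]
      exact hT r
  refine ⟨{ θ := fun ξ r => (pre (X.E ξ)).comp (κ • preL (t r))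
            Λ := Λ
            ε := evl (κ • 1)
            κ := X.K⁻¹ * X.K⁻¹
            κ_pos := by positivity
            θ_le := fun ξ r φ => ContinuousLinearMap.opNorm_le_bound _ (norm_nonneg _) fun x => ?_
            ε_le := fun φ => (φ.le_opNorm_of_le κ1).trans_eq (mul_one _)
            ε_θ := fun ξ φ => ?_
            Λ_θ := fun ξ g r φ h => Λ3 g _ (X.lev_mono h (X.lev_pre ξ _))
            Λ_Λ := fun ξ g φ h => Λ3 g _ (X.lev_mono h (Λ2 ξ φ))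
            cpt := Λ1 },
    ⟨{ t := t
       test := fun g c hc h => (hT' g c hc fun r => t1 r ▸ h (r + 1)).trans
        (le_mul_of_one_le_left hc X.one_le)
       θ_eq := fun _ _ _ _ => rfl
       ε_eq := fun φ => map_smul φ κ 1
       Λ_iff := fun g φ => ⟨fun h => h ▸ Λ2 g φ, Λ3 g φ⟩ }⟩⟩
  · change ‖κ * φ (t r * X.E ξ x)‖ ≤ _
    rw [norm_mul, κn, inv_mul_le_iff₀ K0, mul_left_comm]
    exact φ.le_opNorm_of_le ((norm_mul_le _ _).trans
      ((mul_le_of_le_one_left (norm_nonneg _) (tn r)).trans (X.E_le ξ x)))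
  · change κ * φ (t 0 * X.E ξ (κ • 1)) = _ * φ (κ • 1)
    rw [map_smul (X.E ξ), X.one, t0, smul_mul_assoc, one_mul, map_smul, smul_eq_mul, ← mul_assoc,
      Complex.ofReal_mul]

variable {X : Ex B} {σ : Val (B →L[ℂ] ℂ)} {Y : Type v} [NormedAddCommGroup Y] [NormedSpace ℂ Y]

theorem Fit.comm (F : Fit X σ) (k : ℕ) (a : B) (ξ : ℕ) (h : k ≤ ξ) (r : ℕ) (φ : B →L[ℂ] ℂ) :
    preR (X.E k a) (σ.θ ξ r φ) = σ.θ ξ r (preR (X.E k a) φ) := by
  ext x
  rw [preR_apply, F.θ_eq, F.θ_eq, preR_apply, X.mod' h, mul_assoc]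

theorem Fit.exists_act [CompleteSpace Y] (F : Fit X σ) (s : BD σ Y) (k : ℕ) :
    ∃ α : B →L[ℂ] Y →L[ℂ] Y, (∀ a y, s.Rel (preR (X.E k a)) (α a y) (y - s.P k y)) ∧
      ∀ a y, ‖α a y‖ ≤ 18 * X.K * ‖a‖ * ‖y‖ := by
  have K0 := X.K0
  choose w hw using fun (a : B) (y : Y) => BD.exists_rel (s := s) (F.comm k a)
    (fun γ h φ hφ => (F.Λ_iff _ _).2 (X.lev_preR h a ((F.Λ_iff _ _).1 hφ)))
    (y := y - s.P k y) (by rw [map_sub, s.P_P, sub_self])
  have h1 : ∀ a y γ x, s.d γ (w a y) x = s.d γ (y - s.P k y) (x * X.E k a) := fun a y γ x => by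
    rw [hw a y γ, preR_apply]
  have h2 : ∀ a y, ‖w a y‖ ≤ 18 * X.K * ‖a‖ * ‖y‖ := fun a y => by
    have h3 := BD.rel_norm (F.comm k a) (hw a y) (s.P_zero_d fun γ hγ => by
      rw [hw a y γ, s.d_Q, if_neg (not_le.2 hγ), map_zero])
    have h4 : ‖preR (X.E k a)‖ ≤ X.K * ‖a‖ :=
      ContinuousLinearMap.opNorm_le_bound _ (by positivity) fun φ => (preR_le _ φ).trans
        (mul_le_mul_of_nonneg_right (X.E_le k a) (norm_nonneg _))
    have h5 := mul_le_mul h4 (s.Q_le k y) (norm_nonneg _) (by positivity)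
    linarith
  refine ⟨(LinearMap.mk₂ ℂ w (fun a b y => ?_) (fun c a y => ?_) (fun a y z => ?_)
    fun c a y => ?_).mkContinuous₂ _ h2, hw, h2⟩ <;>
    refine s.ext_d fun γ => ContinuousLinearMap.ext fun x => ?_
  · simp only [map_add, add_apply, h1, mul_add]
  · simp only [map_smul, smul_apply, h1, mul_smul_comm]
  · simp only [map_add, add_apply, h1, add_sub_add_comm]
  · simp only [map_smul, smul_apply, h1, ← smul_sub]

/-- The action of the algebra on the tails of the space. -/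
structure Act (X : Ex B) (s : BD σ Y) where
  α : ℕ → B →L[ℂ] Y →L[ℂ] Y
  rel : ∀ k a y, s.Rel (preR (X.E k a)) (α k a y) (y - s.P k y)
  le : ∀ k a y, ‖α k a y‖ ≤ 18 * X.K * ‖a‖ * ‖y‖

namespace Act

variable {s : BD σ Y} (A : Act X s)

theorem d_eq (k : ℕ) (a : B) (y : Y) (γ : ℕ) :
    s.d γ (A.α k a y) = if k ≤ γ then preR (X.E k a) (s.d γ y) else 0 := by
  rw [A.rel k a y γ, s.d_Q]
  split_ifs
  · rfl
  · exact map_zero _

theorem up {k m : ℕ} (h : k ≤ m) (a : B) (y : Y) :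
    A.α m (X.E k a) y = A.α k a (y - s.P m y) := s.ext_d fun γ => by
  rw [d_eq, d_eq, s.d_Q, X.nest k m a h]
  by_cases c : m ≤ γ
  · rw [if_pos c, if_pos c, if_pos (h.trans c)]
  · rw [if_neg c, if_neg c, map_zero, ite_self]

theorem E_eq (k : ℕ) (a : B) (y : Y) : A.α k (X.E k a) y = A.α k a y := s.ext_d fun γ => by
  rw [d_eq, d_eq, X.nest k k a le_rfl]

theorem mul (k : ℕ) (a b : B) (y : Y) :
    A.α k (X.E k a * X.E k b) y = A.α k a (A.α k b y) := s.ext_d fun γ => by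
  rw [d_eq, d_eq, d_eq, X.E_mul]
  split_ifs
  · exact ContinuousLinearMap.ext fun x => by simp only [preR_apply, mul_assoc]
  · rfl

theorem one (k : ℕ) (y : Y) : A.α k 1 y = y - s.P k y := s.ext_d fun γ => by
  rw [A.rel k 1 y γ, X.one]
  exact ContinuousLinearMap.ext fun x => by rw [preR_apply, mul_one]

theorem comm_P (k : ℕ) (a : B) (n : ℕ) (y : Y) : s.P n (A.α k a y) = A.α k a (s.P n y) :=
  s.ext_d fun γ => by
    rw [s.d_P, d_eq, d_eq, s.d_P]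
    split_ifs
    · rfl
    · rfl
    · rw [map_zero]
    · rfl

theorem sep (F : Fit X σ) (ξ : ℕ) {x y : Y} (hx : s.P (ξ + 1) x = 0) (hy : s.P (ξ + 1) y = 0)
    {δ η : ℝ} (hδ : 0 < δ) (hη : 0 < η) (h : ∀ a, δ ≤ ‖y - A.α ξ a x‖) :
    ∃ b : Cmb, bsum b ≤ 1 ∧ ‖s.bf ξ b x‖ ≤ η ∧
      (6 * X.K ^ 3)⁻¹ / 2 * δ ≤ (σ.ε (s.bf ξ b y)).re := by
  have := X.fin ξ
  have K0 := X.K0
  have κn : ‖((X.K⁻¹ : ℝ) : ℂ)‖ = X.K⁻¹ := by
    rw [Complex.norm_real, Real.norm_of_nonneg (by positivity)]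
  have κK : (X.K : ℂ) * ((X.K⁻¹ : ℝ) : ℂ) = 1 := by
    rw [← Complex.ofReal_mul, mul_inv_cancel₀ K0.ne', Complex.ofReal_one]
  obtain ⟨Z, hZ⟩ : ∃ Z : (X.E ξ).range →L[ℂ] Y, ∀ f, Z f = A.α ξ f x :=
    ⟨((A.α ξ).comp (X.E ξ).range.subtypeL).flip x, fun _ => rfl⟩
  obtain ⟨e, he⟩ : ∃ e : Om → Y →L[ℂ] (B →L[ℂ] ℂ),
    e = Sum.elim (fun _ => 0) fun ζ => s.f ζ (ξ + 1) := ⟨_, rfl⟩
  have hbf : ∀ b, s.bf ξ b = gf (fun q => (σ.θ ξ q.2).comp (e q.1)) b := fun b => by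
    rw [he]
    rfl
  have hG : ∀ (q : Om × ℕ) z, σ.ε.comp ((σ.θ ξ q.2).comp (e q.1)) z =
      ((X.K⁻¹ : ℝ) : ℂ) * (((X.K⁻¹ : ℝ) : ℂ) * e q.1 z (F.t q.2)) := fun q z => by
    rw [ContinuousLinearMap.comp_apply, ContinuousLinearMap.comp_apply, F.ε_eq, F.θ_eq, X.one,
      mul_one]
  obtain ⟨b, b1, b2, b3⟩ := sep_gen (fun q => σ.ε.comp ((σ.θ ξ q.2).comp (e q.1))) Z y
    (κ := (6 * X.K ^ 3)⁻¹) (ε := η / X.K ^ 2) (by positivity) hδ (by positivity)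
    (fun f β u hu hw => by
      rw [inv_mul_le_iff₀ (by positivity), mul_assoc]
      refine s.cut_norming (n := ξ + 1) (by
        rw [map_add, map_smul, hy, hZ, A.comm_P, hx, map_zero, smul_zero, add_zero])
        (by positivity) fun ζ _ => (F.test _ (X.K ^ 2 * u) (by positivity) fun r => ?_).trans_eq
          (by ring)
      have h1 := hw (Sum.inr ζ, r)
      rw [hG, norm_mul, norm_mul, κn, he] at h1
      refine le_trans (le_of_eq ?_) (mul_le_mul_of_nonneg_left h1 (by positivity))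
      simp only [Sum.elim_inr]
      field_simp) fun f => hZ f ▸ h f
  refine ⟨b, b1, ContinuousLinearMap.opNorm_le_bound _ hη.le fun z => ?_, ?_⟩
  · have e1 : s.bf ξ b x z = (X.K : ℂ) * gf (fun q => σ.ε.comp ((σ.θ ξ q.2).comp (e q.1))) b
        (Z ⟨X.E ξ z, z, rfl⟩) := by
      rw [hbf]
      refine (gf_map (evl z) _ b x).trans (gf_congr b fun q => ?_)
      rw [hG, ← mul_assoc, κK, one_mul, hZ]
      refine (F.θ_eq ξ q.2 (e q.1 x) z).trans (congrArg _ ?_)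
      rw [he]
      rcases q with ⟨i | ζ, r⟩
      · rfl
      · have h1 := BD.rel_f (F.comm ξ z) (A.rel ξ z x) ζ (Nat.le_succ ξ)
        rw [s.P_zero_of_le (Nat.le_succ ξ) hx, sub_zero] at h1
        change s.f ζ (ξ + 1) x _ = s.f ζ (ξ + 1) (A.α ξ (X.E ξ z) x) _
        rw [A.E_eq, h1, preR_apply]
    have e2 := (ContinuousLinearMap.le_of_opNorm_le _ b2 ⟨X.E ξ z, z, rfl⟩).trans
      (mul_le_mul_of_nonneg_left (X.E_le ξ z) (by positivity))
    rw [e1, norm_mul, Complex.norm_real, Real.norm_of_nonneg K0.le]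
    refine (mul_le_mul_of_nonneg_left e2 K0.le).trans (le_of_eq ?_)
    field_simp
  · rw [hbf, gf_map]
    exact b3

theorem free (F : Fit X σ) (m : ℕ) : ∃ y : ℕ → Y, QRIS s (2 * X.K) y ∧
    ∀ k a, ‖X.E m a‖ ≤ 2 * X.K * ‖A.α m a (y k)‖ := by
  have := X.fin m
  have K0 := X.K0
  obtain ⟨L, φ, φ1, φ2⟩ := exists_fin_norming (X.E m).range
  obtain ⟨g, g1, g2, -, g4⟩ := exists_roots s.t (a := 0) rfl
  have inj : ∀ k, Function.Injective fun i : Fin L => g (k + m + i) := fun k i j h =>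
    Fin.ext (Nat.add_left_cancel (g1.injective h))
  have hv : ∀ k γ, ‖Function.extend (fun i : Fin L => g (k + m + i)) φ 0 γ‖ ≤ 1 := fun k γ => by
    by_cases c : ∃ i : Fin L, g (k + m + i) = γ
    · obtain ⟨i, rfl⟩ := c
      rw [(inj k).extend_apply]
      exact φ1 i
    · rw [Function.extend_apply' _ _ _ c]
      simp
  choose y y1 y2 y3 using fun k => s.multi (g (k + m + L))
    (fun γ => pre (X.E γ) (Function.extend (fun i : Fin L => g (k + m + i)) φ 0 γ)) X.K K0.le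
    (fun γ => ContinuousLinearMap.opNorm_le_bound _ K0.le fun x =>
      (ContinuousLinearMap.le_of_opNorm_le _ (hv k γ) _).trans ((one_mul _).trans_le (X.E_le γ x)))
    fun γ => (F.Λ_iff _ _).2 (X.lev_pre γ _)
  have y4 : ∀ k γ, γ < g (k + m + L) → (γ < k ∨ s.t.w γ < k) → s.e γ (y k) = 0 :=
    fun k γ h1 h2 => by
      rw [y3 k γ h1, Function.extend_apply' _ _ _ ?_, Pi.zero_apply, map_zero]
      rintro ⟨i, rfl⟩
      have h3 : k + m + i ≤ g (k + m + i) := g1.le_apply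
      have h4 := g4 (k + m + i)
      omega
  refine ⟨y, ⟨fun k => ⟨_, y1 k⟩, fun n => (eventually_ge_atTop n).mono fun k hk =>
    s.P_zero _ _ fun γ hγ => y4 k γ ?_ (Or.inl (hγ.trans_le hk)), y2, fun h =>
      (eventually_gt_atTop h).mono fun k hk γ hγ => ?_⟩, fun k a => ?_⟩
  · have h3 : k + m + L ≤ g (k + m + L) := g1.le_apply
    omega
  · refine (s.loc (y1 k) γ fun ξ h1 h2 => y4 k ξ h1 (Or.inr (by omega))).trans ?_
    rw [hγ]
    exact mul_le_mul_of_nonneg_right (y2 k) (dl_pos h).le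
  · rw [mul_assoc]
    refine φ2 _ ⟨a, rfl⟩ _ (by positivity) fun i => ?_
    have h1 : m ≤ g (k + m + i) := le_trans (by omega) g1.le_apply
    have h2 := A.d_eq m a (y k) (g (k + m + i))
    rw [if_pos h1, s.d_apply, s.d_apply, s.rec_root _ _ (g2 _), s.rec_root _ _ (g2 _), sub_zero,
      sub_zero, y3 k _ (g1 (Nat.add_lt_add_left i.2 _)), (inj k).extend_apply] at h2
    have h3 := (s.e (g (k + m + i)) (A.α m a (y k))).le_opNorm_of_le X.norm_one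
    have h4 : s.e (g (k + m + i)) (A.α m a (y k)) 1 = φ i (X.E m a) := by
      rw [h2, preR_apply, one_mul]
      exact congrArg (φ i) (X.nest _ _ a h1)
    rw [h4, mul_comm] at h3
    exact h3.trans (mul_le_mul_of_nonneg_left (s.e_le _ _) K0.le)

end Act

end Pool.Agent.Lib.MP_2a83f9_an.H.J
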