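import Mathlib
import Pool.Agent.Lib.MP_2a83f9_an.J.Basic

set_option autoImplicit false

open Filter Topology

noncomputable section

namespace Pool.Agent.Lib.MP_2a83f9_an.H.J

universe u v w

variable {E : Type w} [NormedAddCommGroup E] [NormedSpace ℂ E] {σ : Val E}
  {Y : Type u} [NormedAddCommGroup Y] [NormedSpace ℂ Y]

theorem chain_aux (s : BD σ Y) {D J₀ : Finset ℕ} {x : ℕ → Y} {C : ℝ} (hx : BFam s D J₀ x C)
    (hC : 0 ≤ C) {c : ℕ → ℝ} (hc : ∀ p, 0 ≤ c p) (γ : ℕ) {𝓗 : Fam} (h0 : ∅ ∈ 𝓗) {μ : ℝ}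
    (hμ : 0 ≤ μ)
    (hin : ∀ ζ ∈ s.t.D γ, ∀ ξ, s.t.par ζ = some ξ → ∀ J ⊆ J₀,
      Est D x c C (s.bf ξ (s.t.b ζ)) 𝓗 μ J) :
    ∀ J ⊆ J₀, (∀ p ∈ J, ¬ Hit D (s.t.D γ) p) →
      Est D x c C (s.e γ) {G | Cov 𝓗 (s.t.D γ) G} (dl (s.t.w γ) * μ) J := by
  classical
  induction γ using s.t.ind with
  | h0 γ hγ =>
    intro J hJ hn
    refine ⟨∅, fun _ _ _ => ⟨∅, h0, fun g hg => absurd hg (by simp)⟩, ?_⟩
    have h1 : ∀ p ∈ J, ‖s.e γ (x p)‖ ≤ 0 := by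
      intro p hp
      rcases not_hit (hn p hp) (s.t.self_mem γ) with h | ⟨q, hq, hqp, hγq⟩
      · have h2 := s.rec_root γ (x p) hγ
        rw [s.P_of_le (by omega) (hx.high p (hJ hp))] at h2
        rw [h2, norm_zero]
      · rw [s.e_zero (by omega) (hx.low p (hJ hp) q hq hqp), norm_zero]
    have h2 := norm_map_cmb_le (s.e γ) hc J x h1
    have h3 : 0 ≤ mass D ∅ c J := mass_nonneg hc
    have h4 : 0 ≤ ∑ p ∈ J, c p := Finset.sum_nonneg fun p _ => hc p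
    have h5 := dl_pos (s.t.w γ)
    have h6 : 0 ≤ C * (dl (s.t.w γ) * μ) * ∑ p ∈ J, c p := by positivity
    nlinarith
  | h1 γ ξ hγ ih =>
    intro J hJ hn
    have hlt := s.t.par_lt γ ξ hγ
    have hξ : ξ ∈ s.t.D γ := s.t.par_mem (s.t.self_mem γ) hγ
    have hsub : s.t.D ξ ⊆ s.t.D γ := s.t.D_subset hξ
    set J₁ := J.filter (fun p => p < ξ) with hJ₁
    set J₂ := J.filter (fun p => ¬ p < ξ ∧ p < γ) with hJ₂
    have hs₁ : J₁ ⊆ J := Finset.filter_subset _ _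
    have hs₂ : J₂ ⊆ J := Finset.filter_subset _ _
    have hd : Disjoint J₁ J₂ := by
      rw [Finset.disjoint_left]
      intro p h1 h2
      exact (Finset.mem_filter.1 h2).2.1 (Finset.mem_filter.1 h1).2
    obtain ⟨H₁, hH₁, he₁⟩ := ih (fun ζ hζ => hin ζ (hsub hζ)) J₁ (hs₁.trans hJ)
      (fun p hp hh => hn p (hs₁ hp) (hit_mono_right hsub hh))
    obtain ⟨H₂, hH₂, he₂⟩ := hin γ (s.t.self_mem γ) ξ hγ J₂ (hs₂.trans hJ)
    have hwit : ∀ p ∈ J, ¬ p < ξ → ∃ q ∈ D, q < p ∧ ξ ≤ q := fun p hp h =>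
      (not_hit (hn p hp) hξ).resolve_left h
    have heq : s.e γ (cmb c J x) = s.e ξ (cmb c J₁ x) +
        (dl (s.t.w γ) : ℂ) • s.bf ξ (s.t.b γ) (cmb c J₂ x) := by
      rw [map_cmb, map_cmb, map_cmb, Finset.smul_sum, hJ₁, hJ₂, Finset.sum_filter,
        Finset.sum_filter, ← Finset.sum_add_distrib]
      apply Finset.sum_congr rfl
      intro p hp
      by_cases h1 : p < ξ
      · rw [if_pos h1, if_neg (by tauto), add_zero,
          s.e_step hγ (s.P_of_le (by omega) (hx.high p (hJ hp)))]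
      · rw [if_neg h1, zero_add]
        by_cases h2 : p < γ
        · rw [if_pos ⟨h1, h2⟩]
          obtain ⟨q, hq, hqp, hξq⟩ := hwit p hp h1
          have h3 : s.P (ξ + 1) (x p) = 0 :=
            s.P_zero_of_le (by omega) (hx.low p (hJ hp) q hq hqp)
          have h4 := s.rec_child' hγ (x p)
          rw [s.P_of_le (by omega) (hx.high p (hJ hp)),
            s.e_zero (Nat.lt_succ_self ξ) h3, zero_add] at h4
          rw [h4, smul_comm]
        · rw [if_neg (by tauto)]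
          obtain ⟨q, hq, hqp, hγq⟩ := (not_hit (hn p hp) (s.t.self_mem γ)).resolve_left h2
          rw [s.e_zero (by omega) (hx.low p (hJ hp) q hq hqp), smul_zero]
    refine ⟨H₁.filter (fun g => g < ξ) ∪ H₂.filter (fun g => ξ < g), ?_, ?_⟩
    · intro u t hut
      rcases lt_or_ge t ξ with h1 | h1
      · obtain ⟨H', hH', hcov⟩ := hH₁ u t fun d hd => hut d (hsub hd)
        refine ⟨H', hH', fun g hg hug hgt => ?_⟩
        rcases Finset.mem_union.1 hg with h2 | h2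
        · exact hcov g (Finset.mem_filter.1 h2).1 hug hgt
        · have := (Finset.mem_filter.1 h2).2
          omega
      · have h2 : ξ ≤ u := by
          by_contra h3
          exact hut ξ hξ ⟨by omega, h1⟩
        refine ⟨H₂, hH₂, fun g hg hug _ => ?_⟩
        rcases Finset.mem_union.1 hg with h3 | h3
        · have := (Finset.mem_filter.1 h3).2
          omega
        · exact (Finset.mem_filter.1 h3).1
    · set H := H₁.filter (fun g => g < ξ) ∪ H₂.filter (fun g => ξ < g) with hH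
      have m₁ : mass D H₁ c J₁ ≤ mass D H c J₁ := by
        apply mass_mono hc le_rfl
        rintro p hp ⟨g, hg, h1, h2⟩
        have := (Finset.mem_filter.1 hp).2
        exact ⟨g, Finset.mem_union_left _ (Finset.mem_filter.2 ⟨hg, by omega⟩), h1, h2⟩
      have m₂ : mass D H₂ c J₂ ≤ mass D H c J₂ := by
        apply mass_mono hc le_rfl
        rintro p hp ⟨g, hg, h1, h2⟩
        obtain ⟨q, hq, hqp, hξq⟩ := hwit p (hs₂ hp) (Finset.mem_filter.1 hp).2.1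
        have := h2 q hq hqp
        exact ⟨g, Finset.mem_union_right _ (Finset.mem_filter.2 ⟨hg, by omega⟩), h1, h2⟩
      have m₃ := mass_two_le hc D H hd hs₁ hs₂
      have m₄ := sum_two_le hc hd hs₁ hs₂
      have hw := s.t.par_w γ ξ hγ
      rw [← hw] at he₁
      have d₀ := dl_pos (s.t.w γ)
      have d₁ := dl_le (s.t.w γ)
      have n₂ : 0 ≤ mass D H₂ c J₂ := mass_nonneg hc
      have e₂ : ‖(dl (s.t.w γ) : ℂ) • s.bf ξ (s.t.b γ) (cmb c J₂ x)‖ ≤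
          C * mass D H₂ c J₂ + C * (dl (s.t.w γ) * μ) * ∑ p ∈ J₂, c p := by
        rw [norm_smul, norm_dl]
        have h1 := mul_le_mul_of_nonneg_left he₂ d₀.le
        have h2 : dl (s.t.w γ) * (C * mass D H₂ c J₂) ≤ C * mass D H₂ c J₂ := by
          have : 0 ≤ C * mass D H₂ c J₂ := mul_nonneg hC n₂
          nlinarith
        nlinarith
      rw [heq]
      have h5 := norm_add_le (s.e ξ (cmb c J₁ x))
        ((dl (s.t.w γ) : ℂ) • s.bf ξ (s.t.b γ) (cmb c J₂ x))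
      have h6 : 0 ≤ C * (dl (s.t.w γ) * μ) := by positivity
      have h7 := mul_le_mul_of_nonneg_left m₄ h6
      have h8 := mul_le_mul_of_nonneg_left m₃ hC
      have h9 := mul_le_mul_of_nonneg_left m₁ hC
      have h10 := mul_le_mul_of_nonneg_left m₂ hC
      nlinarith

/-- The map `f` is dominated by the coordinate `γ`, away from one point of the chain of `γ`. -/
def Dom (s : BD σ Y) (D J₀ : Finset ℕ) (x : ℕ → Y) (c : ℕ → ℝ) (C : ℝ) (γ : ℕ)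
    (f : Y →L[ℂ] E) : Prop :=
  (∀ p ∈ J₀, ‖f (x p)‖ ≤ C) ∧ ∃ ζ ∈ s.t.D γ, ∀ J ⊆ J₀, (∀ p ∈ J, ¬ Hit D {ζ} p) →
    ∃ J' ⊆ J, ‖f (cmb c J x)‖ ≤ ‖s.e γ (cmb c J' x)‖

theorem dom_e {s : BD σ Y} {D J₀ : Finset ℕ} {x : ℕ → Y} {C : ℝ} (hx : BFam s D J₀ x C)
    (c : ℕ → ℝ) (γ : ℕ) : Dom s D J₀ x c C γ (s.e γ) :=
  ⟨fun p hp => (s.e_le _ _).trans (hx.norm p hp), γ, s.t.self_mem γ,
    fun J _ _ => ⟨J, le_rfl, le_rfl⟩⟩

theorem dom_f {s : BD σ Y} {D J₀ : Finset ℕ} {x : ℕ → Y} {C : ℝ} (hx : BFam s D J₀ x C)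
    (c : ℕ → ℝ) (γ n : ℕ) : Dom s D J₀ x c C γ (s.f γ n) := by
  refine ⟨fun p hp => (s.f_le _ _ _).trans (hx.norm p hp), ?_⟩
  rcases lt_or_ge γ n with h | h
  · exact ⟨γ, s.t.self_mem γ, fun J _ _ => ⟨J, le_rfl, by
      rw [s.f_lt h, norm_zero]
      exact norm_nonneg _⟩⟩
  refine ⟨_, cut_mem s.t h, fun J hJ hn =>
    ⟨J.filter (cut s.t γ n ≤ ·), Finset.filter_subset _ _, ?_⟩⟩
  have e : cmb c J x - s.P (cut s.t γ n) (cmb c J x) = cmb c (J.filter (cut s.t γ n ≤ ·)) x := by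
    rw [map_cmb, cmb, cmb, ← Finset.sum_sub_distrib, Finset.sum_filter]
    refine Finset.sum_congr rfl fun p hp => ?_
    rcases not_hit (hn p hp) (Finset.mem_singleton_self _) with h1 | ⟨q, hq, h1, h2⟩
    · rw [if_neg (by omega), s.P_of_le (by omega) (hx.high p (hJ hp)), sub_self]
    · rw [if_pos (by omega), s.P_zero_of_le (by omega) (hx.low p (hJ hp) q hq h1), smul_zero,
        sub_zero]
  rw [s.f_apply, e, norm_third]
  linarith [norm_nonneg (s.e γ (cmb c (J.filter (cut s.t γ n ≤ ·)) x))]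

theorem chain_est (s : BD σ Y) {D J₀ : Finset ℕ} {x : ℕ → Y} {C : ℝ} (hx : BFam s D J₀ x C)
    (hC : 0 ≤ C) {c : ℕ → ℝ} (hc : ∀ p, 0 ≤ c p) (γ : ℕ) {𝓗 : Fam} (h0 : ∅ ∈ 𝓗) {μ : ℝ}
    (hμ : 0 ≤ μ)
    (hin : ∀ ζ ∈ s.t.D γ, ∀ ξ, s.t.par ζ = some ξ → ∀ J ⊆ J₀,
      Est D x c C (s.bf ξ (s.t.b ζ)) 𝓗 μ J) {f : Y →L[ℂ] E} (hf : Dom s D J₀ x c C γ f) :
    ∀ J ⊆ J₀, Est D x c C f {G | Cov 𝓗 (s.t.D γ) G} (dl (s.t.w γ) * μ) J := by
  classical
  intro J hJ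
  set G := J.filter (Hit D (s.t.D γ)) with hG
  have hn : ∀ p ∈ J \ G, ¬ Hit D (s.t.D γ) p := fun p hp hh =>
    (Finset.mem_sdiff.1 hp).2 (Finset.mem_filter.2 ⟨(Finset.mem_sdiff.1 hp).1, hh⟩)
  obtain ⟨hf1, ζ, hζ, hf2⟩ := hf
  obtain ⟨J', hJ', hle⟩ := hf2 (J \ G) (Finset.sdiff_subset.trans hJ) fun p hp hh =>
    hn p hp (hit_mono_right (Finset.singleton_subset_iff.2 hζ) hh)
  obtain ⟨H, hH, he⟩ := chain_aux s hx hC hc γ h0 hμ hin J'
    (hJ'.trans (Finset.sdiff_subset.trans hJ)) fun p hp => hn p (hJ' hp)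
  refine ⟨s.t.D γ ∪ H, ?_, ?_⟩
  · intro u t hut
    obtain ⟨H', hH', hcov⟩ := hH u t hut
    refine ⟨H', hH', fun g hg hug hgt => ?_⟩
    rcases Finset.mem_union.1 hg with h | h
    · exact absurd ⟨hug, hgt⟩ (hut g h)
    · exact hcov g h hug hgt
  · apply est_split _ hC hc G
    · intro p _ hp
      exact hit_mono_right Finset.subset_union_left (Finset.mem_filter.1 hp).2
    · intro p hp
      exact hf1 p (hJ hp)
    · have m₁ : mass D H c J' ≤ mass D (s.t.D γ ∪ H) c (J \ G) :=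
        mass_mono hc hJ' fun p _ hh => hit_mono_right Finset.subset_union_right hh
      have m₂ : ∑ p ∈ J', c p ≤ ∑ p ∈ J, c p :=
        Finset.sum_le_sum_of_subset_of_nonneg (hJ'.trans Finset.sdiff_subset) fun p _ _ => hc p
      have d₀ := dl_pos (s.t.w γ)
      have h6 : 0 ≤ C * (dl (s.t.w γ) * μ) := by positivity
      have h7 := mul_le_mul_of_nonneg_left m₂ h6
      have h8 := mul_le_mul_of_nonneg_left m₁ hC
      linarith

/-- The estimate given by one exceptional index. -/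
theorem exc_est {s : BD σ Y} {D J₀ : Finset ℕ} {x : ℕ → Y} {C : ℝ} (hC : 0 ≤ C) {c : ℕ → ℝ}
    (hc : ∀ p, 0 ≤ c p) {γ : ℕ} {f : Y →L[ℂ] E} (hf : Dom s D J₀ x c C γ f) {μ : ℝ} (hμ : 0 ≤ μ)
    (h : ∃ k₀, ∀ p ∈ J₀, p ≠ k₀ → ‖s.e γ (x p)‖ ≤ C * μ) (j d : ℕ) :
    ∀ J ⊆ J₀, Est D x c C f (HH G2 j (d + 1)) μ J := by
  classical
  intro J hJ
  obtain ⟨k₀, hk⟩ := h
  obtain ⟨hf1, ζ, -, hf2⟩ := hf
  set G := J.filter (Hit D {k₀, ζ}) with hG
  have hn : ∀ p ∈ J \ G, ¬ Hit D {k₀, ζ} p := fun p hp hh =>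
    (Finset.mem_sdiff.1 hp).2 (Finset.mem_filter.2 ⟨(Finset.mem_sdiff.1 hp).1, hh⟩)
  obtain ⟨J', hJ', hle⟩ := hf2 (J \ G) (Finset.sdiff_subset.trans hJ) fun p hp hh =>
    hn p hp (hit_mono_right (by simp) hh)
  refine ⟨{k₀, ζ}, UU_subset_HH G2 j d (pair_mem_UU j k₀ ζ), est_split f hC hc G _
    (fun p _ hp => (Finset.mem_filter.1 hp).2) (fun p hp => hf1 p (hJ hp)) (hle.trans ?_)⟩
  have h1 := norm_map_cmb_le (s.e γ) hc J' x fun p hp =>
    hk p (hJ (Finset.sdiff_subset (hJ' hp))) fun e => hn p (hJ' hp) (hit_self D (by simp [e]))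
  have m₂ : ∑ p ∈ J', c p ≤ ∑ p ∈ J, c p :=
    Finset.sum_le_sum_of_subset_of_nonneg (hJ'.trans Finset.sdiff_subset) fun p _ _ => hc p
  have h2 := mul_le_mul_of_nonneg_left m₂ (mul_nonneg hC hμ)
  have h3 : 0 ≤ C * mass D {k₀, ζ} c (J \ G) := mul_nonneg hC (mass_nonneg hc)
  linarith

theorem cov_subset (s : BD σ Y) {γ j : ℕ} (h : s.t.w γ < j) (d : ℕ) :
    {G | Cov (HH G2 j d) (s.t.D γ) G} ⊆ HH G2 j (d + 1) := fun _ hG =>
  mem_HH_succ (adm_subset_UU h (s.t.D_adm γ)) hG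

theorem basic_ineq (s : BD σ Y) {D J₀ : Finset ℕ} {x : ℕ → Y} {C : ℝ} (hx : BFam s D J₀ x C)
    (hC : 0 ≤ C) {c : ℕ → ℝ} (hc : ∀ p, 0 ≤ c p) (j : ℕ) {β : ℝ} (hβ : 0 ≤ β)
    (hH : ∀ γ, j ≤ s.t.w γ → ∃ k₀, ∀ p ∈ J₀, p ≠ k₀ → ‖s.e γ (x p)‖ ≤ C * β) :
    ∀ (d γ : ℕ) (f : Y →L[ℂ] E), Dom s D J₀ x c C γ f → ∀ J ⊆ J₀,
      Est D x c C f (HH G2 j d) (β + (1 / 4 : ℝ) ^ d) J := by
  classical
  intro d
  induction d with
  | zero =>
    intro γ f hf J hJ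
    refine est_of_exc _ hC hc (empty_mem_HH G2 j 0) (fun p hp => hf.1 p (hJ hp)) (by positivity)
      fun p hp _ => ?_
    have := hf.1 p (hJ hp)
    rw [pow_zero]
    nlinarith
  | succ d ih =>
    intro γ f hf J hJ
    have hq : (0 : ℝ) ≤ (1 / 4) ^ (d + 1) := by positivity
    rcases le_or_gt j (s.t.w γ) with h | h
    · exact (exc_est hC hc hf hβ (hH γ h) j d J hJ).mono hC hc le_rfl (by linarith)
    · have h1 := chain_est s hx hC hc γ (empty_mem_HH G2 j d)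
        (μ := β + (1 / 4 : ℝ) ^ d) (by positivity)
        (fun ζ _ ξ hξ J' hJ' => by
          obtain ⟨η, hη⟩ := s.bf_max ξ (s.t.par_bsum ζ ξ hξ) (cmb c J' x)
          exact (ih η _ (dom_f hx c η _) J' hJ').of_le hη) hf J hJ
      refine h1.mono hC hc (cov_subset s h d) ?_
      have d₁ := dl_le (s.t.w γ)
      have d₂ := dl_pos (s.t.w γ)
      have hq' : (0 : ℝ) ≤ (1 / 4) ^ d := by positivity
      rw [pow_succ]
      nlinarith

theorem norm_cmb_le (s : BD σ Y) {D J : Finset ℕ} {x : ℕ → Y} {C : ℝ} (hx : BFam s D J x C)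
    (hC : 0 ≤ C) {c : ℕ → ℝ} {j : ℕ} (hc : SccW G2 j D c) {β : ℝ} (hβ : 0 ≤ β)
    (hH : ∀ γ, j ≤ s.t.w γ → ∃ k₀, ∀ p ∈ J, p ≠ k₀ → ‖s.e γ (x p)‖ ≤ C * β) :
    ‖cmb c J x‖ ≤ C * (β + 2 * dl (j + 1)) := by
  have d₀ := dl_pos (j + 1)
  apply s.norming _ _ (by positivity)
  intro γ
  have h1 := basic_ineq s hx hC hc.nonneg j hβ hH (dep j) γ _ (dom_e hx c γ) J le_rfl
  rw [dl_dep] at h1
  have h2 := h1.scc (by omega) hx.sub hC hc (by positivity)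
  linarith

/-- The estimates for special convex combinations of a rapidly increasing family. -/
theorem scc_est (s : BD σ Y) {D J : Finset ℕ} {x : ℕ → Y} {C : ℝ} (hx : BFam s D J x C)
    (hC : 0 ≤ C) {c : ℕ → ℝ} {j : ℕ} (hc : SccW G2 j D c)
    (hE : ∀ γ, ∃ k₀, ∀ p ∈ J, p ≠ k₀ → ‖s.e γ (x p)‖ ≤ C * dl (s.t.w γ)) :
    ‖cmb c J x‖ ≤ 4 * C * dl j ∧
    (∀ γ, s.t.w γ < j → ‖s.e γ (cmb c J x)‖ ≤ 4 * C * dl j * dl (s.t.w γ)) ∧
    (∀ γ, j < s.t.w γ → ‖s.e γ (cmb c J x)‖ ≤ 4 * C * dl j * dl j) ∧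
    (∀ γ, Odd (s.t.w γ) → s.t.w γ < j →
      (∀ ζ ∈ s.t.D γ, ∀ ξ, s.t.par ζ = some ξ → sg 0 ξ ≠ j) →
      ‖s.e γ (cmb c J x)‖ ≤ 4 * C * dl j * dl (s.t.w γ + 1)) := by
  have d₀ := dl_pos j
  have d₁ := dl_le j
  have d₂ := dl_succ j
  have hH : ∀ γ, j ≤ s.t.w γ → ∃ k₀, ∀ p ∈ J, p ≠ k₀ → ‖s.e γ (x p)‖ ≤ C * dl j := by
    intro γ hγ
    obtain ⟨k₀, hk⟩ := hE γ
    exact ⟨k₀, fun p hp hne =>
      (hk p hp hne).trans (mul_le_mul_of_nonneg_left (dl_anti hγ) hC)⟩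
  have hlow : ∀ γ, s.t.w γ < j → ∀ f, Dom s D J x c C γ f → ∀ J' ⊆ J,
      Est D x c C f (HH G2 j (dep j + 1)) (3 * dl j * dl (s.t.w γ)) J' := by
    intro γ hγ f hf J' hJ'
    have h1 := chain_est s hx hC hc.nonneg γ (empty_mem_HH G2 j (dep j))
      (μ := dl j + (1 / 4 : ℝ) ^ dep j) (by positivity)
      (fun ζ _ ξ hξ J'' hJ'' => by
        obtain ⟨η, hη⟩ := s.bf_max ξ (s.t.par_bsum ζ ξ hξ) (cmb c J'' x)
        exact (basic_ineq s hx hC hc.nonneg j d₀.le hH (dep j) η _ (dom_f hx c η _) J''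
          hJ'').of_le hη) hf J' hJ'
    refine h1.mono hC hc.nonneg (cov_subset s hγ _) ?_
    rw [dl_dep, d₂]
    have := dl_pos (s.t.w γ)
    have h2 : dl j * dl j ≤ dl j := by nlinarith
    nlinarith
  have hhigh : ∀ γ, j < s.t.w γ → ∀ f, Dom s D J x c C γ f → ∀ J' ⊆ J,
      Est D x c C f (HH G2 j (dep j + 1)) (dl j * dl j) J' := by
    intro γ hγ f hf
    refine exc_est hC hc.nonneg hf (by positivity) ((hE γ).imp fun k₀ hk p hp hne => ?_) j _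
    refine (hk p hp hne).trans (mul_le_mul_of_nonneg_left ?_ hC)
    rw [← d₂]
    exact dl_anti hγ
  refine ⟨?_, ?_, ?_, ?_⟩
  · have h1 := norm_cmb_le s hx hC hc d₀.le hH
    rw [d₂] at h1
    have h2 : dl j * dl j ≤ dl j := by nlinarith
    nlinarith
  · intro γ hγ
    have h0 := dl_pos (s.t.w γ)
    have h1 := (hlow γ hγ _ (dom_e hx c γ) J le_rfl).scc (by omega) hx.sub hC hc (by positivity)
    have h2 : dl j ≤ dl (s.t.w γ) := dl_anti hγ.le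
    rw [d₂] at h1
    have h3 : dl j * dl j ≤ dl j * dl (s.t.w γ) := mul_le_mul_of_nonneg_left h2 d₀.le
    nlinarith
  · intro γ hγ
    have h1 := (hhigh γ hγ _ (dom_e hx c γ) J le_rfl).scc (by omega) hx.sub hC hc (by positivity)
    rw [d₂] at h1
    have : 0 ≤ C * (dl j * dl j) := by positivity
    nlinarith
  · intro γ hodd hγ hne
    have h0 := dl_pos (s.t.w γ + 1)
    have h0' := dl_pos (s.t.w γ)
    have h0'' := dl_le (s.t.w γ)
    have h2 : dl j ≤ dl (s.t.w γ + 1) := dl_anti hγ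
    have h3 : dl j * dl j ≤ dl j * dl (s.t.w γ + 1) := mul_le_mul_of_nonneg_left h2 d₀.le
    have h1 := chain_est s hx hC hc.nonneg γ (empty_mem_HH G2 j (dep j + 1))
      (μ := 3 * dl j * dl (s.t.w γ + 1)) (by positivity)
      (fun ζ hζ ξ hξ J' hJ' => by
        have hw := s.t.w_of_mem hζ
        obtain ⟨η, hb, hη, hlt⟩ := s.t.par_odd ζ ξ hξ (hw ▸ hodd)
        rw [show cls (s.t.w ζ) = 0 from s.t.cls_w ζ] at hη hlt
        rw [hw] at hlt
        refine Est.of_le (f := s.f η (ξ + 1)) ?_ (by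
          rw [hb, s.bf_sing]
          exact σ.θ_le _ _ _)
        rcases lt_or_gt_of_ne (hne ζ hζ ξ hξ) with h | h
        · refine (hlow η (hη ▸ h) _ (dom_f hx c η _) J' hJ').mono hC hc.nonneg le_rfl ?_
          have h4 : dl (s.t.w η) ≤ dl (s.t.w γ + 1) := dl_anti (by omega)
          exact mul_le_mul_of_nonneg_left h4 (by positivity)
        · refine (hhigh η (hη ▸ h) _ (dom_f hx c η _) J' hJ').mono hC hc.nonneg le_rfl ?_
          have : 0 ≤ dl j * dl (s.t.w γ + 1) := by positivity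
          nlinarith) (dom_e hx c γ) J le_rfl
    have h4 := (h1.mono hC hc.nonneg (cov_subset s hγ _)
      (μ' := 3 * dl j * dl (s.t.w γ + 1)) (by
        have : 0 ≤ 3 * dl j * dl (s.t.w γ + 1) := by positivity
        nlinarith)).scc le_rfl hx.sub hC hc (by positivity)
    rw [d₂] at h4
    nlinarith

end Pool.Agent.Lib.MP_2a83f9_an.H.J
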