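import Mathlib

set_option autoImplicit false

open Matrix WithLp
open scoped Matrix.Norms.L2Operator

noncomputable section

namespace Pool.Agent.Lib.MP_2a83f9_an.H.J

universe u

variable {B : Type u} [CStarAlgebra B]

/-- A contractive module map onto one matrix block. -/
theorem block_exp {κ : Type} [Fintype κ] [DecidableEq κ] (θ : Matrix κ κ ℂ →ₗ[ℂ] B)
    (hm : ∀ a b, θ (a * b) = θ a * θ b) (hs : ∀ a, θ aᴴ = star (θ a)) :
    ∃ M : B →ₗ[ℂ] Matrix κ κ ℂ, (∀ x, ‖M x‖ ≤ ‖x‖) ∧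
      (∀ x y m, (∀ n, y * θ n = θ (m * n)) → M (x * y) = M x * m) ∧ θ (M 1) = θ 1 := by
  rcases isEmpty_or_nonempty κ with hκ | ⟨⟨o⟩⟩
  · exact ⟨0, fun x => by simp, fun _ _ _ _ => by simp, congrArg θ (Subsingleton.elim _ _)⟩
  obtain ⟨c, hc⟩ : ∃ c : (κ → ℂ) →ₗ[ℂ] B, ∀ ξ, c ξ = θ (vecMulVec ξ (Pi.single o 1)) :=
    ⟨θ.comp ((vecMulVecBilin ℂ ℂ).flip (Pi.single o 1)), fun _ => rfl⟩
  have s1 : ∀ a : κ, star (Pi.single a 1 : κ → ℂ) = Pi.single a 1 := fun a => by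
    rw [Pi.star_single, star_one]
  have h1 : ∀ η ξ, star (c η) * c ξ = (star η ⬝ᵥ ξ) • c (Pi.single o 1) := fun η ξ => by
    rw [hc, hc, hc, ← hs, ← hm, conjTranspose_vecMulVec, vecMulVec_mul_vecMulVec, vecMulVec_smul,
      map_smul, s1]
  have h2 : ∀ ξ, c ξ * c (Pi.single o 1) = c ξ := fun ξ => by
    rw [hc, hc, ← hm, vecMulVec_mul_vecMulVec]
    simp
  have h3 : ∀ a, c (Pi.single a 1) * star (c (Pi.single a 1)) = θ (single a a 1) := fun a => by
    rw [hc, ← hs, ← hm, conjTranspose_vecMulVec, vecMulVec_mul_vecMulVec, s1, s1,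
      single_eq_single_vecMulVec_single]
    simp
  have h0 := congrArg norm (h1 (Pi.single o 1) (Pi.single o 1))
  rw [CStarRing.norm_star_mul_self, s1, single_dotProduct, Pi.single_eq_same, mul_one,
    one_smul] at h0
  generalize c (Pi.single o 1) = e at h0 h1 h2
  have e0 : ‖e‖ ≤ 1 ∧ ∀ ξ, (‖e‖ : ℂ) • c ξ = c ξ := by
    rcases eq_or_ne e 0 with rfl | h
    · exact ⟨by simp, fun ξ => by rw [← h2, mul_zero, smul_zero]⟩
    · simp [mul_left_eq_self₀.1 h0 |>.resolve_right (norm_ne_zero_iff.2 h)]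
  obtain ⟨φ, φ1, φ2⟩ := exists_dual_vector'' ℂ e
  have h4 : ∀ ξ : EuclideanSpace ℂ κ, ‖c ξ.ofLp‖ ≤ ‖ξ‖ := fun ξ => by
    refine abs_le_of_sq_le_sq' ?_ (norm_nonneg _) |>.2
    rw [sq, ← CStarRing.norm_star_mul_self, h1, norm_smul, dotProduct_comm,
      ← EuclideanSpace.inner_eq_star_dotProduct, inner_self_eq_norm_sq_to_K]
    simpa using mul_le_of_le_one_right (sq_nonneg ‖ξ‖) e0.1
  let M : B →ₗ[ℂ] Matrix κ κ ℂ :=
    { toFun := fun x => Matrix.of fun a b => φ (star (c (Pi.single a 1)) * x * c (Pi.single b 1))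
      map_add' := fun x y => by ext; simp [mul_add, add_mul]
      map_smul' := fun t x => by ext; simp }
  have h5 : ∀ x η ξ, star η ⬝ᵥ (M x *ᵥ ξ) = φ (star (c η) * x * c ξ) := fun x η ξ => by
    conv_rhs => rw [pi_eq_sum_univ' η, pi_eq_sum_univ' ξ]
    simp [M, dotProduct, mulVec, star_sum, Finset.sum_mul, Finset.mul_sum, mul_comm, mul_left_comm]
    exact Finset.sum_comm
  refine ⟨M, fun x => ?_, fun x y m h => ?_, ?_⟩
  · rw [cstar_norm_def]
    refine ContinuousLinearMap.opNorm_le_bound _ (norm_nonneg x) fun ξ => ?_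
    have h6 := h5 x (toEuclideanCLM (n := κ) (𝕜 := ℂ) (M x) ξ).ofLp ξ.ofLp
    rw [← ofLp_toEuclideanCLM, dotProduct_comm, ← EuclideanSpace.inner_eq_star_dotProduct,
      inner_self_eq_norm_sq_to_K] at h6
    generalize toEuclideanCLM (n := κ) (𝕜 := ℂ) (M x) ξ = η at h6 ⊢
    have h7 : ‖η‖ * ‖η‖ ≤ ‖η‖ * (‖x‖ * ‖ξ‖) := by
      have h8 := (φ.le_of_opNorm_le φ1 _).trans_eq' (congrArg norm h6).symm
      rw [one_mul, norm_pow, RCLike.norm_ofReal, abs_norm, sq] at h8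
      refine h8.trans ((norm_mul₃_le).trans ?_)
      rw [norm_star, mul_assoc]
      gcongr <;> exact h4 _
    rcases (norm_nonneg η).eq_or_lt with h | h
    · rw [← h]
      positivity
    · exact le_of_mul_le_mul_left h7 h
  · ext a b
    have := h5 x (Pi.single a 1) (m *ᵥ Pi.single b 1)
    rw [s1, mulVec_mulVec, hc (m *ᵥ _), ← mul_vecMulVec, ← h, ← hc] at this
    change φ _ = _
    rw [mul_assoc, mul_assoc, ← mul_assoc, ← this]
    simp
  · have h6 : M 1 = (‖e‖ : ℂ) • 1 := by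
      ext a b
      change φ _ = _
      rw [mul_one, h1, map_smul, φ2, s1]
      simp [one_apply, Pi.single_apply, eq_comm]
    rw [h6, map_smul, ← sum_single_one, map_sum, Finset.smul_sum]
    exact Finset.sum_congr rfl fun a _ => by rw [← h3, ← smul_mul_assoc, e0.2]

/-- A contractive module projection onto the range of a homomorphism from a sum of matrix
algebras. -/
theorem exists_exp {ι : Type} [Fintype ι] [DecidableEq ι] {κ : ι → Type} [∀ i, Fintype (κ i)]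
    [∀ i, DecidableEq (κ i)] (ρ : (∀ i, Matrix (κ i) (κ i) ℂ) →⋆ₐ[ℂ] B) :
    ∃ E : B →L[ℂ] B, (∀ x, ‖E x‖ ≤ ‖x‖) ∧ (∀ x, E x ∈ Set.range ρ) ∧
      (∀ x, ∀ y ∈ Set.range ρ, E (x * y) = E x * y) ∧ E 1 = 1 := by
  choose M M1 M2 M3 using fun i => block_exp
    (ρ.toAlgHom.toLinearMap.comp (LinearMap.single ℂ (fun i => Matrix (κ i) (κ i) ℂ) i))
    (fun a b => show ρ (Pi.single i (a * b)) = ρ (Pi.single i a) * ρ (Pi.single i b) by
      rw [Pi.single_mul, map_mul])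
    fun a => show ρ (Pi.single i (star a)) = star (ρ (Pi.single i a)) by
      rw [← Pi.star_single, map_star]
  have h : ∀ x, ‖ρ fun i => M i x‖ ≤ ‖x‖ := fun x =>
    (NonUnitalStarAlgHom.norm_apply_le ρ _).trans
      ((pi_norm_le_iff_of_nonneg (norm_nonneg x)).2 fun i => M1 i x)
  refine ⟨(ρ.toAlgHom.toLinearMap.comp (LinearMap.pi M)).mkContinuous 1
    fun x => (h x).trans_eq (one_mul _).symm, h, fun x => ⟨_, rfl⟩, ?_, ?_⟩
  · rintro x _ ⟨m, rfl⟩
    refine (congrArg ρ (funext fun i => M2 i x _ (m i) fun n => ?_)).trans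
      (map_mul ρ (fun i => M i x) m)
    exact (map_mul ρ _ _).symm.trans (congrArg ρ (Pi.single_mul_right (f := m) n).symm)
  · change ρ (fun i => M i 1) = 1
    rw [← map_one ρ, ← Finset.univ_sum_single (fun i => M i (ρ 1)), map_sum, map_one]
    conv_rhs => rw [← map_one ρ, ← Finset.univ_sum_single 1, map_sum]
    exact Finset.sum_congr rfl fun i _ => M3 i

end Pool.Agent.Lib.MP_2a83f9_an.H.J
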