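import Mathlib
import Pool.Agent.Lib.MP_2a83f9_an.J.BI

set_option autoImplicit false

open Filter Topology

noncomputable section

namespace Pool.Agent.Lib.MP_2a83f9_an.H.J

universe u v w

variable {E : Type w} [NormedAddCommGroup E] [NormedSpace ℂ E] {σ : Val E}
  {Y : Type u} [NormedAddCommGroup Y] [NormedSpace ℂ Y] {s : BD σ Y}

theorem QRIS.nonneg {C : ℝ} {x : ℕ → Y} (hx : QRIS s C x) : 0 ≤ C :=
  (norm_nonneg _).trans (hx.bdd 0)

theorem QRIS.comp {C : ℝ} {x : ℕ → Y} (hx : QRIS s C x) {φ : ℕ → ℕ}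
    (hφ : Tendsto φ atTop atTop) : QRIS s C (x ∘ φ) :=
  ⟨fun k => hx.fin (φ k), fun n => hφ.eventually (hx.far n), fun k => hx.bdd (φ k),
    fun j => hφ.eventually (hx.est j)⟩

theorem QRIS.mono {C C' : ℝ} {x : ℕ → Y} (hx : QRIS s C x) (h : C ≤ C') : QRIS s C' x :=
  ⟨hx.fin, hx.far, fun k => (hx.bdd k).trans h, fun j => (hx.est j).mono fun _ hk γ hγ =>
    (hk γ hγ).trans (mul_le_mul_of_nonneg_right h (dl_pos j).le)⟩

theorem QRIS.add {C C' : ℝ} {x y : ℕ → Y} (hx : QRIS s C x) (hy : QRIS s C' y) :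
    QRIS s (C + C') (fun k => x k + y k) := by
  refine ⟨fun k => ?_, fun n => ?_, fun k => norm_add_le_of_le (hx.bdd k) (hy.bdd k), fun h => ?_⟩
  · obtain ⟨n, hn⟩ := hx.fin k
    obtain ⟨m, hm⟩ := hy.fin k
    exact ⟨max n m, by
      rw [map_add, s.P_of_le (le_max_left _ _) hn, s.P_of_le (le_max_right _ _) hm]⟩
  · filter_upwards [hx.far n, hy.far n] with k h1 h2
    rw [map_add, h1, h2, add_zero]
  · filter_upwards [hx.est h, hy.est h] with k h1 h2 γ hγ
    rw [map_add, add_mul]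
    exact norm_add_le_of_le (h1 γ hγ) (h2 γ hγ)

theorem QRIS.exists_sub {C : ℝ} {x : ℕ → Y} (hx : QRIS s C x) :
    ∃ φ : ℕ → ℕ, StrictMono φ ∧ SRIS s C (x ∘ φ) := by
  classical
  choose n hn using hx.fin
  have key : ∀ m, ∃ k, m < k ∧ ∀ k' ≤ m, ∀ ξ < n k', ∀ γ, s.t.w γ = s.t.w ξ →
      ‖s.e γ (x k)‖ ≤ C * dl (s.t.w ξ) := fun m =>
    ((eventually_gt_atTop m).and ((eventually_all_finite (Set.finite_le_nat m)).2 fun k' _ =>
      (eventually_all_finite (Set.finite_lt_nat (n k'))).2 fun ξ _ => hx.est _)).exists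
  choose N hN1 hN2 using key
  have hφ : StrictMono fun i => N^[i] 0 := strictMono_nat_of_lt_succ fun i => by
    rw [Function.iterate_succ_apply']
    exact hN1 _
  refine ⟨fun i => N^[i] 0, hφ, fun k => ⟨_, hn _⟩,
    fun m => hφ.tendsto_atTop.eventually (hx.far m), fun k => hx.bdd _, fun γ => ?_⟩
  have d0 := (dl_pos (s.t.w γ)).le
  have loc : ∀ k, (¬ ∃ ξ < n k, s.t.w γ = s.t.w ξ) → ‖s.e γ (x k)‖ ≤ C * dl (s.t.w γ) :=
    fun k h => (s.loc (hn k) γ fun ξ h1 h2 => absurd ⟨ξ, h1, h2.symm⟩ h).trans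
      (mul_le_mul_of_nonneg_right (hx.bdd k) d0)
  by_cases h : ∃ i, ∃ ξ < n (N^[i] 0), s.t.w γ = s.t.w ξ
  · refine ⟨Nat.find h, fun i hi => ?_⟩
    rcases lt_or_gt_of_ne hi with c | c
    · exact loc _ (Nat.find_min h c)
    · obtain ⟨ξ, h1, h2⟩ := Nat.find_spec h
      obtain ⟨i, rfl⟩ := Nat.exists_eq_add_one_of_ne_zero (Nat.ne_zero_of_lt c)
      have := hN2 _ _ (hφ.monotone (Nat.le_of_lt_succ c)) ξ h1 γ h2
      rwa [← h2, ← Function.iterate_succ_apply' N] at this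
  · exact ⟨0, fun i _ => loc _ fun c => h ⟨i, c⟩⟩

theorem SRIS.weak_null {C : ℝ} {x : ℕ → Y}
    (hx : SRIS s C x) (f : Y →L[ℂ] ℂ) : Tendsto (fun k => f (x k)) atTop (𝓝 0) := by
  classical
  have C0 : 0 ≤ C := (norm_nonneg _).trans (hx.bdd 0)
  by_contra hcon
  rw [NormedAddGroup.tendsto_nhds_zero] at hcon
  push Not at hcon
  obtain ⟨ε, ε0, hε⟩ := hcon
  have main : ∀ j, ε ≤ ‖f‖ * (C * (4 * dl j)) := fun j => by
    have key : ∀ m, ∃ (k T : ℕ) (u : ℂ), m < T ∧ ‖u‖ = 1 ∧ s.P (m + 1) (x k) = 0 ∧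
        s.P (T + 1) (x k) = x k ∧ ε ≤ (f (u • x k)).re ∧ j + 1 ≤ k := fun m => by
      obtain ⟨k, h1, h2, h0⟩ := (hε.and_eventually ((hx.far (m + 1)).and
        (eventually_ge_atTop (j + 1)))).exists
      obtain ⟨n, hn⟩ := hx.fin k
      obtain ⟨u, h3, h4⟩ := Complex.exists_norm_eq_mul_self (f (x k))
      exact ⟨k, m + 1 + n, u, by omega, h3, h2, s.P_of_le (by omega) hn, by
        rw [map_smul, smul_eq_mul, ← h4]; exact h1, h0⟩
    choose k T u h1 h2 h3 h4 h5 h0 using key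
    set t : ℕ → ℕ := fun i => T^[i] 0 with ht
    have ts : ∀ i, t (i + 1) = T (t i) := fun i => Function.iterate_succ_apply' _ _ _
    have hm : StrictMono t := strictMono_nat_of_lt_succ fun i => ts i ▸ h1 _
    set lo : ℕ → ℕ := fun p => t (Function.invFun t p - 1) with hlo
    have lo1 : ∀ i, lo (t (i + 1)) = t i := fun i => by
      simp only [hlo, Function.leftInverse_invFun hm.injective (i + 1), Nat.add_sub_cancel]
    obtain ⟨N, ⟨c, hc⟩, -⟩ := exists_first_good null_G2 j t hm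
    set D := (Finset.range (N + 1)).image t with hD
    have hJ : ∀ p ∈ D.erase (t 0), ∃ i, p = t (i + 1) := fun p hp => by
      obtain ⟨i, -, rfl⟩ := Finset.mem_image.1 (Finset.mem_of_mem_erase hp)
      rcases i with _ | i
      · exact absurd rfl (Finset.ne_of_mem_erase hp)
      · exact ⟨i, rfl⟩
    have nn : ∀ (m : ℕ) (g : Y →L[ℂ] E), ‖g (u m • x (k m))‖ = ‖g (x (k m))‖ := fun m g => by
      rw [map_smul, norm_smul, h2, one_mul]
    have inj : ∀ i i', i < i' → k (t i) ≠ k (t i') := fun i i' h e => by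
      have := s.P_zero_of_le (Nat.succ_le_succ (ts i ▸ hm.monotone h)) (h3 (t i'))
      rw [← e, h4] at this
      have h6 := h5 (t i)
      rw [this, smul_zero, map_zero] at h6
      exact absurd h6 (not_le.2 ε0)
    have h7 := norm_cmb_le s (D := D) (J := D.erase (t 0)) (C := C)
      (x := fun p => u (lo p) • x (k (lo p))) ⟨Finset.erase_subset _ _, fun p hp q hq h => ?_,
        fun p hp => ?_, fun p _ => ?_⟩ C0 hc (dl_pos j).le fun γ hγ => ?_
    · have h8 : ∑ p ∈ D.erase (t 0), c p = 1 := by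
        rw [Finset.sum_erase _ ?_, hc.sum_one]
        by_contra h
        obtain ⟨-, q, hq, h⟩ := hc.supp _ h
        obtain ⟨i, -, rfl⟩ := Finset.mem_image.1 hq
        exact absurd (hm.lt_iff_lt.1 h) (Nat.not_lt_zero _)
      have h9 : ε ≤ (f (cmb c (D.erase (t 0)) fun p => u (lo p) • x (k (lo p)))).re := by
        rw [cmb, map_sum, Complex.re_sum, ← one_mul ε, ← h8, Finset.sum_mul]
        refine Finset.sum_le_sum fun p _ => ?_
        rw [map_smul, smul_eq_mul, Complex.re_ofReal_mul]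
        exact mul_le_mul_of_nonneg_left (h5 _) (hc.nonneg p)
      refine h9.trans ((Complex.re_le_norm _).trans (f.le_of_opNorm_le_of_le le_rfl (h7.trans ?_)))
      exact mul_le_mul_of_nonneg_left (by linarith [dl_anti (Nat.le_succ j), dl_pos j]) C0
    · obtain ⟨i, rfl⟩ := hJ p hp
      obtain ⟨i', -, rfl⟩ := Finset.mem_image.1 hq
      rw [lo1, map_smul, s.P_zero_of_le (Nat.succ_le_succ
        (hm.monotone (Nat.le_of_lt_succ (hm.lt_iff_lt.1 h)))) (h3 _), smul_zero]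
    · obtain ⟨i, rfl⟩ := hJ p hp
      rw [lo1, map_smul, ts, h4]
    · rw [norm_smul, h2, one_mul]
      exact hx.bdd _
    · obtain ⟨k₀, hk⟩ := hx.exc γ
      have bd : ∀ m, k m ≠ k₀ → ‖s.e γ (u m • x (k m))‖ ≤ C * dl j := fun m h =>
        (nn m _).trans_le ((hk _ h).trans (mul_le_mul_of_nonneg_left (dl_anti hγ) C0))
      by_cases h : ∃ i, k (t i) = k₀
      · obtain ⟨i₀, h⟩ := h
        refine ⟨t (i₀ + 1), fun p hp hne => ?_⟩
        obtain ⟨i, rfl⟩ := hJ p hp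
        rw [lo1]
        refine bd _ (h ▸ ?_)
        rcases lt_trichotomy i i₀ with c | rfl | c
        exacts [inj _ _ c, absurd rfl hne, (inj _ _ c).symm]
      · exact ⟨0, fun p _ _ => bd _ fun c => h ⟨_, c⟩⟩
  have := ge_of_tendsto' (((dl_tendsto.const_mul 4).const_mul C).const_mul ‖f‖) main
  simp only [mul_zero] at this
  exact absurd this (not_le.2 ε0)

theorem QRIS.weak_null {C : ℝ} {x : ℕ → Y} (hx : QRIS s C x) (f : Y →L[ℂ] ℂ) :
    Tendsto (fun k => f (x k)) atTop (𝓝 0) :=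
  tendsto_of_subseq_tendsto fun _ hns =>
    let ⟨φ, _, h⟩ := (hx.comp hns).exists_sub
    ⟨φ, h.weak_null f⟩

theorem QRIS.compact_null {C : ℝ} {x : ℕ → Y} (hx : QRIS s C x)
    {W : Type v} [NormedAddCommGroup W] [NormedSpace ℂ W] (K : Y →L[ℂ] W)
    (hK : IsCompactOperator K) : Tendsto (fun k => K (x k)) atTop (𝓝 0) := by
  obtain ⟨A, hA, h⟩ := hK.image_closedBall_subset_compact (f := (K : Y →ₗ[ℂ] W)) C
  refine tendsto_of_subseq_tendsto fun ns hns => ?_
  obtain ⟨w, -, φ, hφ, hw⟩ := hA.tendsto_subseq (x := fun k => K (x (ns k)))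
    fun k => h ⟨_, mem_closedBall_zero_iff.2 (hx.bdd _), rfl⟩
  obtain rfl : w = 0 := SeparatingDual.eq_zero_of_forall_dual_eq_zero (R := ℂ) fun g =>
    tendsto_nhds_unique ((g.continuous.tendsto w).comp hw)
      ((hx.weak_null (g.comp K)).comp (hns.comp hφ.tendsto_atTop))
  exact ⟨φ, hw⟩

theorem ris_blk_null (s : BD σ Y) {W : Type v} [NormedAddCommGroup W] [NormedSpace ℂ W]
    (A : ℕ → Y →L[ℂ] W) (h : ∀ C x, QRIS s C x → Tendsto (fun k => A k (x k)) atTop (𝓝 0))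
    {x : ℕ → Y} (hx : Blk s x) : Tendsto (fun k => A k (x k)) atTop (𝓝 0) := by
  obtain ⟨C, hC⟩ := hx.bdd
  choose n hn using hx.fin
  obtain ⟨l, hl, hl'⟩ := ris_diag hx.far
  have C0 : 0 ≤ C := (norm_nonneg _).trans (hC 0)
  have key : ∀ k N, ∃ y : Y, s.P (l k) y = 0 ∧ s.P (n k) y = y ∧ ‖y‖ ≤ 2 * C ∧
      (∀ γ < n k, N < s.t.w γ → s.e γ y = 0) ∧ (s.P (l k) (x k) = 0 →
        ∀ γ < n k, s.t.w γ ≤ N → s.e γ y = s.e γ (x k)) := fun k N => by
    by_cases c : s.P (l k) (x k) = 0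
    · obtain ⟨y, a1, a2, a3, a4, a5⟩ := s.split (x k) (l k) (n k) {γ | s.t.w γ ≤ N} c
      exact ⟨y, a1, a2, a3.trans (mul_le_mul_of_nonneg_left (hC k) zero_le_two),
        fun γ b1 b2 => a5 γ b1 (not_le.2 b2), fun _ => a4⟩
    · exact ⟨0, map_zero _, map_zero _, by rw [norm_zero]; positivity, fun _ _ _ => map_zero _,
        fun c' => absurd c' c⟩
  choose y y1 y2 y3 y4 y5 using key
  have far : ∀ (N : ℕ → ℕ) m, ∀ᶠ k in atTop, s.P m (y k (N k)) = 0 := fun N m =>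
    (hl.eventually_ge_atTop m).mono fun k hk => s.P_zero_of_le hk (y1 _ _)
  have r1 : ∀ N, QRIS s (2 * C + 2 * C / dl N) fun k => y k N := fun N => by
    have d1 := dl_pos N
    refine ⟨fun k => ⟨_, y2 _ _⟩, far fun _ => N,
      fun k => (y3 _ _).trans (le_add_of_nonneg_right (by positivity)),
      fun j => Eventually.of_forall fun k γ hγ => ?_⟩
    have d0 := dl_pos j
    rw [add_mul]
    rcases le_or_gt j N with c | c
    · refine ((s.e_le _ _).trans (y3 _ _)).trans (le_add_of_nonneg_of_le (by positivity) ?_)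
      rw [div_mul_eq_mul_div, le_div_iff₀ d1]
      exact mul_le_mul_of_nonneg_left (dl_anti c) (by positivity)
    · refine (s.loc (y2 _ _) γ fun ξ a1 a2 => y4 _ _ _ a1 (by omega)).trans
        (le_add_of_le_of_nonneg ?_ (by positivity))
      rw [hγ]
      gcongr
      exact y3 _ _
  obtain ⟨N, hN, hN'⟩ := ris_diag (p := fun N k => ‖A k (y k N)‖ < 1 / ((N : ℝ) + 1)) fun N =>
    NormedAddGroup.tendsto_nhds_zero.1 (h _ _ (r1 N)) _ (by positivity)
  have t1 : Tendsto (fun k => A k (y k (N k))) atTop (𝓝 0) :=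
    squeeze_zero_norm' (hN'.mono fun _ h => h.le)
      (tendsto_one_div_add_atTop_nhds_zero_nat.comp hN)
  have fin : ∀ k, s.P (n k) (x k - y k (N k)) = x k - y k (N k) := fun k => by
    rw [map_sub, hn, y2]
  have bd : ∀ k, ‖x k - y k (N k)‖ ≤ C + 2 * C := fun k => norm_sub_le_of_le (hC k) (y3 _ _)
  have t2 := h _ (fun k => x k - y k (N k)) ⟨fun k => ⟨_, fin k⟩, fun m => by
    filter_upwards [hx.far m, far N m] with k a1 a2
    rw [map_sub, a1, a2, sub_zero], bd, fun j => by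
      filter_upwards [hl', hN.eventually_ge_atTop j] with k a1 a2 γ hγ
      refine (s.loc (fin k) γ fun ξ b1 b2 => ?_).trans ?_
      · rw [map_sub, y5 _ _ a1 ξ b1 (by omega), sub_self]
      · have d0 := dl_pos j
        rw [hγ]
        gcongr
        exact bd k⟩
  simpa using t1.add t2

/-- An operator that kills all rapidly increasing sequences is small on tails. -/
theorem tail_of_RIS (s : BD σ Y) {W : Type v} [NormedAddCommGroup W] [NormedSpace ℂ W]
    (A : Y →L[ℂ] W) (h : ∀ C x, QRIS s C x → Tendsto (fun k => A (x k)) atTop (𝓝 0)) :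
    Tendsto (fun k => ‖A.comp (1 - s.P k)‖) atTop (𝓝 0) := by
  have key : ∀ k : ℕ, ∃ (v : Y) (n : ℕ), s.P n v = v ∧ ‖v‖ ≤ 2 ∧
      ‖A.comp (1 - s.P k)‖ - 1 / ((k : ℝ) + 1) < ‖A (v - s.P k v)‖ := fun k => by
    obtain ⟨y, h1, h2⟩ := (A.comp (1 - s.P k)).exists_lt_apply_of_lt_opNorm
      (sub_lt_self _ (show 0 < 1 / ((k : ℝ) + 1) by positivity))
    obtain ⟨n, hn⟩ := ((((A.comp (1 - s.P k)).continuous.tendsto y).comp
      (s.P_tendsto y)).norm.eventually_const_lt h2).exists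
    exact ⟨s.P n y, n, s.P_P _ _, (s.P_le n y).trans (by linarith), hn⟩
  choose v n h1 h2 h3 using key
  have t := ris_blk_null s (fun _ => A) h (x := fun k => v k - s.P k (v k))
    ⟨fun k => ⟨max k (n k), by
      rw [map_sub, s.P_of_le (le_max_right _ _) (h1 k), s.P_comp, min_eq_right (le_max_left _ _)]⟩,
    fun m => (eventually_ge_atTop m).mono fun k hk => by
      rw [map_sub, s.P_comp, min_eq_left hk, sub_self], 3 * 2,
    fun k => (s.Q_le _ _).trans (mul_le_mul_of_nonneg_left (h2 k) (by norm_num))⟩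
  have t' := t.norm.add (tendsto_one_div_add_atTop_nhds_zero_nat (𝕜 := ℝ))
  rw [norm_zero, add_zero] at t'
  exact squeeze_zero (fun _ => norm_nonneg _) (fun k => by linarith [h3 k]) t'

end Pool.Agent.Lib.MP_2a83f9_an.H.J
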