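import Mathlib
import Pool.Agent.Lib.MP_2a83f9_an.J.Ris

set_option autoImplicit false

open Filter Topology

noncomputable section

namespace Pool.Agent.Lib.MP_2a83f9_an.H.J

universe u v w

variable {E : Type w} [NormedAddCommGroup E] [NormedSpace ℂ E] {σ : Val E}
  {Y : Type u} [NormedAddCommGroup Y] [NormedSpace ℂ Y]

theorem SRIS.exc_comp {s : BD σ Y} {C : ℝ} {x : ℕ → Y} (hx : SRIS s C x) {J : Finset ℕ}
    {κ : ℕ → ℕ} (hκ : Set.InjOn κ J) (γ : ℕ) :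
    ∃ k₀, ∀ p ∈ J, p ≠ k₀ → ‖s.e γ ((x ∘ κ) p)‖ ≤ C * dl (s.t.w γ) := by
  obtain ⟨k₁, hk₁⟩ := hx.exc γ
  obtain ⟨k₀, hk₀⟩ := exists_exc (J := J) (fun p => κ p = k₁)
    fun p hp q hq h1 h2 => hκ hp hq (h1.trans h2.symm)
  exact ⟨k₀, fun p hp hne => hk₁ _ (hk₀ p hp hne)⟩

/-- Exact pairs. -/
theorem exact_pair (s : BD σ Y)
    (S₁ S₂ : Y →L[ℂ] Y) {C : ℝ} {x : ℕ → Y} (hx : SRIS s C x) (g : E →L[ℂ] ℂ)
    (hg : ∀ v, ‖g v‖ ≤ ‖v‖) {δ : ℝ} {j : ℕ} (hj : Even j) (hj' : cls j = 0)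
    (hd : ∀ (ξ : ℕ) (η : ℝ), 0 < η → ∀ᶠ k in atTop, ∃ b : Cmb, bsum b ≤ 1 ∧
      ‖s.bf ξ b (S₂ (x k))‖ ≤ η ∧
      δ ≤ (g (s.bf ξ b (S₁ (x k)))).re)
    (h₁ : ∀ ξ, Tendsto (fun k => s.e ξ (S₁ (x k))) atTop (𝓝 0))
    (h₂ : ∀ ξ, Tendsto (fun k => s.e ξ (S₂ (x k))) atTop (𝓝 0))
    (n₀ : ℕ) (Q : ℕ → Prop) (hQ : ∀ᶠ k in atTop, Q k) {ε : ℝ} (hε : 0 < ε) :
    ∃ (D J : Finset ℕ) (κ : ℕ → ℕ) (c : ℕ → ℝ) (η : ℕ),
      SccW G2 j D c ∧ BFam s D J (x ∘ κ) C ∧ Set.InjOn κ J ∧ ∑ p ∈ J, c p = 1 ∧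
      (∀ p ∈ J, Q (κ p)) ∧ s.t.w η = j ∧ (∀ ζ ∈ s.t.D η, n₀ ≤ ζ) ∧
      dl j * δ - ε ≤ (g (s.e η (S₁ (cmb c J (x ∘ κ))))).re ∧
      ‖s.e η (S₂ (cmb c J (x ∘ κ)))‖ ≤ ε := by
  have hε' : 0 < ε / 6 := by positivity
  obtain ⟨η, κ, lo, n, c, J, hw, hscc, hJ, hsum, hn₀, hp⟩ := build_chain null_G2 s.t hj' n₀
    (fun (ξ k : ℕ) (b : Cmb) (n : ℕ) => ξ ≤ k ∧ k < n ∧ Q k ∧ s.P (ξ + 1) (x k) = 0 ∧
      s.P n (x k) = x k ∧ ‖s.e ξ (S₁ (x k))‖ ≤ ε / 6 ∧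
      ‖s.e ξ (S₂ (x k))‖ ≤ ε / 6 ∧
      (∀ m, n ≤ m → ‖S₁ (x k) - s.P m (S₁ (x k))‖ ≤ ε / 6) ∧
      (∀ m, n ≤ m → ‖S₂ (x k) - s.P m (S₂ (x k))‖ ≤ ε / 6) ∧
      ‖s.bf ξ b (S₂ (x k))‖ ≤ ε / 6 ∧
      δ ≤ (g (s.bf ξ b (S₁ (x k)))).re)
    (fun ξ _ => by
      have e₁ := ev_small (h₁ ξ) hε'
      have e₂ := ev_small (h₂ ξ) hε'
      obtain ⟨k, h1, h2, h3, h4, h5, b, hb, hb₁, hb₂⟩ := ((eventually_ge_atTop ξ).and (hQ.and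
        ((hx.far (ξ + 1)).and (e₁.and (e₂.and (hd ξ _ hε')))))).exists
      obtain ⟨n₁, hn₁⟩ := hx.fin k
      obtain ⟨n₂, hn₂⟩ := s.tail_small (S₁ (x k)) hε'
      obtain ⟨n₃, hn₃⟩ := s.tail_small (S₂ (x k)) hε'
      refine ⟨k, b, k + 1 + n₁ + n₂ + n₃, hb, fun ho => absurd hj (Nat.not_even_iff_odd.2 ho),
        h1, by omega, h2, h3, s.P_of_le (by omega) hn₁, h4, h5,
        fun m hm => hn₂ m (by omega), fun m hm => hn₃ m (by omega), hb₁, hb₂⟩)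
  have d₀ := dl_pos j
  have d₁ := dl_le j
  refine ⟨s.t.D η, J, κ, c, η, hscc, ⟨hJ, ?_, ?_, fun p _ => hx.bdd _⟩, ?_, hsum,
    fun p h => (hp p h).2.2.2.2.2.2.1, hw, hn₀, ?_, ?_⟩
  · intro p h q hq hqp
    obtain ⟨-, -, h3, -, -, -, -, h4, -⟩ := hp p h
    exact s.P_zero_of_le (by have := h3 q hq hqp; omega) h4
  · intro p h
    obtain ⟨-, -, -, h3, -, -, -, -, h4, -⟩ := hp p h
    exact s.P_of_le (by omega) h4
  · have key : ∀ p ∈ J, ∀ q ∈ J, p < q → κ p < κ q := by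
      intro p h q h' hlt
      obtain ⟨-, -, -, h3, -, h4, -⟩ := hp p h
      obtain ⟨-, -, h5, -, h6, -⟩ := hp q h'
      have := h5 p (hJ h) hlt
      omega
    intro p h q h' he
    rcases lt_trichotomy p q with hlt | heq | hlt
    · exact absurd he (key p h q h' hlt).ne
    · exact heq
    · exact absurd he (key q h' p h hlt).ne'
  · refine re_map_cmb_ge (g.comp ((s.e η).comp S₁)) hscc.nonneg hsum _ fun p h => ?_
    obtain ⟨h1, -, -, h3, -, -, -, -, -, h4, -, h5, -, -, h6⟩ := hp p h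
    have h7 := s.eval_link (hJ h) h1 (S₁ (x (κ p)))
    rw [hw] at h7
    have h8 := h5 p h3
    have h9 := h5 (p + 1) (by omega)
    have h10 := (Complex.abs_re_le_norm _).trans ((hg _).trans h7)
    rw [map_sub, map_smul, smul_eq_mul, Complex.sub_re, Complex.re_ofReal_mul] at h10
    have h11 := (abs_le.1 h10).1
    have h12 := mul_le_mul_of_nonneg_left h6 d₀.le
    change _ ≤ (g (s.e η (S₁ (x (κ p))))).re
    linarith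
  · have h0 := norm_map_cmb_le ((s.e η).comp S₂) hscc.nonneg J (x ∘ κ) (m := ε)
      fun p h => by
        obtain ⟨h1, -, -, h3, -, -, -, -, -, -, h4, -, h5, h6, -⟩ := hp p h
        have h7 := s.eval_link (hJ h) h1 (S₂ (x (κ p)))
        rw [hw] at h7
        have h8 := h5 p h3
        have h9 := h5 (p + 1) (by omega)
        have h10 := norm_le_norm_sub_add (s.e η (S₂ (x (κ p))))
          ((dl j : ℂ) • s.bf (lo p) (s.t.b p) (S₂ (x (κ p))))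
        rw [norm_smul, norm_dl] at h10
        have h11 := mul_le_mul_of_nonneg_left h6 d₀.le
        change ‖s.e η (S₂ (x (κ p)))‖ ≤ ε
        nlinarith
    rw [hsum, mul_one] at h0
    exact h0

/-- One link of a dependent sequence. -/
theorem dep_step (s : BD σ Y) (T : Y →L[ℂ] Y) {C : ℝ}
    (hC : 0 ≤ C) {x : ℕ → Y} (hx : SRIS s C x) (g : E →L[ℂ] ℂ)
    (hg : ∀ v, ‖g v‖ ≤ ‖v‖) {δ : ℝ}
    (hd : ∀ (ξ : ℕ) (η : ℝ), 0 < η → ∀ᶠ k in atTop, ∃ b : Cmb, bsum b ≤ 1 ∧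
      ‖s.bf ξ b (x k)‖ ≤ η ∧
      δ ≤ (g (s.bf ξ b (T (x k)))).re)
    (hT : ∀ ξ, Tendsto (fun k => s.e ξ (T (x k))) atTop (𝓝 0))
    {ε : ℝ} (hε : 0 < ε) (ξ : ℕ) :
    ∃ (z : Y) (η n : ℕ), s.t.w η = sg 0 ξ ∧ (∀ ζ ∈ s.t.D η, ξ + 1 ≤ ζ) ∧ s.P (ξ + 1) z = 0 ∧
      s.P n z = z ∧ ‖z‖ ≤ 4 * C ∧
      (∀ γ, s.t.w γ < sg 0 ξ → ‖s.e γ z‖ ≤ 4 * C * dl (s.t.w γ)) ∧
      (∀ γ, sg 0 ξ < s.t.w γ → ‖s.e γ z‖ ≤ 4 * C * dl (sg 0 ξ)) ∧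
      (∀ γ, Odd (s.t.w γ) → s.t.w γ < sg 0 ξ →
        (∀ ζ ∈ s.t.D γ, ∀ ξ', s.t.par ζ = some ξ' → sg 0 ξ' ≠ sg 0 ξ) →
        ‖s.e γ z‖ ≤ 4 * C * dl (s.t.w γ + 1)) ∧
      δ - ε ≤ (g (s.e η (T z))).re ∧ ‖s.e η z‖ ≤ ε ∧
      ‖s.e ξ (T z)‖ ≤ ε ∧ ∀ m, n ≤ m → ‖T z - s.P m (T z)‖ ≤ ε := by
  set j := sg 0 ξ with hj
  have d₀ := dl_pos j
  have hε' : 0 < dl j * ε := by positivity
  obtain ⟨D, J, κ, c, η, hscc, hB, hκ, hsum, hQ, hw, hn₀, hlow, hsm⟩ :=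
    exact_pair s T 1 hx g hg (δ := δ) (j := j) (even_sg 0 ξ) (cls_sg 0 ξ) hd hT
      (fun ζ => tendsto_const_nhds.congr' ((hx.far (ζ + 1)).mono fun k hk =>
        (s.e_zero (Nat.lt_succ_self ζ) hk).symm)) (ξ + 1)
      (fun k => s.P (ξ + 1) (x k) = 0 ∧ ‖s.e ξ (T (x k))‖ ≤ dl j * ε)
      ((hx.far (ξ + 1)).and (ev_small (hT ξ) hε')) hε'
  obtain ⟨e₁, e₂, e₃, e₄⟩ := scc_est s hB hC hscc (hx.exc_comp hκ)
  set u := cmb c J (x ∘ κ) with hu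
  set z : Y := (((dl j)⁻¹ : ℝ) : ℂ) • u with hz
  obtain ⟨n₁, hn₁⟩ := s.tail_small (T z) hε
  refine ⟨z, η, n₁ + (J.sup id + 1), hw, hn₀, ?_, ?_, ?_, fun γ h => ?_, fun γ h => ?_,
    fun γ h h' h'' => ?_, ?_, ?_, ?_, fun m hm => hn₁ m (by omega)⟩
  · rw [hz, map_smul, hu, map_cmb, Finset.sum_eq_zero, smul_zero]
    intro p hp
    rw [Function.comp_apply, (hQ p hp).1, smul_zero]
  · rw [hz, map_smul, hu, map_cmb]
    congr 1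
    refine Finset.sum_congr rfl fun p hp => ?_
    have h1 : p ≤ J.sup id := Finset.le_sup (f := id) hp
    rw [s.P_of_le (by omega) (hB.high p hp)]
  · rw [hz, norm_smul, Complex.norm_real, Real.norm_eq_abs, abs_of_pos (inv_pos.2 d₀),
      inv_mul_le_iff₀ d₀]
    linarith
  · exact norm_scale _ u d₀ (by have := e₂ γ h; linarith)
  · exact norm_scale _ u d₀ (by have := e₃ γ h; linarith)
  · exact norm_scale _ u d₀ (by have := e₄ γ h h' h''; linarith)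
  · rw [hz, map_smul, map_smul, map_smul, smul_eq_mul, Complex.re_ofReal_mul, le_inv_mul_iff₀ d₀]
    linarith
  · exact norm_scale _ u d₀ hsm
  · refine norm_scale ((s.e ξ).comp T) u d₀ ?_
    have h1 := norm_map_cmb_le ((s.e ξ).comp T) hscc.nonneg J (x ∘ κ)
      (m := dl j * ε) fun p hp => (hQ p hp).2
    rw [hsum, mul_one] at h1
    exact h1

theorem dep_main (s : BD σ Y) (T : Y →L[ℂ] Y) {C : ℝ}
    (hC : 0 ≤ C) {x : ℕ → Y} (hx : SRIS s C x) {δ : ℝ} (hδ : 0 < δ)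
    (hd : ∀ (ξ : ℕ) (η : ℝ), 0 < η → ∀ᶠ k in atTop, ∃ b : Cmb, bsum b ≤ 1 ∧
      ‖s.bf ξ b (x k)‖ ≤ η ∧
      δ ≤ (σ.ε (s.bf ξ b (T (x k)))).re)
    (hT : ∀ ξ, Tendsto (fun k => s.e ξ (T (x k))) atTop (𝓝 0)) : False := by
  have κ0 := σ.κ_pos
  obtain ⟨i, hi⟩ := exists_dl_lt 0 1 (K := ‖T‖ * (4 * (4 * C + 1)) + 5 + σ.κ)
    (δ := σ.κ / 3 * δ) (by positivity)
  set j := 2 * Nat.pair 0 i + 1 with hj
  have hcls : cls j = 0 := cls_odd _ _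
  have hodd : Odd j := odd_two_mul_add_one _
  have d₀ := dl_pos j
  have d₁ := dl_le j
  have d₂ := dl_succ j
  have d₃ := dl_pos (j + 1)
  obtain ⟨γ₀, z, lo, n, c, J, hw, hscc, hJ, hsum, hn₀, hp⟩ := build_chain null_G2 s.t (j := j) hcls j
    (fun (ξ : ℕ) (z : Y) (b : Cmb) (n : ℕ) => ∃ η, b = sing η ∧ (∀ ζ ∈ s.t.D η, ξ + 1 ≤ ζ) ∧
      s.P (ξ + 1) z = 0 ∧ s.P n z = z ∧ ‖z‖ ≤ 4 * C ∧
      (∀ γ, s.t.w γ < sg 0 ξ → ‖s.e γ z‖ ≤ 4 * C * dl (s.t.w γ)) ∧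
      (∀ γ, sg 0 ξ < s.t.w γ → ‖s.e γ z‖ ≤ 4 * C * dl (sg 0 ξ)) ∧
      (∀ γ, Odd (s.t.w γ) → s.t.w γ < sg 0 ξ →
        (∀ ζ ∈ s.t.D γ, ∀ ξ', s.t.par ζ = some ξ' → sg 0 ξ' ≠ sg 0 ξ) →
        ‖s.e γ z‖ ≤ 4 * C * dl (s.t.w γ + 1)) ∧
      δ - dl (j + 1) ≤ (σ.ε (s.e η (T z))).re ∧
      ‖s.e η z‖ ≤ dl (j + 1) ∧
      ‖s.e ξ (T z)‖ ≤ dl (j + 1) ∧ ∀ m, n ≤ m → ‖T z - s.P m (T z)‖ ≤ dl (j + 1))
    (fun ξ hξ => by
      obtain ⟨z, η, n, h1, g1, g2, g3, g4, g5, g6, g7, g8, g9, g10, g11⟩ :=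
        dep_step s T hC hx σ.ε σ.ε_le hd hT d₃ ξ
      exact ⟨z, sing η, n, bsum_sing η,
        fun _ => ⟨η, rfl, hcls.symm ▸ h1, hξ.trans_lt (lt_sg _ ξ)⟩,
        η, rfl, g1, g2, g3, g4, g5, g6, g7, g8, g9, g10, g11⟩)
  have hC' : 0 ≤ 4 * C + 1 := by positivity
  have hB : BFam s (s.t.D γ₀) J z (4 * C + 1) := by
    refine ⟨hJ, fun p h q hq hqp => ?_, fun p h => ?_, fun p h => ?_⟩
    · obtain ⟨-, -, h3, -, η, -, -, h4, -⟩ := hp p h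
      exact s.P_zero_of_le (by have := h3 q hq hqp; omega) h4
    · obtain ⟨-, -, -, h3, η, -, -, -, h4, -⟩ := hp p h
      exact s.P_of_le (by omega) h4
    · obtain ⟨-, -, -, -, η, -, -, -, -, h4, -⟩ := hp p h
      linarith
  have hsg : ∀ p ∈ J, j < sg 0 (lo p) := fun p h =>
    (hn₀ _ (hp p h).2.1).trans_lt (lt_sg 0 _)
  have hH : ∀ γ, j ≤ s.t.w γ → ∃ k₀, ∀ p ∈ J, p ≠ k₀ →
      ‖s.e γ (z p)‖ ≤ (4 * C + 1) * dl (j + 1) := by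
    intro γ hγ
    rcases hγ.lt_or_eq with hγ | hγ
    · obtain ⟨k₀, hk₀⟩ := exists_exc (J := J) (fun p => sg 0 (lo p) = s.t.w γ)
        fun p h q h' h1 h2 => by
          have h3 : lo q = lo p := sg_inj (h2.trans h1.symm)
          exact s.t.child_unique (hJ h) (hJ h') (hp p h).1 (h3 ▸ (hp q h').1)
      refine ⟨k₀, fun p h hne => ?_⟩
      obtain ⟨-, -, -, -, η, -, -, -, -, -, h4, h5, -⟩ := hp p h
      rcases lt_or_gt_of_ne (hk₀ p h hne) with h6 | h6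
      · have h7 := h5 γ h6
        have h8 : dl (sg 0 (lo p)) ≤ dl (j + 1) := dl_anti (hsg p h)
        nlinarith
      · have h7 := h4 γ h6
        have h8 : dl (s.t.w γ) ≤ dl (j + 1) := dl_anti hγ
        nlinarith
    · obtain ⟨k₀, hk₀⟩ := exists_exc (J := J) (fun p => lo p ∈ s.t.D γ ∧ p ∉ s.t.D γ) (by
        have key : ∀ p ∈ J, ∀ q ∈ J, p ∉ s.t.D γ → lo q ∈ s.t.D γ → ¬ p < q := by
          intro p h q h' h1 h2 hlt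
          obtain ⟨-, h3, h4, -⟩ := hp q h'
          exact h1 (s.t.D_subset h2 (s.t.mem_of_le (hJ h) h3 (h4 p (hJ h) hlt)))
        intro p h q h' h1 h2
        have h3 := key p h q h' h1.2 h2.1
        have h4 := key q h' p h h2.2 h1.1
        omega)
      refine ⟨k₀, fun p h hne => ?_⟩
      obtain ⟨h1, -, -, h3, η, hb, h2, h4, h5, -, -, -, h6, -, h7, -⟩ := hp p h
      by_cases hpD : p ∈ s.t.D γ
      · have h8 := s.rec_child' h1 (z p)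
        rw [s.P_of_le h3 h5, s.e_zero (Nat.lt_succ_self _) h4, zero_add, hb, s.bf_sing,
          s.f_root h2] at h8
        rw [s.e_anc hpD (s.P_of_le (by omega) h5), h8, norm_smul, norm_dl]
        have h9 := dl_pos (s.t.w p)
        have h10 := dl_le (s.t.w p)
        have h11 := norm_nonneg (s.e η (z p))
        have h12 := σ.θ_le (lo p) 0 ((3⁻¹ : ℂ) • s.e η (z p))
        rw [norm_third] at h12
        have h13 := mul_le_mul_of_nonneg_left h12 h9.le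
        nlinarith
      · have h8 := h6 γ (hγ ▸ hodd) (hγ ▸ hsg p h) fun ζ hζ ξ' hξ' he => by
          have h9 : ξ' = lo p := sg_inj he
          exact hk₀ p h hne ⟨h9 ▸ s.t.par_mem hζ hξ', hpD⟩
        rw [← hγ] at h8
        nlinarith
  have hup := norm_cmb_le s hB hC' hscc d₃.le hH
  have hlow : dl j * (σ.κ / 3 * δ) - (5 + σ.κ) * dl (j + 1) ≤
      (σ.ε (s.e γ₀ (T (cmb c J z)))).re := by
    refine re_map_cmb_ge (σ.ε.comp ((s.e γ₀).comp T)) hscc.nonneg hsum _ fun p h => ?_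
    obtain ⟨h1, -, -, h3, η, hb, h4, -, -, -, -, -, -, h5, -, h6, h7⟩ := hp p h
    have h8 := s.eval_link (hJ h) h1 (T (z p))
    rw [hw, hb, s.bf_sing, s.f_root h4] at h8
    have h9 := h7 p h3
    have h10 := h7 (p + 1) (by omega)
    have h11 := (Complex.abs_re_le_norm _).trans ((σ.ε_le _).trans h8)
    rw [map_sub, map_smul, σ.ε_θ, map_smul, smul_eq_mul, smul_eq_mul, Complex.sub_re,
      Complex.re_ofReal_mul, Complex.re_ofReal_mul,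
      show (3⁻¹ : ℂ) = ((3⁻¹ : ℝ) : ℂ) by simp, Complex.re_ofReal_mul] at h11
    have h12 := (abs_le.1 h11).1
    have h13 := mul_le_mul_of_nonneg_left h5 (mul_pos d₀ κ0).le
    have h14 := mul_le_mul_of_nonneg_left d₁ (mul_pos d₃ κ0).le
    have h15 := mul_pos d₃ κ0
    change _ ≤ (σ.ε (s.e γ₀ (T (z p)))).re
    nlinarith
  have h6 := (Complex.re_le_norm _).trans ((σ.ε_le _).trans ((s.e_le γ₀ _).trans
    (T.le_opNorm (cmb c J z))))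
  have h7 := mul_le_mul_of_nonneg_left hup (norm_nonneg T)
  have h8 := mul_lt_mul_of_pos_left hi d₀
  have h9 : 0 ≤ ‖T‖ * (4 * C + 1) * (dl j * dl j) := by positivity
  rw [d₂] at h7 hlow
  nlinarith

end Pool.Agent.Lib.MP_2a83f9_an.H.J
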