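import Mathlib
import Pool.Agent.Lib.MP_2a83f9_an.J.Alg
import Pool.Agent.Lib.MP_2a83f9_an.J.Dep

set_option autoImplicit false

open Filter Topology

noncomputable section

namespace Pool.Agent.Lib.MP_2a83f9_an.H.J

universe u v w

variable {B : Type u} [NormedRing B] [NormedAlgebra ℂ B] {X : Ex B} {σ : Val (B →L[ℂ] ℂ)}
  {Y : Type v} [NormedAddCommGroup Y] [NormedSpace ℂ Y] {s : BD σ Y}

namespace Act

variable (A : Act X s) (F : Fit X σ) (T : Y →L[ℂ] Y)

include F in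
/-- No rapidly increasing sequence stays away from all levels. -/
theorem not_far {C : ℝ} {x : ℕ → Y} (hx : QRIS s C x) {δ : ℝ} (hδ : 0 < δ)
    (h : ∀ m, ∀ᶠ k in atTop, ∀ a, δ ≤ ‖T (x k) - A.α m a (x k)‖) : False := by
  have K0 := X.K0
  obtain ⟨ψ, hψ, hs⟩ := hx.exists_sub
  have hR : ∀ m, Tendsto (fun k => s.P m (T (x (ψ k)))) atTop (𝓝 0) := fun m =>
    (hx.comp hψ.tendsto_atTop).compact_null ((s.P m).comp T) ((s.cpt_P m).comp_clm T)
  refine dep_main s T hx.nonneg hs (δ := (6 * X.K ^ 3)⁻¹ / 2 * (δ / 2)) (by positivity)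
    (fun ξ η hη => ?_) fun ξ => ?_
  · filter_upwards [ev_small (hR (ξ + 1)) (half_pos hδ), hs.far (ξ + 1),
      hψ.tendsto_atTop.eventually (h ξ)] with k h3 h4 h5
    rw [Function.comp_apply] at h4 ⊢
    have h6 := A.sep F ξ h4 (y := T (x (ψ k)) - s.P (ξ + 1) (T (x (ψ k))))
      (by rw [map_sub, s.P_P, sub_self]) (half_pos hδ) hη fun a => by
        have h7 := norm_le_norm_sub_add (T (x (ψ k)) - A.α ξ a (x (ψ k)))
          (s.P (ξ + 1) (T (x (ψ k))))
        rw [sub_right_comm] at h7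
        linarith [h5 a]
    simpa only [s.bf_sub] using h6
  · have h2 := ((s.e ξ).continuous.tendsto 0).comp (hR (ξ + 1))
    rw [map_zero] at h2
    exact h2.congr fun k => s.coord ξ _ _ (Nat.lt_succ_self ξ)

include F in
/-- One level serves all rapidly increasing sequences with a given constant. -/
theorem exists_level (C : ℝ) {δ : ℝ} (hδ : 0 < δ) : ∃ m, ∀ x, QRIS s C x →
    ∀ᶠ k in atTop, ∃ a, ‖T (x k) - A.α m a (x k)‖ < δ := by
  by_contra hcon
  have h1 : ∀ m, ∃ z : Y, (∃ n, s.P n z = z) ∧ ‖z‖ ≤ C ∧ s.P m z = 0 ∧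
      (∀ h ≤ m, ∀ γ, s.t.w γ = h → ‖s.e γ z‖ ≤ C * dl h) ∧ ∀ a, δ ≤ ‖T z - A.α m a z‖ := fun m => by
    by_contra h2
    refine hcon ⟨m, fun x hx => ?_⟩
    filter_upwards [hx.far m, (eventually_all_finite (Set.finite_le_nat m)).2 fun h _ => hx.est h]
      with k h3 h4
    by_contra h5
    exact h2 ⟨x k, hx.fin k, hx.bdd k, h3, h4, fun a => not_lt.1 fun h6 => h5 ⟨a, h6⟩⟩
  choose z z1 z2 z3 z4 z5 using h1
  refine A.not_far F T (x := z) ⟨z1, fun n => (eventually_ge_atTop n).mono fun k hk =>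
    s.P_zero_of_le hk (z3 k), z2, fun h => (eventually_ge_atTop h).mono fun k hk => z4 k h hk⟩ hδ
    fun m => (eventually_ge_atTop m).mono fun k hk a => ?_
  have h3 := z5 k (X.E m a)
  rwa [A.up hk, z3, sub_zero] at h3

include F in
/-- Approximation by one element of the algebra. -/
theorem approx (C : ℝ) {ε : ℝ} (hε : 0 < ε) : ∃ m a, ∀ x, QRIS s C x →
    ∀ᶠ k in atTop, ‖T (x k) - A.α m a (x k)‖ ≤ ε := by
  have K0 := X.K0
  obtain ⟨δ, hδ, hδε⟩ : ∃ δ : ℝ, 0 < δ ∧
      δ * (3 + 18 * X.K * (2 * X.K * (3 * 4)) * (|C| + 2 * X.K)) ≤ ε :=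
    ⟨ε / (3 + 18 * X.K * (2 * X.K * (3 * 4)) * (|C| + 2 * X.K)), by positivity,
      (div_mul_cancel₀ _ (by positivity)).le⟩
  obtain ⟨m, hm⟩ := A.exists_level F T (|C| + 2 * X.K) hδ
  obtain ⟨y, y1, y2⟩ := A.free F m
  have := X.fin m
  have := FiniteDimensional.proper ℂ (X.E m).range
  obtain ⟨N, hN⟩ := eventually_atTop.1 (hm y (y1.mono (le_add_of_nonneg_left (abs_nonneg C))))
  choose b hb using fun k => hN (k + N) (Nat.le_add_left N k)
  have h2 : ∀ k, (⟨X.E m (b k), b k, rfl⟩ : (X.E m).range) ∈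
      Metric.closedBall 0 (2 * X.K * (‖T‖ * (2 * X.K) + δ)) := fun k => by
    refine mem_closedBall_zero_iff.2 ((y2 (k + N) _).trans
      (mul_le_mul_of_nonneg_left ?_ (by positivity)))
    have h3 := norm_sub_norm_le (A.α m (b k) (y (k + N))) (T (y (k + N)))
    rw [norm_sub_rev] at h3
    linarith [hb k, T.le_opNorm_of_le (y1.bdd (k + N))]
  obtain ⟨l, -, φ, hφ, hl⟩ := (isCompact_closedBall _ _).tendsto_subseq h2
  have h3 : ∀ᶠ k in atTop, ‖T (y (φ k + N)) - A.α m l (y (φ k + N))‖ ≤ 2 * δ := by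
    have h4 := ((tendsto_iff_norm_sub_tendsto_zero.1 hl).const_mul (18 * X.K)).mul_const (2 * X.K)
    rw [mul_zero, zero_mul] at h4
    filter_upwards [h4.eventually (eventually_le_nhds hδ)] with k h5
    have h6 := (A.le m (X.E m (b (φ k)) - l) (y (φ k + N))).trans
      (mul_le_mul_of_nonneg_left (y1.bdd _) (by positivity))
    rw [map_sub, sub_apply, A.E_eq] at h6
    have h7 := norm_sub_le_norm_sub_add_norm_sub (T (y (φ k + N)))
      (A.α m (b (φ k)) (y (φ k + N))) (A.α m l (y (φ k + N)))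
    have h8 : ‖A.α m (b (φ k)) (y (φ k + N)) - A.α m l (y (φ k + N))‖ ≤ δ := h6.trans h5
    linarith [hb (φ k)]
  have y3 := y1.comp ((tendsto_add_atTop_nat N).comp hφ.tendsto_atTop)
  refine ⟨m, l, fun x hx => ?_⟩
  choose n hn using hx.fin
  choose i hi using fun k => ((y3.far (n k)).and (h3.and (eventually_ge_atTop k))).exists
  have hi' : Tendsto i atTop atTop := tendsto_atTop_mono (fun k => (hi k).2.2) tendsto_id
  have hz := (hx.mono (le_abs_self C)).add (y3.comp hi')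
  filter_upwards [hm _ hz, hm x (hx.mono ((le_abs_self C).trans
    (le_add_of_nonneg_right (by positivity))))] with k ⟨μ, hμ⟩ ⟨ν, hν⟩
  obtain ⟨i1, i2, -⟩ := hi k
  have z1 := hz.bdd k
  simp only [Function.comp_apply] at hμ i1 z1
  set v := y (φ (i k) + N) with hv
  have e1 : A.α m (ν - μ) (x k) - A.α m (μ - l) v = (T (x k + v) - A.α m μ (x k + v)) -
      (T (x k) - A.α m ν (x k)) - (T v - A.α m l v) := by
    simp only [map_add, map_sub, sub_apply]
    abel
  have e2 : ‖A.α m (ν - μ) (x k) - A.α m (μ - l) v‖ ≤ 4 * δ := by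
    rw [e1]
    linarith [norm_sub_le_of_le (norm_sub_le_of_le hμ.le hν.le) i2]
  have e3 := (s.Q_le (n k) _).trans (mul_le_mul_of_nonneg_left e2 (by norm_num))
  rw [map_sub (s.P (n k)), A.comm_P, A.comm_P, hn, i1, map_zero, sub_zero, sub_sub_cancel_left,
    norm_neg] at e3
  have e4 := (y2 _ (μ - l)).trans (mul_le_mul_of_nonneg_left e3 (by positivity))
  have e5 := (A.le m (X.E m (μ - l)) (x k + v)).trans (mul_le_mul
    (mul_le_mul_of_nonneg_left e4 (by positivity)) z1 (norm_nonneg _) (by positivity))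
  rw [A.E_eq] at e5
  have e6 : T (x k) - A.α m l (x k) = (T (x k + v) - A.α m μ (x k + v)) +
      A.α m (μ - l) (x k + v) - (T v - A.α m l v) := by
    simp only [map_add, map_sub, sub_apply]
    abel
  rw [e6]
  have e7 := norm_sub_le_of_le (norm_add_le_of_le hμ.le e5) i2
  linarith

end Act

end Pool.Agent.Lib.MP_2a83f9_an.H.J
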