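import Mathlib
import Pool.Agent.Lib.MP_2a83f9_an.H.Assemble
import Pool.Agent.Lib.MP_2a83f9_an.J.Horiz

set_option autoImplicit false

open Filter Topology

noncomputable section

namespace Pool.Agent.Lib.MP_2a83f9_an.H.J

universe u v w

variable {B : Type u} [NormedRing B] [NormedAlgebra ℂ B] {X : Ex B} {σ : Val (B →L[ℂ] ℂ)}
  {Y : Type u} [NormedAddCommGroup Y] [NormedSpace ℂ Y] {s : BD σ Y}

/-- An abstract quotient of the operators on `Y` by the compact ones. -/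
structure Cal (Y : Type u) [NormedAddCommGroup Y] [NormedSpace ℂ Y]
    (Q : Type u) [NormedAddCommGroup Q] [NormedSpace ℂ Q] where
  π : (Y →L[ℂ] Y) →ₗ[ℂ] Q
  surj : Function.Surjective π
  le : ∀ T, ‖π T‖ ≤ ‖T‖
  mul : ∀ S T, ‖π (S * T)‖ ≤ ‖π S‖ * ‖π T‖
  eq : ∀ {S T}, π S = π T ↔ IsCompactOperator ⇑(S - T)
  lt : ∀ T {ε : ℝ}, 0 < ε → ∃ S, π S = π T ∧ ‖S‖ < ‖π T‖ + ε

theorem exists_cal (Y : Type u) [NormedAddCommGroup Y] [NormedSpace ℂ Y] [CompleteSpace Y] :
    ∃ (Q : Type u) (_ : NormedAddCommGroup Q) (_ : NormedSpace ℂ Q) (_ : CompleteSpace Q),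
      Nonempty (Cal Y Q) := by
  have cY : IsClosed (compactOperator (RingHom.id ℂ) Y Y : Set (Y →L[ℂ] Y)) :=
    isClosed_setOfPred_isCompactOperator
  exact ⟨Calkin Y, Submodule.Quotient.normedAddCommGroup _, Submodule.Quotient.normedSpace _ _,
    Submodule.Quotient.completeSpace _, ⟨@Cal.mk Y _ _ (Calkin Y)
      (Submodule.Quotient.normedAddCommGroup _) (Submodule.Quotient.normedSpace _ _)
      (Submodule.mkQ _) (Submodule.mkQ_surjective _) Abs.cal_le cal_mul Abs.cal_eq_iff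
      fun T _ h => Submodule.Quotient.norm_mk_lt (cal T) h⟩⟩

variable {Q : Type u} [NormedAddCommGroup Q] [NormedSpace ℂ Q] (c : Cal Y Q)

theorem Cal.eqc {S T : Y →L[ℂ] Y} (h : Eqc S T) : c.π S = c.π T := c.eq.2 h.cpt

theorem QRIS.ev_cal {C : ℝ} {x : ℕ → Y} (hx : QRIS s C x) (R : Y →L[ℂ] Y) {η : ℝ} (hη : 0 < η) :
    ∀ᶠ k in atTop, ‖R (x k)‖ ≤ ‖c.π R‖ * C + η := by
  have C0 := hx.nonneg
  obtain ⟨S, h2, h3⟩ := c.lt R (show 0 < η / 2 / (C + 1) by positivity)
  filter_upwards [ev_small (hx.compact_null _ (c.eq.1 h2.symm)) (half_pos hη)] with k h4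
  have h5 := norm_le_norm_sub_add (R (x k)) (S (x k))
  have h6 := (S.le_opNorm_of_le (hx.bdd k)).trans (mul_le_mul_of_nonneg_right h3.le C0)
  have h7 : η / 2 / (C + 1) * (C + 1) = η / 2 := div_mul_cancel₀ _ (by positivity)
  have h8 : 0 < η / 2 / (C + 1) := by positivity
  rw [sub_apply] at h4
  nlinarith

namespace Act

variable (A : Act X s)

theorem cal_le (n : ℕ) (a : B) : ‖c.π (A.α n a)‖ ≤ 18 * X.K * ‖a‖ :=
  (c.le _).trans (ContinuousLinearMap.opNorm_le_bound _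
    (by have := X.K0; positivity) (A.le n a))

theorem stab {k m : ℕ} (h : k ≤ m) (a : B) : c.π (A.α m (X.E k a)) = c.π (A.α k a) := by
  have h1 : Eqc (1 - s.P m) (1 : Y →L[ℂ] Y) :=
    SModEq.symm (eqc_of (by rw [sub_sub_cancel]; exact s.cpt_P m))
  exact c.eqc ((Eqc.of_eq (ContinuousLinearMap.ext fun y => A.up h a y)).tr (h1.left (A.α k a)))

theorem low (F : Fit X σ) (n : ℕ) (a : B) :
    ‖X.E n a‖ ≤ 2 * X.K * (‖c.π (A.α n a)‖ * (2 * X.K)) := by
  have K0 := X.K0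
  obtain ⟨y, y1, y2⟩ := A.free F n
  refine le_of_forall_pos_le_add fun ε hε => ?_
  obtain ⟨k, hk⟩ := (y1.ev_cal c (A.α n a) (show 0 < ε / (2 * X.K) by positivity)).exists
  refine ((y2 k a).trans (mul_le_mul_of_nonneg_left hk (by positivity))).trans_eq ?_
  field_simp

theorem exists_psi [CompleteSpace Q] : ∃ Ψ : B →L[ℂ] Q,
    ∀ a, Tendsto (fun n => c.π (A.α n a)) atTop (𝓝 (Ψ a)) := by
  have ex : ∀ a, ∃ q : Q, Tendsto (fun n => c.π (A.α n a)) atTop (𝓝 q) := fun a => by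
    refine cauchySeq_tendsto_of_complete (cauchySeq_of_le_tendsto_0'
      (fun n => 18 * X.K * ‖X.E n a - a‖) (fun n m h => ?_) ?_)
    · rw [dist_eq_norm, ← A.stab c h, ← map_sub c.π, ← map_sub]
      exact A.cal_le c _ _
    · simpa using (tendsto_iff_norm_sub_tendsto_zero.1 (X.lim a)).const_mul (18 * X.K)
  choose ψ hψ using ex
  exact ⟨LinearMap.mkContinuous
    { toFun := ψ
      map_add' := fun a b => tendsto_nhds_unique (hψ _) (((hψ a).add (hψ b)).congr fun n => by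
        rw [map_add, map_add c.π])
      map_smul' := fun t a => tendsto_nhds_unique (hψ _) (((hψ a).const_smul t).congr fun n => by
        rw [map_smul, map_smul c.π]) } (18 * X.K)
    fun a => le_of_tendsto' (hψ a).norm fun n => A.cal_le c n a, hψ⟩

variable {Ψ : B →L[ℂ] Q} (hΨ : ∀ a, Tendsto (fun n => c.π (A.α n a)) atTop (𝓝 (Ψ a)))

include hΨ

theorem psi_E (k : ℕ) (a : B) : Ψ (X.E k a) = c.π (A.α k a) :=
  tendsto_nhds_unique (hΨ _) (tendsto_const_nhds.congr'
    ((eventually_ge_atTop k).mono fun _ h => (A.stab c h a).symm))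

theorem psi_low (F : Fit X σ) (a : B) : ‖a‖ ≤ 2 * X.K * (‖Ψ a‖ * (2 * X.K)) :=
  le_of_tendsto_of_tendsto' (X.lim a).norm (((hΨ a).norm.mul_const _).const_mul _)
    fun n => A.low c F n a

theorem psi_mul {S T : Y →L[ℂ] Y} {a b : B} (hS : Ψ a = c.π S) (hT : Ψ b = c.π T) :
    Ψ (a * b) = c.π (S * T) := by
  refine tendsto_nhds_unique ((Ψ.continuous.tendsto _).comp ((X.lim a).mul (X.lim b))) ?_
  have h1 := tendsto_iff_norm_sub_tendsto_zero.1 (hS ▸ hΨ a)
  have h2 := tendsto_iff_norm_sub_tendsto_zero.1 (hT ▸ hΨ b)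
  have h3 := (h1.mul_const (18 * X.K * ‖b‖)).add (h2.const_mul ‖c.π S‖)
  rw [zero_mul, mul_zero, add_zero] at h3
  refine tendsto_iff_norm_sub_tendsto_zero.2 (squeeze_zero (fun _ => norm_nonneg _)
    (fun n => ?_) h3)
  have e1 : Ψ (X.E n a * X.E n b) = c.π (A.α n a * A.α n b) := by
    rw [← X.E_mul, A.psi_E c hΨ]
    exact congrArg c.π (ContinuousLinearMap.ext fun y => A.mul n a b y)
  have e2 : A.α n a * A.α n b - S * T = (A.α n a - S) * A.α n b + S * (A.α n b - T) := by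
    noncomm_ring
  rw [Function.comp_apply, e1, ← map_sub c.π, e2, map_add c.π, ← map_sub c.π, ← map_sub c.π]
  exact (norm_add_le _ _).trans (add_le_add ((c.mul _ _).trans
    (mul_le_mul_of_nonneg_left (A.cal_le c n b) (norm_nonneg _))) (c.mul _ _))

theorem psi_surj [CompleteSpace B] [CompleteSpace Y] (F : Fit X σ) (T : Y →L[ℂ] Y) :
    ∃ a, Ψ a = c.π T := by
  have K0 := X.K0
  choose m a hm using fun j : ℕ =>
    A.approx F T (j + 2 * X.K) (show 0 < 1 / ((j : ℝ) + 1) by positivity)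
  have h1 : ∀ i j, i ≤ j → dist (X.E (m i) (a i)) (X.E (m j) (a j)) ≤
      2 * X.K * (2 * (1 / ((i : ℝ) + 1))) := fun i j h => by
    obtain ⟨y, y1, y2⟩ := A.free F (max (m i) (m j))
    obtain ⟨k, k1, k2, k3⟩ := ((y1.far (max (m i) (m j))).and
      ((hm i y (y1.mono (le_add_of_nonneg_left (by positivity)))).and
        (hm j y (y1.mono (le_add_of_nonneg_left (by positivity)))))).exists
    have h2 := y2 k (X.E (m i) (a i) - X.E (m j) (a j))
    rw [map_sub, X.nest _ _ _ (le_max_left _ _), X.nest _ _ _ (le_max_right _ _), map_sub,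
      sub_apply, A.up (le_max_left _ _), A.up (le_max_right _ _), k1, sub_zero] at h2
    rw [dist_eq_norm]
    refine h2.trans (mul_le_mul_of_nonneg_left ?_ (by positivity))
    have h3 := norm_sub_le_norm_sub_add_norm_sub (A.α (m i) (a i) (y k)) (T (y k))
      (A.α (m j) (a j) (y k))
    have h4 : 1 / ((j : ℝ) + 1) ≤ 1 / ((i : ℝ) + 1) := Nat.one_div_le_one_div h
    rw [norm_sub_rev] at k2
    linarith
  obtain ⟨b, hb⟩ := cauchySeq_tendsto_of_complete (cauchySeq_of_le_tendsto_0' _ h1 (by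
    simpa using ((tendsto_one_div_add_atTop_nhds_zero_nat (𝕜 := ℝ)).const_mul 2).const_mul
      (2 * X.K)))
  obtain ⟨S, hS⟩ := c.surj (Ψ b)
  have h2 := tail_of_RIS s (S - T) fun C x hx => by
    refine NormedAddGroup.tendsto_nhds_zero.2 fun ε hε => ?_
    have h3 := (tendsto_iff_norm_sub_tendsto_zero.1 ((Ψ.continuous.tendsto b).comp hb)).mul_const C
    rw [zero_mul] at h3
    obtain ⟨j, j1, j2, j3⟩ := ((h3.eventually (eventually_lt_nhds (show 0 < ε / 3 by positivity))).and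
      (((tendsto_one_div_add_atTop_nhds_zero_nat (𝕜 := ℝ)).eventually
        (eventually_lt_nhds (show 0 < ε / 3 by positivity))).and
        ((tendsto_natCast_atTop_atTop (R := ℝ)).eventually_ge_atTop C))).exists
    filter_upwards [hm j x (hx.mono (le_add_of_le_of_nonneg j3 (by positivity))),
      hx.ev_cal c (A.α (m j) (a j) - S) (show 0 < ε / 3 by positivity)] with k k1 k2
    rw [Function.comp_apply, A.psi_E c hΨ, ← hS, ← map_sub c.π] at j1
    have h4 := norm_sub_le_norm_sub_add_norm_sub (T (x k)) (A.α (m j) (a j) (x k)) (S (x k))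
    rw [sub_apply] at k2
    rw [sub_apply, norm_sub_rev]
    linarith
  refine ⟨b, hS.symm.trans (c.eq.2 (isCompactOperator_of_tendsto (l := atTop)
    (F := fun n => (S - T).comp (s.P n)) ?_
    (Eventually.of_forall fun n => (s.cpt_P n).clm_comp (S - T))))⟩
  refine tendsto_iff_norm_sub_tendsto_zero.2 (h2.congr fun n => ?_)
  rw [norm_sub_rev]
  congr 1
  ext z
  simp

end Act

theorem calkin_main [CompleteSpace B] [Nontrivial B] (X : Ex B) :
    ∃ (Y : Type u) (_ : NormedAddCommGroup Y) (_ : NormedSpace ℂ Y) (_ : CompleteSpace Y),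
      TopologicalSpace.SeparableSpace Y ∧ ¬ FiniteDimensional ℂ Y ∧
        ∃ Φ : (Y →L[ℂ] Y) →ₐ[ℂ] B, Continuous Φ ∧ Function.Surjective Φ ∧
          ∀ T, Φ T = 0 ↔ IsCompactOperator T := by
  obtain ⟨σ, ⟨F⟩⟩ := exists_fit X
  obtain ⟨Y, _, _, _, ⟨s⟩⟩ := exists_BD σ
  obtain ⟨Q, _, _, _, ⟨c⟩⟩ := exists_cal Y
  choose α α1 α2 using F.exists_act s
  let A : Act X s := ⟨α, α1, α2⟩
  obtain ⟨Ψ, hΨ⟩ := A.exists_psi c
  choose φ hφ using A.psi_surj c hΨ F
  have uq : ∀ T b, Ψ b = c.π T → φ T = b := fun T b h => by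
    have h1 := A.psi_low c hΨ F (φ T - b)
    rw [map_sub, hφ, h, sub_self, norm_zero, zero_mul, mul_zero] at h1
    exact sub_eq_zero.1 (norm_le_zero_iff.1 h1)
  let Φ : (Y →L[ℂ] Y) →ₐ[ℂ] B := AlgHom.ofLinearMap
    { toFun := φ
      map_add' := fun S T => uq _ _ (by rw [map_add, hφ, hφ, map_add c.π])
      map_smul' := fun t T => uq _ _ (by rw [RingHom.id_apply, map_smul, hφ, map_smul c.π]) }
    (uq _ _ (by
      rw [← X.one 0, A.psi_E c hΨ]
      exact c.eqc ((Eqc.of_eq (ContinuousLinearMap.ext (A.one 0))).tr (B := 1 - s.P 0)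
        (SModEq.symm (eqc_of (by rw [sub_sub_cancel]; exact s.cpt_P 0))))))
    fun S T => uq _ _ (A.psi_mul c hΨ (hφ S) (hφ T))
  have ker : ∀ T, Φ T = 0 ↔ IsCompactOperator T := fun T =>
    ⟨fun h => by
      have h1 := hφ T
      rw [show φ T = 0 from h, map_zero, ← map_zero c.π] at h1
      simpa only [sub_zero] using c.eq.1 h1.symm,
    fun h => uq T 0 ((map_zero Ψ).trans ((map_zero c.π).symm.trans
      (c.eq.2 (by rwa [sub_zero])).symm))⟩
  refine ⟨Y, inferInstance, inferInstance, inferInstance, ?_, fun hf => ?_, Φ,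
    AddMonoidHomClass.continuous_of_bound Φ (2 * X.K * (2 * X.K)) fun T => ?_, fun b => ?_, ker⟩
  · rw [← TopologicalSpace.isSeparable_univ_iff]
    exact (TopologicalSpace.IsSeparable.iUnion fun n => cpt_sep (s.cpt_P n)).closure.mono
      fun y _ => mem_closure_of_tendsto (s.P_tendsto y)
        (Eventually.of_forall fun n => Set.mem_iUnion.2 ⟨n, y, rfl⟩)
  · have := FiniteDimensional.proper ℂ Y
    exact one_ne_zero ((map_one Φ).symm.trans
      ((ker 1).2 (isCompactOperator_of_locallyCompactSpace_dom _)))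
  · have K0 := X.K0
    have h1 := A.psi_low c hΨ F (φ T)
    rw [hφ] at h1
    have h2 := mul_le_mul_of_nonneg_left (c.le T) (show 0 ≤ 2 * X.K * (2 * X.K) by positivity)
    change ‖φ T‖ ≤ _
    linarith
  · obtain ⟨S, hS⟩ := c.surj (Ψ b)
    exact ⟨S, uq S b hS.symm⟩

end Pool.Agent.Lib.MP_2a83f9_an.H.J
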