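import Mathlib
import Pool.Agent.Lib.MP_2a83f9_an.H.Idem

set_option autoImplicit false

open Filter Topology

noncomputable section

namespace Pool.Agent.Lib.MP_2a83f9_an.H.Pr

universe u

variable {B : Type u} [NormedRing B] [NormedAlgebra ℂ B] (F : Pr B)

theorem uni_mul (x y : B) (l m : ℂ) : x * y - (l * m) • (1 : B) =
    (x - l • (1 : B)) * (y - m • (1 : B)) + l • (y - m • (1 : B)) + m • (x - l • (1 : B)) := by
  simp only [mul_sub, sub_mul, smul_mul_assoc, mul_smul_comm, mul_one, one_mul, smul_smul,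
    mul_comm m l, smul_sub]
  abel

/-- The unitization of the corner algebra, as a subalgebra of `B × ℂ`. -/
def uni : Subalgebra ℂ (B × ℂ) where
  carrier := {z | z.1 - z.2 • (1 : B) ∈ F.alg}
  mul_mem' := fun {z w} hz hw => by
    change z.1 * w.1 - (z.2 * w.2) • (1 : B) ∈ F.alg
    rw [uni_mul]
    exact F.alg.add_mem (F.alg.add_mem (F.mul_mem hz hw) (F.alg.smul_mem _ hw))
      (F.alg.smul_mem _ hz)
  add_mem' := fun {z w} hz hw => by
    change z.1 + w.1 - (z.2 + w.2) • (1 : B) ∈ F.alg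
    rw [add_smul, add_sub_add_comm]
    exact F.alg.add_mem hz hw
  algebraMap_mem' := fun c => by
    change algebraMap ℂ B c - c • (1 : B) ∈ F.alg
    rw [Algebra.algebraMap_eq_smul_one, sub_self]
    exact F.alg.zero_mem

theorem uni_complete [CompleteSpace B] : CompleteSpace F.uni :=
  (F.alg_closed.preimage (f := fun z : B × ℂ => z.1 - z.2 • (1 : B))
    (by fun_prop)).completeSpace_coe

theorem uni_nontrivial : Nontrivial F.uni :=
  ⟨0, 1, fun h => zero_ne_one (congrArg (fun z : F.uni => (z : B × ℂ).2) h)⟩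

/-- The two coordinates of an element of the unitization. -/
def part : F.uni →L[ℂ] F.alg × ℂ where
  toFun z := (⟨z.1.1 - z.1.2 • (1 : B), z.2⟩, z.1.2)
  map_add' z w := Prod.ext (Subtype.ext (by
    change z.1.1 + w.1.1 - (z.1.2 + w.1.2) • (1 : B) = _
    rw [add_smul, add_sub_add_comm]
    rfl)) rfl
  map_smul' c z := Prod.ext (Subtype.ext (by
    change c • z.1.1 - (c * z.1.2) • (1 : B) = c • (z.1.1 - z.1.2 • (1 : B))
    rw [smul_sub, smul_smul])) rfl
  cont := by fun_prop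

/-- The element of the unitization with given coordinates in a corner. -/
def glue (n : ℕ) : Corner (F.p n) × ℂ →L[ℂ] F.uni where
  toFun q := ⟨((q.1 : B) + q.2 • (1 : B), q.2), by
    change (q.1 : B) + q.2 • (1 : B) - q.2 • (1 : B) ∈ F.alg
    rw [add_sub_cancel_right]
    exact F.corner_le n q.1.2⟩
  map_add' q r := Subtype.ext (Prod.ext (by
    change (q.1 : B) + r.1 + (q.2 + r.2) • (1 : B) = _
    rw [add_smul, add_add_add_comm]
    rfl) rfl)
  map_smul' c q := Subtype.ext (Prod.ext (by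
    change c • (q.1 : B) + (c * q.2) • (1 : B) = c • ((q.1 : B) + q.2 • (1 : B))
    rw [smul_add, smul_smul]) rfl)
  cont := by fun_prop

/-- The expectation `a + l ↦ p a p + l`. -/
def ex (n : ℕ) : F.uni →L[ℂ] F.uni :=
  (F.glue n).comp ((((F.cor n).comp F.alg.subtypeL).prodMap
    (ContinuousLinearMap.id ℂ ℂ)).comp F.part)

theorem ex_coe (n : ℕ) (z : F.uni) : (F.ex n z : B × ℂ) =
    (F.p n * (z.1.1 - z.1.2 • (1 : B)) * F.p n + z.1.2 • (1 : B), z.1.2) := rfl

theorem ex_fin (n : ℕ) : FiniteDimensional ℂ (F.ex n).range := by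
  have := F.fin n
  exact Submodule.finiteDimensional_of_le (S₂ := (F.glue n).range) (by
    rintro _ ⟨z, rfl⟩
    exact ⟨_, rfl⟩)

theorem ex_nest (n m : ℕ) (z : F.uni) (h : n ≤ m) : F.ex m (F.ex n z) = F.ex n z :=
  Subtype.ext (by
    simp only [ex_coe, add_sub_cancel_right, mul_assoc, F.pp', F.p_p, min_eq_right h,
      min_eq_left h])

theorem ex_mod (n : ℕ) (z w : F.uni) : F.ex n (z * F.ex n w) = F.ex n z * F.ex n w :=
  Subtype.ext (by
    simp only [ex_coe, MulMemClass.coe_mul, Prod.fst_mul, Prod.snd_mul, Prod.mk_mul_mk]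
    refine Prod.ext ?_ rfl
    rw [uni_mul]
    simp only [add_sub_cancel_right]
    generalize z.1.1 - z.1.2 • (1 : B) = a
    generalize w.1.1 - w.1.2 • (1 : B) = b
    simp only [mul_add, add_mul, smul_mul_assoc, mul_smul_comm, mul_one, one_mul, smul_smul,
      mul_assoc, F.pp', F.pp, min_self, smul_add, mul_comm w.1.2 z.1.2]
    abel)

theorem ex_lim (z : F.uni) : Tendsto (fun n => F.ex n z) atTop (𝓝 z) := by
  refine tendsto_subtype_rng.2 ?_
  have h := (tendsto_iff_norm_sub_tendsto_zero.2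
    ((F.both z.2).congr fun n => norm_sub_rev _ _)).add_const (z.1.2 • (1 : B))
  rw [sub_add_cancel] at h
  exact h.prodMk_nhds tendsto_const_nhds

/-- A continuous homomorphism onto the unitization induces an isomorphism of the quotient. -/
theorem quot_of_hom [CompleteSpace B] {A : Type u} [NormedRing A] [NormedAlgebra ℂ A]
    [CompleteSpace A] (I : Submodule ℂ A) (Φ : A →ₐ[ℂ] F.uni) (hc : Continuous Φ)
    (hs : Function.Surjective Φ) (hk : ∀ T, Φ T = 0 ↔ T ∈ I) : QuotIsoUnitization I F.alg := by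
  have : CompleteSpace F.alg := F.alg_closed.completeSpace_coe
  let G : A →L[ℂ] F.alg × ℂ := F.part.comp ⟨Φ.toLinearMap, hc⟩
  have g1 : Function.Surjective G := fun q => by
    obtain ⟨T, hT⟩ := hs ⟨((q.1 : B) + q.2 • (1 : B), q.2), by
      change (q.1 : B) + q.2 • (1 : B) - q.2 • (1 : B) ∈ F.alg
      rw [add_sub_cancel_right]
      exact q.1.2⟩
    refine ⟨T, ?_⟩
    change F.part (Φ T) = q
    rw [hT]
    exact Prod.ext (Subtype.ext (add_sub_cancel_right _ _)) rfl
  have g2 : ∀ T, G T = 0 ↔ T ∈ I := fun T => by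
    refine ⟨fun h => (hk T).1 (Subtype.ext ?_), fun h => ?_⟩
    · have h1 : (Φ T).1.1 - (Φ T).1.2 • (1 : B) = 0 := congrArg (fun q : F.alg × ℂ => (q.1 : B)) h
      have h2 : (Φ T).1.2 = 0 := congrArg Prod.snd h
      rw [h2, zero_smul, sub_zero] at h1
      exact Prod.ext h1 h2
    · change F.part (Φ T) = 0
      rw [(hk T).2 h, map_zero]
  let f : (A ⧸ I) →L[ℂ] F.alg × ℂ := I.liftQL G fun T h => (g2 T).2 h
  have f1 : Function.Bijective f := ⟨(injective_iff_map_eq_zero f).2 fun x hx => by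
      obtain ⟨T, rfl⟩ := I.mkQ_surjective x
      exact (Submodule.Quotient.mk_eq_zero _).2 ((g2 T).1 hx),
    fun q => (g1 q).imp' I.mkQ fun _ h => h⟩
  have f2 : IsOpenMap f := IsOpenMap.of_comp I.mkQL.continuous I.mkQ_surjective (G.isOpenMap g1)
  refine ⟨f, ⟨ContinuousLinearEquiv.ofIsHomeomorph (LinearEquiv.ofBijective f.toLinearMap f1)
    ⟨f.continuous, f2, f1⟩, fun _ => rfl⟩, fun S T => ?_⟩
  change (((Φ (S * T)).1.1 - (Φ (S * T)).1.2 • (1 : B), (Φ (S * T)).1.2) : B × ℂ) = _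
  rw [map_mul]
  exact Prod.ext (uni_mul _ _ _ _) rfl

/-- The first coordinate of a homomorphism onto the unitization. -/
theorem hom_fst {A : Type u} [NormedRing A] [NormedAlgebra ℂ A] (Φ : A →ₐ[ℂ] F.uni)
    (hc : Continuous Φ) (hs : Function.Surjective Φ) (h1 : (1 : B) ∉ F.alg) :
    ∃ Ψ : A →ₐ[ℂ] B, Continuous Ψ ∧ (∀ S, (∃ T, Ψ T = S) ↔ ∃ c : ℂ, S - c • (1 : B) ∈ F.alg) ∧
      ∀ T, Ψ T = 0 ↔ Φ T = 0 := by
  refine ⟨(AlgHom.fst ℂ _ _).comp (F.uni.val.comp Φ),
    (continuous_subtype_val.comp hc).fst, fun S => ⟨?_, fun ⟨c, h⟩ => ?_⟩,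
    fun T => ⟨fun h => ?_, fun h => congrArg (fun z : F.uni => z.1.1) h⟩⟩
  · rintro ⟨T, rfl⟩
    exact ⟨_, (Φ T).2⟩
  · obtain ⟨T, hT⟩ := hs ⟨(S, c), h⟩
    exact ⟨T, congrArg (fun z : F.uni => z.1.1) hT⟩
  · refine Subtype.ext (Prod.ext h (by_contra fun c => h1 ?_))
    have h2 := F.alg.smul_mem (-(Φ T).1.2⁻¹) (Φ T).2
    rwa [show (Φ T).1.1 = 0 from h, zero_sub, smul_neg, neg_smul, neg_neg, smul_smul,
      inv_mul_cancel₀ c, one_smul] at h2

end Pool.Agent.Lib.MP_2a83f9_an.H.Pr
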