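import Mathlib
import Pool.Agent.Lib.MP_2a83f9_an.J.Main
import Pool.Agent.Lib.MP_2a83f9_an.J.Unit

set_option autoImplicit false

namespace Pool.Agent.Lib.MP_2a83f9_an.H.J.General

open Filter Topology Pool.Agent.Lib.MP_2a83f9_an Pool.Agent.Lib.MP_2a83f9_an.H

universe u

/-- Let `B` be a nonzero unital complex Banach algebra and `E n` bounded finite-rank projections
of `B` with increasing ranges which are right module maps over their ranges and tend pointwise to
the identity. Then `B` is the Calkin algebra of a separable infinite-dimensional complex Banach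
space `Y`: there is a continuous algebra homomorphism from the bounded operators on `Y` onto `B`
whose kernel is the ideal of compact operators. -/
theorem result (B : Type u) [NormedRing B] [NormedAlgebra ℂ B] [CompleteSpace B] [Nontrivial B]
    (E : ℕ → B →L[ℂ] B) (hfin : ∀ n, FiniteDimensional ℂ (E n).range)
    (hnest : ∀ n m x, n ≤ m → E m (E n x) = E n x)
    (hmod : ∀ n x y, E n (x * E n y) = E n x * E n y)
    (hlim : ∀ x, Tendsto (fun n => E n x) atTop (𝓝 x)) :
    ∃ (Y : Type u) (_ : NormedAddCommGroup Y) (_ : NormedSpace ℂ Y) (_ : CompleteSpace Y),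
      TopologicalSpace.SeparableSpace Y ∧ ¬ FiniteDimensional ℂ Y ∧
        ∃ Φ : (Y →L[ℂ] Y) →ₐ[ℂ] B, Continuous Φ ∧ Function.Surjective Φ ∧
          ∀ T, Φ T = 0 ↔ IsCompactOperator T := by
  obtain ⟨C, hC⟩ := banach_steinhaus (g := E) fun x => by
    obtain ⟨c, hc⟩ := (hlim x).norm.bddAbove_range
    exact ⟨c, fun n => hc ⟨n, rfl⟩⟩
  obtain ⟨N, hN⟩ := eventually_atTop.1 ((hlim 1).eventually (Units.isOpen.mem_nhds isUnit_one))
  have h1 : ∀ n, E (n + N) 1 = 1 := fun n => by
    have h := hmod (n + N) 1 1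
    rw [one_mul, hnest _ _ _ le_rfl] at h
    exact (hN _ le_add_self).mul_left_cancel (h.symm.trans (mul_one _).symm)
  exact J.calkin_main ⟨fun n => E (n + N), max (max 1 ‖(1 : B)‖) C, fun n => hfin _,
    fun n m x h => hnest _ _ _ (Nat.add_le_add_right h N), fun n => hmod _, h1,
    fun x => (hlim x).comp (tendsto_add_atTop_nat N),
    (le_max_left _ _).trans (le_max_left _ _), (le_max_right _ _).trans (le_max_left _ _),
    fun n x => (E _).le_of_opNorm_le ((hC _).trans (le_max_right _ _)) x⟩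

/-- The case of a finite-dimensional algebra. -/
theorem finite_case (A : Type u) [NormedRing A] [NormedAlgebra ℂ A] [FiniteDimensional ℂ A]
    [Nontrivial A] :
    ∃ (Y : Type u) (_ : NormedAddCommGroup Y) (_ : NormedSpace ℂ Y) (_ : CompleteSpace Y),
      TopologicalSpace.SeparableSpace Y ∧ ¬ FiniteDimensional ℂ Y ∧
        ∃ Φ : (Y →L[ℂ] Y) →ₐ[ℂ] A, Continuous Φ ∧ Function.Surjective Φ ∧
          ∀ T, Φ T = 0 ↔ IsCompactOperator T :=
  have := FiniteDimensional.complete ℂ A
  result A (fun _ => ContinuousLinearMap.id ℂ A) (fun _ => inferInstance) (fun _ _ _ _ => rfl)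
    (fun _ _ _ => rfl) fun _ => tendsto_const_nhds

/-- The case of the unitization of the closure of an increasing union of finite-dimensional
corners. -/
theorem corner_case (B : Type u) [NormedRing B] [NormedAlgebra ℂ B] [CompleteSpace B] (p : ℕ → B)
    (hp : ∀ n m, p n * p m = p (min n m)) (C : ℝ) (hC : ∀ n, ‖p n‖ ≤ C)
    (hfin : ∀ n, FiniteDimensional ℂ (Corner (p n))) :
    ∃ (Y : Type u) (_ : NormedAddCommGroup Y) (_ : NormedSpace ℂ Y) (_ : CompleteSpace Y),
      TopologicalSpace.SeparableSpace Y ∧ ¬ FiniteDimensional ℂ Y ∧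
        QuotIsoUnitization (Compacts Y) (CornerAlg p) := by
  let F : Pr B := ⟨p, hp, ⟨C, hC⟩, hfin⟩
  have := F.uni_complete
  have := F.uni_nontrivial
  obtain ⟨Y, i₁, i₂, i₃, h₁, h₂, Φ, h₃, h₄, h₅⟩ :=
    result F.uni F.ex F.ex_fin F.ex_nest F.ex_mod F.ex_lim
  exact ⟨Y, i₁, i₂, i₃, h₁, h₂, F.quot_of_hom (Compacts Y) Φ h₃ h₄ h₅⟩

/-- The same case, with the unitization read inside `B`. -/
theorem scalar_case (B : Type u) [NormedRing B] [NormedAlgebra ℂ B] [CompleteSpace B] (F : Pr B)
    (h : (1 : B) ∉ F.alg) :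
    ∃ (Y : Type u) (_ : NormedAddCommGroup Y) (_ : NormedSpace ℂ Y) (_ : CompleteSpace Y),
      TopologicalSpace.SeparableSpace Y ∧ ¬ FiniteDimensional ℂ Y ∧
        ∃ Φ : (Y →L[ℂ] Y) →ₐ[ℂ] B, Continuous Φ ∧
          (∀ S, (∃ T, Φ T = S) ↔ ∃ c : ℂ, S - c • (1 : B) ∈ F.alg) ∧
          ∀ T, Φ T = 0 ↔ IsCompactOperator T := by
  have := F.uni_complete
  have := F.uni_nontrivial
  obtain ⟨Y, i₁, i₂, i₃, h₁, h₂, Φ, h₃, h₄, h₅⟩ :=
    result F.uni F.ex F.ex_fin F.ex_nest F.ex_mod F.ex_lim
  obtain ⟨Ψ, h₆, h₇, h₈⟩ := F.hom_fst Φ h₃ h₄ h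
  exact ⟨Y, i₁, i₂, i₃, h₁, h₂, Ψ, h₆, h₇, fun T => (h₈ T).trans (h₅ T)⟩

/-- The corners of the projections of a Schauder basis are finite-dimensional. -/
theorem corner_finite {X : Type u} [NormedAddCommGroup X] [NormedSpace ℂ X]
    (b : SchauderBasis ℂ X) (n : ℕ) : FiniteDimensional ℂ (Corner (b.proj n)) := by
  have := FiniteDimensional.span_of_finite ℂ
    (Set.finite_range fun q : Fin n × Fin n => (b.coord q.2).smulRight (b q.1))
  refine Submodule.finiteDimensional_of_le (S₂ := Submodule.span ℂ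
    (Set.range fun q : Fin n × Fin n => (b.coord q.2).smulRight (b q.1))) ?_
  rintro _ ⟨A, rfl⟩
  have h1 : b.proj n * A * b.proj n = ∑ i : Fin n, ∑ j : Fin n,
      b.coord i (A (b j)) • (b.coord j).smulRight (b i) := by
    ext x
    rw [Finset.sum_comm]
    simp [mul_apply_eq_comp, b.proj_apply, Finset.smul_sum, smul_smul, mul_comm, Finset.sum_range]
  rw [LinearMap.mulLeftRight_apply, h1]
  exact Submodule.sum_mem _ fun i _ => Submodule.sum_mem _ fun j _ =>
    Submodule.smul_mem _ _ (Submodule.subset_span ⟨(i, j), rfl⟩)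

/-- For a shrinking basis, the corners of the basis projections span the compact operators. -/
theorem cornerAlg_eq_compacts {X : Type u} [NormedAddCommGroup X] [NormedSpace ℂ X]
    [CompleteSpace X] (b : SchauderBasis ℂ X) (hb : Shrinking b) :
    CornerAlg b.proj = Compacts X := by
  refine le_antisymm (Submodule.topologicalClosure_minimal _ (iSup_le fun n => ?_)
    isClosed_setOfPred_isCompactOperator) fun A hA => ?_
  · rintro _ ⟨A, rfl⟩
    exact (Abs.compact_proj b n).clm_comp (b.proj n * A)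
  · exact mem_closure_of_tendsto (tendsto_iff_norm_sub_tendsto_zero.2
      ((Abs.compact_both hb hA).congr fun n => norm_sub_rev _ _))
      (Filter.Eventually.of_forall fun n => Submodule.mem_iSup_of_mem n ⟨A, rfl⟩)

/-- The case of the question: the compact operators on a space with a shrinking basis. -/
theorem shrinking_case (X : Type u) [NormedAddCommGroup X] [NormedSpace ℂ X] [CompleteSpace X]
    (b : SchauderBasis ℂ X) (hb : Shrinking b) :
    ∃ (Y : Type u) (_ : NormedAddCommGroup Y) (_ : NormedSpace ℂ Y) (_ : CompleteSpace Y),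
      TopologicalSpace.SeparableSpace Y ∧ ¬ FiniteDimensional ℂ Y ∧ CalkinIsoUnitization Y X := by
  obtain ⟨C, hC⟩ := b.exists_norm_proj_le
  have h := corner_case (X →L[ℂ] X) b.proj
    (fun n m => ContinuousLinearMap.ext fun x => b.proj_comp n m x) C hC (corner_finite b)
  rwa [cornerAlg_eq_compacts b hb] at h

/-- A shrinking basis from its defining limits. -/
theorem exists_shrinking {X : Type u} [NormedAddCommGroup X] [NormedSpace ℂ X]
    (e : ℕ → X) (f : ℕ → X →L[ℂ] ℂ) (hef : ∀ i j, f i (e j) = if i = j then 1 else 0)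
    (he : ∀ x, Tendsto (fun n => ∑ i ∈ Finset.range n, f i x • e i) atTop (𝓝 x))
    (hf : ∀ g : X →L[ℂ] ℂ, ∃ a : ℕ → ℂ,
      Tendsto (fun n => ∑ i ∈ Finset.range n, a i • f i) atTop (𝓝 g)) :
    ∃ b : SchauderBasis ℂ X, Shrinking b := by
  refine ⟨⟨e, f, fun i j => by rw [hef]; split_ifs with h <;> simp [h], fun x => ?_⟩,
    ⟨f, fun i => NormedSpace.inclusionInDoubleDual ℂ X (e i), fun i j => ?_, fun g => ?_⟩,
    fun _ => rfl⟩
  · rw [HasSum, SummationFilter.conditional_filter_eq_map_range, tendsto_map'_iff]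
    exact he x
  · rw [NormedSpace.dual_def, hef]
    split_ifs with h <;> simp [h, Ne.symm]
  · rw [HasSum, SummationFilter.conditional_filter_eq_map_range, tendsto_map'_iff]
    obtain ⟨a, ha⟩ := hf g
    have h : ∀ j, g (e j) = a j := fun j => tendsto_nhds_unique
      (((ContinuousLinearMap.apply ℂ ℂ (e j)).continuous.tendsto g).comp ha)
      (tendsto_const_nhds.congr' ((eventually_gt_atTop j).mono fun n hn => by simp [hef, hn]))
    exact ha.congr fun n => Finset.sum_congr rfl fun i _ => by rw [← h, NormedSpace.dual_def]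

/-- The question in plain terms: `e` is a Schauder basis of `X` with coordinate functionals `f`,
every functional is a norm limit of the initial sums of a series in the `f i`, and the Calkin algebra
of `Y` is the algebra of the operators on `X` that are compact plus scalar. -/
theorem plain_case (X : Type u) [NormedAddCommGroup X] [NormedSpace ℂ X] [CompleteSpace X]
    (e : ℕ → X) (f : ℕ → X →L[ℂ] ℂ) (hef : ∀ i j, f i (e j) = if i = j then 1 else 0)
    (he : ∀ x, Tendsto (fun n => ∑ i ∈ Finset.range n, f i x • e i) atTop (𝓝 x))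
    (hf : ∀ g : X →L[ℂ] ℂ, ∃ a : ℕ → ℂ,
      Tendsto (fun n => ∑ i ∈ Finset.range n, a i • f i) atTop (𝓝 g)) :
    ∃ (Y : Type u) (_ : NormedAddCommGroup Y) (_ : NormedSpace ℂ Y) (_ : CompleteSpace Y),
      TopologicalSpace.SeparableSpace Y ∧ ¬ FiniteDimensional ℂ Y ∧
        ∃ Φ : (Y →L[ℂ] Y) →ₐ[ℂ] (X →L[ℂ] X), Continuous Φ ∧
          (∀ S, (∃ T, Φ T = S) ↔ ∃ c : ℂ, IsCompactOperator (S - c • 1 : X →L[ℂ] X)) ∧
          ∀ T, Φ T = 0 ↔ IsCompactOperator T := by
  obtain ⟨b, hb⟩ := exists_shrinking e f hef he hf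
  obtain ⟨F, hF⟩ : ∃ F : Pr (X →L[ℂ] X), F.alg = Compacts X :=
    ⟨⟨b.proj, fun n m => ContinuousLinearMap.ext fun x => b.proj_comp n m x,
      b.exists_norm_proj_le, corner_finite b⟩, cornerAlg_eq_compacts b hb⟩
  have h := scalar_case _ F fun h => by
    have := (isCompactOperator_id_iff_finiteDimensional (𝕜 := ℂ)).1 (hF.le h)
    exact Module.Finite.not_linearIndependent_of_infinite _ b.linearIndependent
  rwa [hF] at h

end Pool.Agent.Lib.MP_2a83f9_an.H.J.General
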