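import Mathlib

set_option autoImplicit false

open Matrix
open scoped ComplexOrder MatrixOrder

noncomputable section

namespace Pool.Agent.Lib.MP_2a83f9_an.H.J

universe u

variable (A : Type u) [CStarAlgebra A] [FiniteDimensional ℂ A]

theorem semisimple : IsSemisimpleRing A := by
  have := IsArtinianRing.of_finite ℂ A
  refine IsArtinianRing.isSemisimpleRing_iff_jacobson.2 (eq_bot_iff.2 fun x hx => ?_)
  obtain ⟨n, hn⟩ : IsNilpotent (Ring.jacobson A) := IsSemiprimaryRing.isNilpotent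
  have h2 := (IsSelfAdjoint.star_mul_self x).norm_pow_two_pow n
  rw [Ideal.pow_eq_zero_of_mem hn Nat.lt_two_pow_self.le (Ideal.mul_mem_left _ _ hx),
    norm_zero] at h2
  exact (CStarRing.star_mul_self_eq_zero_iff x).1 (norm_eq_zero.1 (pow_eq_zero_iff
    (by positivity) |>.1 h2.symm))

variable {A} in
omit [FiniteDimensional ℂ A] in
theorem pos_of_sq {x : A} (hx : x ≠ 0) {t : ℂ}
    (h : star x * x * (star x * x) = t • (star x * x)) : 0 < t := by
  let := CStarAlgebra.spectralOrder A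
  have := CStarAlgebra.spectralOrderedRing A
  have h0 : star x * x ≠ 0 := fun c => hx ((CStarRing.star_mul_self_eq_zero_iff x).1 c)
  refine (spectrum_nonneg_of_nonneg (star_mul_self_nonneg x) (spectrum.mem_iff.2 fun c => h0
    (c.mul_left_cancel ?_))).lt_of_ne fun c => h0 ?_
  · rw [sub_mul, h, mul_zero, ← Algebra.smul_def, sub_self]
  · refine (CStarRing.star_mul_self_eq_zero_iff _).1 ?_
    rw [(IsSelfAdjoint.star_mul_self x).star_eq, h, ← c, zero_smul]

/-- A finite-dimensional C*-algebra is the range of a homomorphism from a sum of matrix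
algebras. -/
theorem exists_matrix_hom : ∃ (n : ℕ) (d : Fin n → ℕ)
    (ρ : (∀ i, Matrix (Fin (d i)) (Fin (d i)) ℂ) →⋆ₐ[ℂ] A), Function.Surjective ρ := by
  have := semisimple A
  obtain ⟨n, d, _, ⟨e⟩⟩ := IsSemisimpleRing.exists_algEquiv_pi_matrix_of_isAlgClosed ℂ A
  obtain ⟨c, hc⟩ : ∃ c : ∀ i, (Fin (d i) → ℂ) →ₗ[ℂ] A,
      ∀ i ξ, e (c i ξ) = Pi.single i (vecMulVec ξ (Pi.single 0 1)) :=
    ⟨fun i => e.symm.toLinearMap ∘ₗ LinearMap.single ℂ _ i ∘ₗ
      (vecMulVecBilin ℂ ℂ).flip (Pi.single 0 1), fun i ξ => e.apply_symm_apply _⟩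
  have h1 : ∀ i y ξ, y * c i ξ = c i (e y i *ᵥ ξ) := fun i y ξ => e.injective (by
    rw [map_mul, hc, hc, ← mul_vecMulVec, Pi.single_mul_right])
  have h2 : ∀ i ξ, c i ξ * c i ξ = e (c i ξ) i 0 0 • c i ξ := fun i ξ => by
    rw [h1, hc, ← map_smul]
    simp [vecMulVec_mulVec, vecMulVec_apply]
  obtain ⟨G, hG⟩ : ∃ G : ∀ i, Matrix (Fin (d i)) (Fin (d i)) ℂ,
      ∀ i η ξ, star η ⬝ᵥ (G i *ᵥ ξ) = e (star (c i η) * c i ξ) i 0 0 :=
    ⟨fun i => Matrix.of fun a b => e (star (c i (Pi.single a 1)) * c i (Pi.single b 1)) i 0 0,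
      fun i η ξ => by
        conv_rhs => rw [pi_eq_sum_univ' η, pi_eq_sum_univ' ξ]
        simp [dotProduct, mulVec, star_sum, Finset.sum_mul, Finset.mul_sum, mul_comm,
          mul_left_comm, Matrix.sum_apply]
        exact Finset.sum_comm⟩
  have h3 : ∀ y, G * e y = star (e (star y)) * G := fun y => funext fun i => by
    have h : ∀ η ξ, star η ⬝ᵥ ((G i * e y i) *ᵥ ξ) =
        star η ⬝ᵥ (((e (star y) i)ᴴ * G i) *ᵥ ξ) := fun η ξ => by
      rw [← mulVec_mulVec, ← mulVec_mulVec, dotProduct_mulVec _ _ᴴ, ← star_mulVec, hG, hG, ← h1,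
        ← h1, star_mul, star_star, mul_assoc]
    ext a b
    simpa [Pi.star_single, star_eq_conjTranspose] using h (Pi.single a 1) (Pi.single b 1)
  have h4 : ∀ i, ∃ T, IsUnit T ∧ G i + (G i)ᴴ = star T * T := fun i =>
    CStarAlgebra.isStrictlyPositive_iff_eq_star_mul_self.1 (PosDef.isStrictlyPositive
      (.of_dotProduct_mulVec_pos (isHermitian_add_transpose_self _) fun ξ hξ => by
        have h : 0 < star ξ ⬝ᵥ (G i *ᵥ ξ) := by
          rw [hG]
          refine pos_of_sq (x := c i ξ) (fun h => hξ (funext fun a => ?_)) (by rw [h1, h2])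
          simpa [h, vecMulVec_apply] using (congrFun (congrFun (congrFun (hc i ξ) i) a) 0).symm
        rw [add_mulVec, dotProduct_add, dotProduct_mulVec _ _ᴴ, ← star_mulVec,
          star_dotProduct (G i *ᵥ ξ)]
        exact add_pos h (star_pos_iff.2 h)))
  choose T T1 T2 using h4
  obtain ⟨U, rfl⟩ : IsUnit T := Pi.isUnit_iff.2 T1
  have h5 : G + star G = star (U : ∀ i, Matrix (Fin (d i)) (Fin (d i)) ℂ) * U := funext T2
  let ρ : (∀ i, Matrix (Fin (d i)) (Fin (d i)) ℂ) ≃ₐ[ℂ] A :=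
    (MulSemiringAction.toAlgEquiv ℂ _ (ConjAct.toConjAct U⁻¹)).trans e.symm
  have hρ : ∀ m, e (ρ m) = U⁻¹ * m * U := fun m => e.apply_symm_apply _
  refine ⟨n, d, { ρ.toAlgHom with map_star' := fun m => e.injective ?_ }, ρ.surjective⟩
  have h6 : (G + star G) * e (star (ρ m)) = star (e (ρ m)) * (G + star G) := by
    have a1 := h3 (star (ρ m))
    have a2 := congrArg star (h3 (ρ m))
    rw [star_star] at a1
    rw [star_mul, star_mul, star_star] at a2
    rw [add_mul, mul_add, a1, a2]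
  have h7 : star (U⁻¹ * m * U : ∀ i, Matrix (Fin (d i)) (Fin (d i)) ℂ) * star ↑U =
      star ↑U * star m := by
    rw [← star_mul, ← star_mul, mul_assoc, Units.mul_inv_cancel_left]
  rw [h5, hρ, ← mul_assoc (star _) (star _), h7, mul_assoc, mul_assoc] at h6
  change e (ρ (star m)) = e (star (ρ m))
  rw [hρ, mul_assoc, ← U.isUnit.star.mul_left_cancel h6, Units.inv_mul_cancel_left]

end Pool.Agent.Lib.MP_2a83f9_an.H.J
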